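import Pool.Agent.Lib_helper59.LHM.Wanted
import Pool.Agent.Lib_helper98.GAF.Den3
import Pool.Agent.Lib_helper98.GAF.Fin
import Pool.Agent.Lib_helper98.GAF.Lgr
import Pool.Agent.Lib_helper98.GAF.Lsc

/-! # LHM, block ZB: properties of the bad zeros (helper36) -/

set_option autoImplicit false

namespace Pool.Agent.LHM

open Finset Pool.Agent.Var35 Pool.Agent.Var73 Pool.Agent.PV Pool.Agent.FGP
open scoped ArithmeticFunction ArithmeticFunction.Moebius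

theorem zb_zr {q : ℕ} (hq : 1 ≤ q) {χ : DirichletCharacter ℂ q} (hχ : χ ∈ GA.Prm q) (a T : ℝ)
    (ρ : ℂ) : ρ ∈ GA.zr (GA.LF χ) a T ↔ GA.LF χ ρ = 0 ∧ 1 - a ≤ ρ.re ∧ ρ.re ≤ 1 ∧ |ρ.im| ≤ T := by
  have : NeZero q := ⟨by omega⟩
  have h1 := (GA.mem_Prm.1 hχ).2
  have h2 : GA.LF χ 2 ≠ 0 := GA.LF_ne_zero h1 (by norm_num)
  exact GA.mem_zr (GA.LF_diff h1) h2 a T ρ

theorem zb_mem {q : ℕ} (hq : 1 ≤ q) {χ : DirichletCharacter ℂ q} (hχ : χ ∈ GA.Prm q) {c : ℝ}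
    {D : ℕ} {ρ : ℂ} : ρ ∈ BZ c D χ ↔ (GA.LF χ ρ = 0 ∧ 1 - 1 / 16 ≤ ρ.re ∧ ρ.re ≤ 1 ∧
      |ρ.im| ≤ D) ∧ 1 - c / Real.log D < ρ.re := by
  unfold BZ
  rw [Finset.mem_filter, zb_zr hq hχ]

theorem zb_mlt (f : ℂ → ℂ) (ρ : ℂ) : 0 ≤ GA.mlt f ρ := by
  unfold GA.mlt
  exact Nat.cast_nonneg _

/-- termwise -/
theorem zb_pow {x y r κ : ℝ} (hx : 1 ≤ x) (hxy : x ≤ y) (hr : r ≤ 0) (hκ : -r ≤ κ) :
    0 ≤ y ^ r ∧ y ^ r ≤ x ^ r ∧ x ^ r ≤ y ^ r * (y / x) ^ κ ∧ x ^ r ≤ 1 := by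
  have hx0 : 0 < x := by linarith
  have hy0 : 0 < y := by linarith
  refine ⟨Real.rpow_nonneg hy0.le _, Real.rpow_le_rpow_of_nonpos hx0 hxy hr, ?_,
    Real.rpow_le_one_of_one_le_of_nonpos hx hr⟩
  have h1 : 1 ≤ y / x := by rw [le_div_iff₀ hx0]; linarith
  have h2 : (y / x) ^ (-r) ≤ (y / x) ^ κ := Real.rpow_le_rpow_of_exponent_le h1 hκ
  have h3 : x ^ r = y ^ r * (y / x) ^ (-r) := by
    rw [Real.div_rpow hy0.le hx0.le, Real.rpow_neg hy0.le, Real.rpow_neg hx0.le]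
    have h4 : y ^ r ≠ 0 := (Real.rpow_pos_of_pos hy0 r).ne'
    field_simp
  rw [h3]
  exact mul_le_mul_of_nonneg_left h2 (Real.rpow_nonneg hy0.le _)

theorem WZB_pr (c : ℝ) (h : ZF c) : WZB c := by
  obtain ⟨hc0, hc1, hzf⟩ := h
  obtain ⟨C, hC, hden⟩ := GA.density
  refine ⟨Real.exp (C * (1 + c)), Real.one_le_exp (by positivity), fun D hD => ?_⟩
  have hD2 : (2 : ℝ) ≤ D := by exact_mod_cast hD
  have hlog2 : (1 / 2 : ℝ) < Real.log 2 := by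
    have := Real.log_two_gt_d9
    linarith
  have hlog : (1 / 2 : ℝ) < Real.log D :=
    lt_of_lt_of_le hlog2 (Real.log_le_log (by norm_num) hD2)
  have hlog0 : 0 < Real.log D := by linarith
  have hδ0 : 0 ≤ c / Real.log D := by positivity
  have hδ1 : c / Real.log D ≤ 1 / 16 := by
    rw [div_le_iff₀ hlog0]
    linarith
  have hsumle : ∀ q ∈ Icc 1 D, ∀ χ ∈ GA.Prm q,
      ∑ ρ ∈ BZ c D χ, GA.mlt (GA.LF χ) ρ ≤ GA.nz (GA.LF χ) (c / Real.log D) D := by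
    intro q hq χ hχ
    have hq1 := (Finset.mem_Icc.1 hq).1
    unfold GA.nz
    refine Finset.sum_le_sum_of_subset_of_nonneg ?_ fun ρ _ _ => zb_mlt _ _
    intro ρ hρ
    obtain ⟨⟨h1, _, h3, h4⟩, h5⟩ := (zb_mem hq1 hχ).1 hρ
    exact (zb_zr hq1 hχ _ _ ρ).2 ⟨h1, h5.le, h3, h4⟩
  have htot : ∑ q ∈ Icc 1 D, ∑ χ ∈ GA.Prm q, ∑ ρ ∈ BZ c D χ, GA.mlt (GA.LF χ) ρ ≤
      Real.exp (C * (1 + c)) := by
    have h1 := hden D hD (c / Real.log D) hδ0 hδ1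
    rw [div_mul_cancel₀ _ hlog0.ne'] at h1
    exact (Finset.sum_le_sum fun q hq => Finset.sum_le_sum fun χ hχ => hsumle q hq χ hχ).trans h1
  refine ⟨?_, htot, ?_⟩
  · intro q hq χ hχ ρ hρ
    have hq1 := (Finset.mem_Icc.1 hq).1
    have : NeZero q := ⟨by omega⟩
    obtain ⟨⟨h1, h2, _, h4⟩, h5⟩ := (zb_mem hq1 hχ).1 hρ
    refine ⟨h1, hzf D hD q hq χ hχ ρ h1 h4 h5, by linarith, ?_, h5⟩
    by_contra hcon
    exact GA.LF_ne_zero (GA.mem_Prm.1 hχ).2 (not_lt.1 hcon) h1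
  · intro q hq χ hχ x y hx hxy
    have hq1 := (Finset.mem_Icc.1 hq).1
    have hpow : ∀ ρ ∈ BZ c D χ, 0 ≤ y ^ (ρ.re - 1) ∧ y ^ (ρ.re - 1) ≤ x ^ (ρ.re - 1) ∧
        x ^ (ρ.re - 1) ≤ y ^ (ρ.re - 1) * (y / x) ^ (c / Real.log D) ∧ x ^ (ρ.re - 1) ≤ 1 := by
      intro ρ hρ
      obtain ⟨⟨_, _, h3, _⟩, h5⟩ := (zb_mem hq1 hχ).1 hρ
      exact zb_pow hx hxy (by linarith) (by linarith)
    refine ⟨?_, ?_, ?_, ?_⟩
    · exact Finset.sum_nonneg fun ρ hρ => mul_nonneg (zb_mlt _ _) (hpow ρ hρ).1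
    · exact Finset.sum_le_sum fun ρ hρ => mul_le_mul_of_nonneg_left (hpow ρ hρ).2.1 (zb_mlt _ _)
    · unfold wz
      rw [Finset.sum_mul]
      refine Finset.sum_le_sum fun ρ hρ => ?_
      rw [mul_assoc]
      exact mul_le_mul_of_nonneg_left (hpow ρ hρ).2.2.1 (zb_mlt _ _)
    · refine le_trans ?_ htot
      have h1 : wz c D χ x ≤ ∑ ρ ∈ BZ c D χ, GA.mlt (GA.LF χ) ρ := by
        unfold wz
        refine Finset.sum_le_sum fun ρ hρ => ?_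
        have h2 := mul_le_mul_of_nonneg_left (hpow ρ hρ).2.2.2 (zb_mlt (GA.LF χ) ρ)
        rw [mul_one] at h2
        exact h2
      have h0 : ∀ q' : ℕ, ∀ χ' : DirichletCharacter ℂ q',
          0 ≤ ∑ ρ ∈ BZ c D χ', GA.mlt (GA.LF χ') ρ :=
        fun q' χ' => Finset.sum_nonneg fun ρ _ => zb_mlt _ _
      refine h1.trans (le_trans ?_ (Finset.single_le_sum
        (f := fun q' => ∑ χ' ∈ GA.Prm q', ∑ ρ ∈ BZ c D χ', GA.mlt (GA.LF χ') ρ)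
        (fun q' _ => Finset.sum_nonneg fun χ' _ => h0 q' χ') hq))
      exact Finset.single_le_sum (f := fun χ' => ∑ ρ ∈ BZ c D χ', GA.mlt (GA.LF χ') ρ)
        (fun χ' _ => h0 q χ') hχ

end Pool.Agent.LHM
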