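import Pool.Agent.Lib_helper59.LHM.Wanted
import Pool.Agent.Lib_helper59.MFF.G4b
import Pool.Agent.Lib_helper59.MFF.G8
import Pool.Agent.Lib_helper59.MFF.X3
import Pool.Agent.Lib_helper92.HCF.PAR
import Pool.Agent.Lib_helper92.PVF.REM

/-!
# LHM, block LA: from the von Mangoldt function to the primes `> √N`
-/

set_option autoImplicit false

namespace Pool.Agent.LHM

open Finset Pool.Agent.Var35 Pool.Agent.Var73 Pool.Agent.PV Pool.Agent.FGP
open scoped ArithmeticFunction ArithmeticFunction.Moebius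

private theorem la_Ps_cont (N : ℕ) : Continuous (Ps N) := by
  unfold Ps Bs e
  fun_prop

private theorem la_In_cont (N : ℕ) : Continuous (In N) := by
  unfold In e
  fun_prop

private theorem la_EM_cont (N r : ℕ) : Continuous (EM N r) := by
  unfold EM
  refine continuous_finsetSum _ fun c _ => ?_
  refine ((Continuous.sub ?_ ?_).norm).pow 2
  · exact (la_Ps_cont N).comp (continuous_const.add continuous_id)
  · exact continuous_const.mul (la_In_cont N)

private theorem la_EM_nonneg (N r : ℕ) (β : ℝ) : 0 ≤ EM N r β :=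
  sum_nonneg fun _ _ => sq_nonneg _

/-! ### The integral against the sum -/

private theorem la_step (x β : ℝ) : ∫ t in x..(x + 1), e (t * β) =
    e ((x + 1) * β) * ∫ s in (-1 : ℝ)..0, e (s * β) := by
  have h := intervalIntegral.integral_comp_add_right (a := (-1 : ℝ)) (b := 0)
    (fun t : ℝ => e (t * β)) (x + 1)
  have h1 : (-1 : ℝ) + (x + 1) = x := by ring
  have h2 : (0 : ℝ) + (x + 1) = x + 1 := by ring
  rw [h1, h2] at h
  rw [← h, ← intervalIntegral.integral_const_mul]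
  refine intervalIntegral.integral_congr fun s _ => ?_
  rw [← e_add]
  congr 1
  ring

private theorem la_Ic_nat (β : ℝ) (N : ℕ) :
    HC.Ic N β = In N β * ∫ s in (-1 : ℝ)..0, e (s * β) := by
  have hc : Continuous fun t : ℝ => e (t * β) := by unfold e; fun_prop
  induction N with
  | zero =>
    unfold HC.Ic In
    simp
  | succ N ih =>
    have h1 : HC.Ic ((N + 1 : ℕ) : ℝ) β = HC.Ic N β + ∫ t in (N : ℝ)..(N + 1), e (t * β) := by
      unfold HC.Ic
      rw [intervalIntegral.integral_add_adjacent_intervals (hc.intervalIntegrable _ _)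
        (hc.intervalIntegrable _ _)]
      push_cast
      rfl
    have h2 : In (N + 1) β = In N β + e ((N + 1) * β) := by
      unfold In
      rw [Finset.sum_Icc_succ_top (by omega)]
      push_cast
      rfl
    rw [h1, ih, la_step, h2]
    ring

private theorem la_kappa (β : ℝ) : ‖(∫ s in (-1 : ℝ)..0, e (s * β)) - 1‖ ≤ 2 * Real.pi * |β| := by
  have hc : Continuous fun t : ℝ => e (t * β) := by unfold e; fun_prop
  have h1 : (∫ s in (-1 : ℝ)..0, e (s * β)) - 1 = ∫ s in (-1 : ℝ)..0, (e (s * β) - 1) := by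
    rw [intervalIntegral.integral_sub (hc.intervalIntegrable _ _) intervalIntegrable_const]
    simp
  rw [h1]
  have h2 := intervalIntegral.norm_integral_le_of_norm_le_const (a := (-1 : ℝ)) (b := 0)
    (f := fun s => e (s * β) - 1) (C := 2 * Real.pi * |β|) (fun s hs => by
      rw [Set.uIoc_of_le (by norm_num)] at hs
      refine (norm_e_sub_one_le _).trans ?_
      have h3 : |s * β| ≤ |β| := by
        rw [abs_mul]
        have : |s| ≤ 1 := by rw [abs_le]; exact ⟨by linarith [hs.1], by linarith [hs.2]⟩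
        calc |s| * |β| ≤ 1 * |β| := by gcongr
          _ = |β| := one_mul _
      have hπ := Real.pi_pos
      gcongr)
  refine h2.trans (le_of_eq ?_)
  norm_num

private theorem la_In_inv (N : ℕ) (β : ℝ) (h0 : 0 < |β|) (h : |β| ≤ 1 / 2) :
    ‖In N β‖ ≤ 1 / (2 * |β|) := by
  have h1 : In N β = e β * ∑ j ∈ range N, e (j * β) := by
    unfold In
    rw [mul_sum, Finset.range_eq_Ico, Finset.sum_Ico_eq_sum_range, Nat.sub_zero]
    have h2 : Icc 1 N = Ico 1 (N + 1) := by ext x; simp only [mem_Icc, mem_Ico]; omega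
    rw [h2, Finset.sum_Ico_eq_sum_range, Nat.add_sub_cancel]
    refine sum_congr rfl fun k _ => ?_
    rw [← e_add]
    congr 1
    push_cast
    ring
  rw [h1, norm_mul, norm_e, one_mul]
  exact geom_bound h0 h N

private theorem la_diff (X : ℝ) (hX : 1 ≤ X) (β : ℝ) (h : |β| ≤ 1 / 2) :
    ‖HC.Ic X β - In ⌊X⌋₊ β‖ ≤ 5 := by
  have hc : Continuous fun t : ℝ => e (t * β) := by unfold e; fun_prop
  set N := ⌊X⌋₊ with hN
  have hNX : (N : ℝ) ≤ X := Nat.floor_le (by linarith)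
  have hXN : X < N + 1 := Nat.lt_floor_add_one X
  have h1 : HC.Ic X β = HC.Ic N β + ∫ t in (N : ℝ)..X, e (t * β) := by
    unfold HC.Ic
    rw [intervalIntegral.integral_add_adjacent_intervals (hc.intervalIntegrable _ _)
      (hc.intervalIntegrable _ _)]
  have h2 : ‖∫ t in (N : ℝ)..X, e (t * β)‖ ≤ 1 := by
    refine (intervalIntegral.norm_integral_le_of_norm_le_const (C := 1) fun t _ => ?_).trans ?_
    · rw [norm_e]
    · rw [one_mul, abs_of_nonneg (by linarith)]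
      linarith
  have h3 : ‖HC.Ic N β - In N β‖ ≤ 4 := by
    rw [la_Ic_nat]
    have e1 : In N β * (∫ s in (-1 : ℝ)..0, e (s * β)) - In N β =
        In N β * ((∫ s in (-1 : ℝ)..0, e (s * β)) - 1) := by ring
    rw [e1, norm_mul]
    have hk := la_kappa β
    have hπ := Real.pi_lt_four
    have hπ0 := Real.pi_pos
    rcases (abs_nonneg β).eq_or_lt with h0 | h0
    · rw [← h0, mul_zero] at hk
      have : ‖(∫ s in (-1 : ℝ)..0, e (s * β)) - 1‖ = 0 := le_antisymm hk (norm_nonneg _)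
      rw [this, mul_zero]
      norm_num
    · have hI := la_In_inv N β h0 h
      calc ‖In N β‖ * ‖(∫ s in (-1 : ℝ)..0, e (s * β)) - 1‖
          ≤ 1 / (2 * |β|) * (2 * Real.pi * |β|) := by gcongr
        _ = Real.pi := by field_simp
        _ ≤ 4 := hπ.le
  rw [h1]
  have e2 : HC.Ic N β + (∫ t in (N : ℝ)..X, e (t * β)) - In N β =
      (HC.Ic N β - In N β) + ∫ t in (N : ℝ)..X, e (t * β) := by ring
  rw [e2]
  refine (norm_add_le _ _).trans ?_
  linarith

/-! ### The remainder -/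

/-- the exponential sum of the remainder -/
private noncomputable def laD (N : ℕ) (t : ℝ) : ℂ :=
  ∑ n ∈ Icc 1 N, ((Λ n - aS N n : ℝ) : ℂ) * e (n * t)

private theorem la_D_cont (N : ℕ) : Continuous (laD N) := by
  unfold laD e
  fun_prop

private theorem la_D_per (N : ℕ) (t : ℝ) : laD N (t + 1) = laD N t := by
  unfold laD
  refine sum_congr rfl fun n _ => ?_
  have : e (n * (t + 1)) = e (n * t) := by
    rw [mul_add, mul_one, e_add]
    have h := e_int (n : ℤ)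
    rw [Int.cast_natCast] at h
    rw [h, mul_one]
  rw [this]

private theorem la_S (N : ℕ) (t : ℝ) : HC.S HC.Lam N t = Ps N t + laD N t := by
  unfold HC.S Ps Bs laD
  rw [← sum_add_distrib]
  refine sum_congr rfl fun n _ => ?_
  push_cast
  ring

private theorem la_D_int : ∃ C : ℝ, 0 < C ∧ ∀ N : ℕ, 2 ≤ N →
    ∫ t in (0 : ℝ)..1, ‖laD N t‖ ^ 2 ≤ C * Real.sqrt N * (1 + Real.log N) ^ 3 := by
  obtain ⟨C, hC, hCN⟩ := rem_sum_pr
  refine ⟨C, hC, fun N hN => ?_⟩
  obtain ⟨h1, h2⟩ := hCN N hN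
  have h3 := HC.par_parseval (fun n => ((Λ n - aS N n : ℝ) : ℂ)) N
  have hN1 : (1 : ℝ) ≤ N := by exact_mod_cast (by omega : 1 ≤ N)
  have hl : 0 ≤ Real.log N := Real.log_nonneg hN1
  unfold laD
  rw [h3]
  calc ∑ n ∈ Icc 1 N, ‖((Λ n - aS N n : ℝ) : ℂ)‖ ^ 2
      ≤ ∑ n ∈ Icc 1 N, (1 + Real.log N) * (Λ n - aS N n) := by
        refine sum_le_sum fun n hn => ?_
        rw [mem_Icc] at hn
        rw [Complex.norm_real, Real.norm_eq_abs, sq_abs, sq]
        have h4 : 0 ≤ Λ n - aS N n := by linarith [h1 n]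
        have h5 : Λ n - aS N n ≤ 1 + Real.log N := by
          have h6 : Λ n ≤ Real.log n := ArithmeticFunction.vonMangoldt_le_log
          have h7 : Real.log n ≤ Real.log N :=
            Real.log_le_log (by exact_mod_cast hn.1) (by exact_mod_cast hn.2)
          have h8 : 0 ≤ aS N n := by
            unfold aS
            split_ifs
            · exact Real.log_nonneg (by exact_mod_cast hn.1)
            · exact le_rfl
          linarith
        exact mul_le_mul_of_nonneg_right h5 h4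
    _ = (1 + Real.log N) * ∑ n ∈ Icc 1 N, (Λ n - aS N n) := by rw [mul_sum]
    _ ≤ (1 + Real.log N) * (C * Real.sqrt N * (1 + Real.log N) ^ 2) := by gcongr
    _ = C * Real.sqrt N * (1 + Real.log N) ^ 3 := by ring

private theorem la_mr (r : ℕ) : ∑ _c ∈ Cd r, mr r ^ 2 ≤ 1 := by
  rw [sum_const, card_Cd, nsmul_eq_mul]
  unfold mr
  rcases Nat.eq_zero_or_pos (Nat.totient r) with h | h
  · rw [h]; simp
  · have hp : (1 : ℝ) ≤ Nat.totient r := by exact_mod_cast h
    have h1 : (((μ r : ℤ) : ℝ)) ^ 2 ≤ 1 := by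
      have h2 : |(μ r : ℤ)| ≤ 1 := ArithmeticFunction.abs_moebius_le_one
      have h3 : |((μ r : ℤ) : ℝ)| ≤ 1 := by exact_mod_cast h2
      rw [← sq_abs]
      exact pow_le_one₀ (abs_nonneg _) h3
    rw [div_pow]
    calc (Nat.totient r : ℝ) * ((((μ r : ℤ) : ℝ)) ^ 2 / (Nat.totient r : ℝ) ^ 2)
        = (((μ r : ℤ) : ℝ)) ^ 2 / (Nat.totient r : ℝ) := by field_simp
      _ ≤ 1 / (Nat.totient r : ℝ) := by gcongr
      _ ≤ 1 := by rw [div_le_one (by linarith)]; exact hp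

private theorem la_three (x u v : ℂ) : ‖x + u + v‖ ^ 2 ≤ 2 * ‖x‖ ^ 2 + 4 * ‖u‖ ^ 2 + 4 * ‖v‖ ^ 2 := by
  have h1 : ‖x + u + v‖ ≤ ‖x‖ + (‖u‖ + ‖v‖) := by
    have := norm_add₃_le (a := x) (b := u) (c := v)
    linarith
  have h2 : ‖x + u + v‖ ^ 2 ≤ (‖x‖ + (‖u‖ + ‖v‖)) ^ 2 := by gcongr
  nlinarith [sq_nonneg (‖x‖ - (‖u‖ + ‖v‖)), sq_nonneg (‖u‖ - ‖v‖)]

private theorem la_EQ (X : ℝ) (hX : 1 ≤ X) (q : ℕ) (β : ℝ) (h : |β| ≤ 1 / 2) :
    MF.EQ X q β ≤ 2 * EM ⌊X⌋₊ q β + 4 * MF.CS (fun t => ‖laD ⌊X⌋₊ t‖ ^ 2) q β + 100 := by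
  unfold MF.EQ EM MF.CS
  have hd := la_diff X hX β h
  have h1 : ∀ c ∈ Cd q,
      ‖HC.S HC.Lam ⌊X⌋₊ ((c : ℝ) / q + β) -
        ((μ q : ℝ) / (Nat.totient q : ℝ) : ℝ) * HC.Ic X β‖ ^ 2 ≤
      2 * ‖Ps ⌊X⌋₊ (c / q + β) - ((mr q : ℝ) : ℂ) * In ⌊X⌋₊ β‖ ^ 2 +
        4 * ‖laD ⌊X⌋₊ ((c : ℝ) / q + β)‖ ^ 2 + 100 * mr q ^ 2 := by
    intro c _
    have e1 : HC.S HC.Lam ⌊X⌋₊ ((c : ℝ) / q + β) -
        ((μ q : ℝ) / (Nat.totient q : ℝ) : ℝ) * HC.Ic X β =
        (Ps ⌊X⌋₊ (c / q + β) - ((mr q : ℝ) : ℂ) * In ⌊X⌋₊ β) + laD ⌊X⌋₊ ((c : ℝ) / q + β) +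
          (-((mr q : ℝ) : ℂ) * (HC.Ic X β - In ⌊X⌋₊ β)) := by
      rw [la_S]
      have : (((μ q : ℝ) / (Nat.totient q : ℝ) : ℝ) : ℂ) = ((mr q : ℝ) : ℂ) := rfl
      rw [this]
      ring
    rw [e1]
    refine (la_three _ _ _).trans ?_
    have h2 : ‖-((mr q : ℝ) : ℂ) * (HC.Ic X β - In ⌊X⌋₊ β)‖ ^ 2 ≤ mr q ^ 2 * 25 := by
      rw [norm_mul, mul_pow, norm_neg, Complex.norm_real, Real.norm_eq_abs, sq_abs]
      have : ‖HC.Ic X β - In ⌊X⌋₊ β‖ ^ 2 ≤ 5 ^ 2 := by gcongr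
      nlinarith [sq_nonneg (mr q)]
    linarith
  refine (sum_le_sum h1).trans ?_
  rw [sum_add_distrib, sum_add_distrib, ← mul_sum, ← mul_sum, ← mul_sum]
  have := la_mr q
  linarith

private theorem la_asym (η C : ℝ) (hη : 0 < η) (hC : 0 < C) : ∃ X₀ : ℝ, ∀ X ≥ X₀,
    8 ≤ X ∧ 2 ≤ Real.log X ∧ 4 * (C * Real.sqrt X * (1 + Real.log X) ^ 3) + 100 ≤ η * X := by
  have h1 : ∀ᶠ X : ℝ in Filter.atTop, ‖Real.log X ^ (3 : ℝ)‖ ≤
      (η / (64 * C)) * ‖X ^ (1 / 2 : ℝ)‖ :=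
    (isLittleO_log_rpow_rpow_atTop (3 : ℝ) (by norm_num : (0 : ℝ) < 1 / 2)).def (by positivity)
  have h2 : ∀ᶠ X : ℝ in Filter.atTop, 200 / η ≤ X := Filter.eventually_ge_atTop _
  have h3 : ∀ᶠ X : ℝ in Filter.atTop, Real.exp 2 ≤ X := Filter.eventually_ge_atTop _
  have h4 : ∀ᶠ X : ℝ in Filter.atTop, 8 ≤ X := Filter.eventually_ge_atTop _
  obtain ⟨X₀, hX₀⟩ := Filter.eventually_atTop.1 (h1.and (h2.and (h3.and h4)))
  refine ⟨X₀, fun X hX => ?_⟩
  obtain ⟨k1, k2, k3, k4⟩ := hX₀ X hX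
  have hX0 : 0 < X := by linarith
  have hl : 2 ≤ Real.log X := by
    rw [Real.le_log_iff_exp_le hX0]
    exact k3
  refine ⟨k4, hl, ?_⟩
  have e1 : ‖Real.log X ^ (3 : ℝ)‖ = Real.log X ^ 3 := by
    rw [Real.norm_of_nonneg (by positivity)]
    exact_mod_cast Real.rpow_natCast (Real.log X) 3
  have e2 : ‖X ^ (1 / 2 : ℝ)‖ = Real.sqrt X := by
    rw [Real.norm_of_nonneg (by positivity), Real.sqrt_eq_rpow]
  rw [e1, e2] at k1
  have k5 : (1 + Real.log X) ^ 3 ≤ 8 * Real.log X ^ 3 := by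
    have : 1 + Real.log X ≤ 2 * Real.log X := by linarith
    calc (1 + Real.log X) ^ 3 ≤ (2 * Real.log X) ^ 3 := by gcongr
      _ = 8 * Real.log X ^ 3 := by ring
  have hs : Real.sqrt X * Real.sqrt X = X := Real.mul_self_sqrt hX0.le
  have k6 : 4 * (C * Real.sqrt X * (1 + Real.log X) ^ 3) ≤ η / 2 * X := by
    calc 4 * (C * Real.sqrt X * (1 + Real.log X) ^ 3)
        ≤ 4 * (C * Real.sqrt X * (8 * (η / (64 * C) * Real.sqrt X))) := by gcongr; linarith
      _ = η / 2 * (Real.sqrt X * Real.sqrt X) := by field_simp; ring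
      _ = η / 2 * X := by rw [hs]
  have k7 : 100 ≤ η / 2 * X := by
    rw [div_le_iff₀ hη] at k2
    linarith
  linarith

theorem LA_pr : LA := by
  intro η hη
  obtain ⟨C, hC, hCN⟩ := la_D_int
  obtain ⟨X₀, hX₀⟩ := la_asym η C hη hC
  refine ⟨X₀, fun X Y hX hY1 hYX => ?_⟩
  obtain ⟨hX8, hlog, hasym⟩ := hX₀ X hX
  have hXpos : 0 < X := by linarith
  have hYpos : (0 : ℝ) < Y := by
    have : 0 < Real.sqrt X * Real.log X ^ 12 := by
      have := Real.sqrt_pos.2 hXpos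
      positivity
    linarith
  set N := ⌊X⌋₊ with hN
  have hN2 : 2 ≤ N := Nat.le_floor (by push_cast; linarith)
  have hNX : (N : ℝ) ≤ X := Nat.floor_le hXpos.le
  have hN1 : (1 : ℝ) ≤ N := by exact_mod_cast (by omega : 1 ≤ N)
  have hL8 : (2 : ℝ) ≤ Real.log X ^ 8 := by
    calc (2 : ℝ) ≤ 2 ^ 8 := by norm_num
      _ ≤ Real.log X ^ 8 := by gcongr
  have hXY : 1 ≤ X / Y := by rw [le_div_iff₀ hYpos]; linarith
  set R := MF.RR X Y with hR
  have hR2 : 2 ≤ R := by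
    rw [hR]
    unfold MF.RR
    refine Nat.le_floor ?_
    push_cast
    nlinarith
  have hRle : (R : ℝ) ≤ X / Y * Real.log X ^ 8 := Nat.floor_le (by positivity)
  have hR2r : (2 : ℝ) ≤ R := by exact_mod_cast hR2
  have hw0 : ∀ q ∈ Icc 1 R, 0 ≤ MF.wd X Y q := by
    intro q _
    unfold MF.wd
    positivity
  have hw1 : ∀ q ∈ Icc 1 R, 2 * MF.wd X Y q * q * R ≤ 1 := by
    intro q hq
    have hq1 : (1 : ℝ) ≤ q := by exact_mod_cast (mem_Icc.1 hq).1
    have hq0 : (0 : ℝ) < q := by linarith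
    unfold MF.wd
    have e1 : 2 * ((Y : ℝ) / (2 * q * (X * Real.log X ^ 8))) * q * R =
        Y * R / (X * Real.log X ^ 8) := by
      field_simp
    rw [e1, div_le_one (by positivity)]
    calc (Y : ℝ) * R ≤ Y * (X / Y * Real.log X ^ 8) := by gcongr
      _ = X * Real.log X ^ 8 := by field_simp
  have hw2 : ∀ q ∈ Icc 1 R, MF.wd X Y q * (2 * R) ≤ 1 := by
    intro q hq
    have hq1 : (1 : ℝ) ≤ q := by exact_mod_cast (mem_Icc.1 hq).1
    have h0 := hw0 q hq
    have h1 := hw1 q hq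
    have : 2 * MF.wd X Y q * 1 * R ≤ 2 * MF.wd X Y q * q * R := by gcongr
    linarith
  have hDc : Continuous fun t => ‖laD N t‖ ^ 2 := ((la_D_cont N).norm).pow 2
  -- one denominator
  have h1 : ∀ q ∈ Icc 1 R, ∫ β in (-(MF.wd X Y q))..(MF.wd X Y q), HC.kk (q * Y * |β|) * MF.EQ X q β ≤
      2 * (∫ β in (-(MF.wd X Y q))..(MF.wd X Y q), HC.kk (q * Y * |β|) * EM N q β) +
        (4 * (∫ β in (-(MF.wd X Y q))..(MF.wd X Y q), MF.CS (fun t => ‖laD N t‖ ^ 2) q β) +
          200 * MF.wd X Y q) := by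
    intro q hq
    set w := MF.wd X Y q with hw
    have hwn : 0 ≤ w := hw0 q hq
    have hwh : w ≤ 1 / 2 := by
      have := hw2 q hq
      rw [← hw] at this
      nlinarith
    have hcs := MF.g8_cs_cont hDc q
    have hcs0 : ∀ β, 0 ≤ MF.CS (fun t => ‖laD N t‖ ^ 2) q β := fun β =>
      MF.g8_cs_nonneg (fun _ => sq_nonneg _) q β
    have hint1 := MF.x3_ii (q * Y) (by positivity) (MF.x3_EQ_cont X q) (-w) w
    have hint2 := MF.x3_ii (q * Y) (by positivity) (la_EM_cont N q) (-w) w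
    have hint3 : IntervalIntegrable (fun β => 4 * MF.CS (fun t => ‖laD N t‖ ^ 2) q β + 100)
        MeasureTheory.volume (-w) w :=
      ((hcs.const_mul 4).add continuous_const).intervalIntegrable _ _
    calc ∫ β in (-w)..w, HC.kk (q * Y * |β|) * MF.EQ X q β
        ≤ ∫ β in (-w)..w, (2 * (HC.kk (q * Y * |β|) * EM N q β) +
            (4 * MF.CS (fun t => ‖laD N t‖ ^ 2) q β + 100)) := by
          refine intervalIntegral.integral_mono_on (by linarith) hint1
            ((hint2.const_mul 2).add hint3) fun β hβ => ?_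
          have hb : |β| ≤ 1 / 2 := by
            rw [abs_le]
            exact ⟨by linarith [hβ.1], by linarith [hβ.2]⟩
          have h3 := la_EQ X (by linarith) q β hb
          obtain ⟨k1, k2, -⟩ := MF.kk_basic_pr (q * Y * |β|) (by positivity)
          have h4 := hcs0 β
          rw [← hN] at h3
          calc HC.kk (q * Y * |β|) * MF.EQ X q β
              ≤ HC.kk (q * Y * |β|) * (2 * EM N q β +
                4 * MF.CS (fun t => ‖laD N t‖ ^ 2) q β + 100) := by gcongr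
            _ = 2 * (HC.kk (q * Y * |β|) * EM N q β) +
                HC.kk (q * Y * |β|) * (4 * MF.CS (fun t => ‖laD N t‖ ^ 2) q β + 100) := by ring
            _ ≤ 2 * (HC.kk (q * Y * |β|) * EM N q β) +
                1 * (4 * MF.CS (fun t => ‖laD N t‖ ^ 2) q β + 100) := by gcongr
            _ = _ := by rw [one_mul]
      _ = 2 * (∫ β in (-w)..w, HC.kk (q * Y * |β|) * EM N q β) +
          (4 * (∫ β in (-w)..w, MF.CS (fun t => ‖laD N t‖ ^ 2) q β) + 200 * w) := by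
          rw [intervalIntegral.integral_add (hint2.const_mul 2) hint3,
            intervalIntegral.integral_const_mul,
            intervalIntegral.integral_add ((hcs.const_mul 4).intervalIntegrable _ _)
              intervalIntegrable_const, intervalIntegral.integral_const_mul,
            intervalIntegral.integral_const, smul_eq_mul]
          ring
  have h2 : MF.DD X Y ≤ 2 * DA N Y R (MF.wd X Y) +
      Y * (4 * (∑ q ∈ Icc 1 R, ∫ β in (-(MF.wd X Y q))..(MF.wd X Y q),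
        MF.CS (fun t => ‖laD N t‖ ^ 2) q β) + 200 * ∑ q ∈ Icc 1 R, MF.wd X Y q) := by
    unfold MF.DD DA
    rw [← hR]
    calc (Y : ℝ) * ∑ q ∈ Icc 1 R, ∫ β in (-(MF.wd X Y q))..(MF.wd X Y q),
          HC.kk (q * Y * |β|) * MF.EQ X q β
        ≤ Y * ∑ q ∈ Icc 1 R,
          (2 * (∫ β in (-(MF.wd X Y q))..(MF.wd X Y q), HC.kk (q * Y * |β|) * EM N q β) +
          (4 * (∫ β in (-(MF.wd X Y q))..(MF.wd X Y q), MF.CS (fun t => ‖laD N t‖ ^ 2) q β) +
            200 * MF.wd X Y q)) := mul_le_mul_of_nonneg_left (sum_le_sum h1) hYpos.le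
      _ = _ := by
          rw [sum_add_distrib, sum_add_distrib, ← mul_sum, ← mul_sum, ← mul_sum]
          ring
  have h3 := MF.arc_le_pr (fun t => ‖laD N t‖ ^ 2) hDc (fun t => by
      show ‖laD N (t + 1)‖ ^ 2 = ‖laD N t‖ ^ 2
      rw [la_D_per]) (fun _ => sq_nonneg _) R hR2 (MF.wd X Y) hw0 hw1
  have h4 := hCN N hN2
  have h5 : C * Real.sqrt N * (1 + Real.log N) ^ 3 ≤ C * Real.sqrt X * (1 + Real.log X) ^ 3 := by
    have : Real.log N ≤ Real.log X := Real.log_le_log (by linarith) hNX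
    have : 0 ≤ Real.log N := Real.log_nonneg hN1
    gcongr
  have h6 : ∑ q ∈ Icc 1 R, MF.wd X Y q ≤ 1 / 2 := by
    have : ∀ q ∈ Icc 1 R, MF.wd X Y q ≤ 1 / (2 * R) := fun q hq => by
      rw [le_div_iff₀ (by positivity)]
      exact hw2 q hq
    refine (sum_le_sum this).trans (le_of_eq ?_)
    rw [sum_const, Nat.card_Icc, Nat.add_sub_cancel, nsmul_eq_mul]
    field_simp
  have h7 : 4 * (∑ q ∈ Icc 1 R, ∫ β in (-(MF.wd X Y q))..(MF.wd X Y q),
        MF.CS (fun t => ‖laD N t‖ ^ 2) q β) + 200 * ∑ q ∈ Icc 1 R, MF.wd X Y q ≤ η * X := by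
    have h8 := h3.trans (h4.trans h5)
    linarith
  have h8 := mul_le_mul_of_nonneg_left h7 hYpos.le
  calc MF.DD X Y ≤ _ := h2
    _ ≤ 2 * DA N Y R (MF.wd X Y) + Y * (η * X) := by linarith
    _ = 2 * DA N Y R (MF.wd X Y) + η * X * Y := by ring

end Pool.Agent.LHM
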