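import Pool.Agent.Lib_helper59.LHM.Wanted
import Pool.Agent.Lib_helper59.MFF.G4b
import Pool.Agent.Lib_helper59.MFF.G8
import Pool.Agent.Lib_helper59.MFF.X3
import Pool.Agent.Lib_helper92.HCF.PAR

/-!
# LHM, block LB: the part `|β| > b`
-/

set_option autoImplicit false

namespace Pool.Agent.LHM

open Finset Pool.Agent.Var35 Pool.Agent.Var73 Pool.Agent.PV Pool.Agent.FGP
open scoped ArithmeticFunction ArithmeticFunction.Moebius

private theorem lb_Ps_cont (N : ℕ) : Continuous (Ps N) := by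
  unfold Ps Bs e
  fun_prop

private theorem lb_In_cont (N : ℕ) : Continuous (In N) := by
  unfold In e
  fun_prop

private theorem lb_EM_cont (N r : ℕ) : Continuous (EM N r) := by
  unfold EM
  refine continuous_finsetSum _ fun c _ => ?_
  refine ((Continuous.sub ?_ ?_).norm).pow 2
  · exact (lb_Ps_cont N).comp (continuous_const.add continuous_id)
  · exact continuous_const.mul (lb_In_cont N)

private theorem lb_EM_nonneg (N r : ℕ) (β : ℝ) : 0 ≤ EM N r β :=
  sum_nonneg fun _ _ => sq_nonneg _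

private theorem lb_split {g h : ℝ → ℝ} (hg : ∀ a b, IntervalIntegrable g MeasureTheory.volume a b)
    (hg0 : ∀ x, 0 ≤ g x) (hh : Continuous h) (hh0 : ∀ x, 0 ≤ h x) {b w κ : ℝ} (hb : 0 < b)
    (hw : 0 ≤ w) (hκ : 0 ≤ κ) (hgh : ∀ x, b ≤ |x| → g x ≤ κ * h x) :
    ∫ x in (-w)..w, g x ≤ (∫ x in (-b)..b, g x) + κ * ∫ x in (-w)..w, h x := by
  have hi : ∀ a b, IntervalIntegrable h MeasureTheory.volume a b :=
    fun a b => hh.intervalIntegrable a b
  by_cases hwb : w ≤ b
  · have h1 : ∫ x in (-w)..w, g x ≤ ∫ x in (-b)..b, g x :=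
      intervalIntegral.integral_mono_interval (by linarith) (by linarith) hwb
        (Filter.Eventually.of_forall hg0) (hg _ _)
    have h2 : 0 ≤ ∫ x in (-w)..w, h x :=
      intervalIntegral.integral_nonneg (by linarith) fun x _ => hh0 x
    have h3 := mul_nonneg hκ h2
    linarith
  · push Not at hwb
    have e1 : ∫ x in (-w)..w, g x =
        (∫ x in (-w)..(-b), g x) + (∫ x in (-b)..b, g x) + ∫ x in b..w, g x := by
      rw [intervalIntegral.integral_add_adjacent_intervals (hg _ _) (hg _ _),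
        intervalIntegral.integral_add_adjacent_intervals (hg _ _) (hg _ _)]
    have e2 : ∫ x in (-w)..w, h x =
        (∫ x in (-w)..(-b), h x) + (∫ x in (-b)..b, h x) + ∫ x in b..w, h x := by
      rw [intervalIntegral.integral_add_adjacent_intervals (hi _ _) (hi _ _),
        intervalIntegral.integral_add_adjacent_intervals (hi _ _) (hi _ _)]
    have h1 : ∫ x in (-w)..(-b), g x ≤ κ * ∫ x in (-w)..(-b), h x := by
      rw [← intervalIntegral.integral_const_mul]
      refine intervalIntegral.integral_mono_on (by linarith) (hg _ _) ((hi _ _).const_mul _)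
        fun x hx => hgh x ?_
      have := hx.2
      rw [abs_of_nonpos (by linarith)]
      linarith
    have h2 : ∫ x in b..w, g x ≤ κ * ∫ x in b..w, h x := by
      rw [← intervalIntegral.integral_const_mul]
      refine intervalIntegral.integral_mono_on (by linarith) (hg _ _) ((hi _ _).const_mul _)
        fun x hx => hgh x ?_
      have := hx.1
      rw [abs_of_nonneg (by linarith)]
      linarith
    have h3 : 0 ≤ κ * ∫ x in (-b)..b, h x :=
      mul_nonneg hκ (intervalIntegral.integral_nonneg (by linarith) fun x _ => hh0 x)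
    rw [e1, e2, mul_add, mul_add]
    linarith

private theorem lb_per (N : ℕ) (c : ℕ → ℂ) (t : ℝ) :
    (∑ n ∈ Icc 1 N, c n * e (n * (t + 1))) = ∑ n ∈ Icc 1 N, c n * e (n * t) := by
  refine sum_congr rfl fun n _ => ?_
  have : e (n * (t + 1)) = e (n * t) := by
    rw [mul_add, mul_one, e_add]
    have h := e_int (n : ℤ)
    rw [Int.cast_natCast] at h
    rw [h, mul_one]
  rw [this]

private theorem lb_Fp_int (N : ℕ) : ∫ t in (0 : ℝ)..1, ‖Ps N t‖ ^ 2 = ∑ n ∈ Icc 1 N, aS N n ^ 2 := by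
  have h := HC.par_parseval (fun n => (aS N n : ℂ)) N
  unfold Ps Bs
  rw [h]
  refine sum_congr rfl fun n _ => ?_
  rw [Complex.norm_real, Real.norm_eq_abs, sq_abs]

private theorem lb_aS (N n : ℕ) (hn : n ∈ Icc 1 N) : aS N n ^ 2 ≤ Real.log N ^ 2 := by
  rw [mem_Icc] at hn
  have h1 : (1 : ℝ) ≤ n := by exact_mod_cast hn.1
  have h2 : (n : ℝ) ≤ N := by exact_mod_cast hn.2
  have h3 : 0 ≤ Real.log n := Real.log_nonneg h1
  have h4 : Real.log n ≤ Real.log N := Real.log_le_log (by linarith) h2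
  unfold aS
  split_ifs
  · exact pow_le_pow_left₀ h3 h4 2
  · rw [zero_pow two_ne_zero]
    positivity

private theorem lb_In_int (N : ℕ) (w : ℝ) (hw : 0 ≤ w) (hw' : w ≤ 1 / 2) :
    ∫ β in (-w)..w, ‖In N β‖ ^ 2 ≤ N := by
  have hc : Continuous fun β => ‖In N β‖ ^ 2 := ((lb_In_cont N).norm).pow 2
  have h1 : ∫ β in (-w)..w, ‖In N β‖ ^ 2 ≤ ∫ β in (-(1 / 2) : ℝ)..(1 / 2), ‖In N β‖ ^ 2 :=
    intervalIntegral.integral_mono_interval (by linarith) (by linarith) hw'
      (Filter.Eventually.of_forall fun β => sq_nonneg _) (hc.intervalIntegrable _ _)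
  have hper : Function.Periodic (fun β => ‖In N β‖ ^ 2) 1 := by
    intro β
    show ‖In N (β + 1)‖ ^ 2 = ‖In N β‖ ^ 2
    unfold In
    have := lb_per N (fun _ => 1) β
    simp only [one_mul] at this
    rw [this]
  have h2 := hper.intervalIntegral_add_eq (-(1 / 2)) 0
  have h3 : (-(1 / 2) + 1 : ℝ) = 1 / 2 := by norm_num
  rw [h3, zero_add] at h2
  have h4 : ∫ β in (0 : ℝ)..1, ‖In N β‖ ^ 2 = N := by
    have h := HC.par_parseval (fun _ => 1) N
    simp only [one_mul, norm_one, one_pow, sum_const, Nat.card_Icc, Nat.add_sub_cancel,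
      nsmul_eq_mul, mul_one] at h
    exact h
  linarith [h1, h2.le, h2.ge, h4.le]

private theorem lb_mr (r : ℕ) : ∑ _c ∈ Cd r, mr r ^ 2 ≤ 1 := by
  rw [sum_const, card_Cd, nsmul_eq_mul]
  unfold mr
  rcases Nat.eq_zero_or_pos (Nat.totient r) with h | h
  · rw [h]; simp
  · have hp : (1 : ℝ) ≤ Nat.totient r := by exact_mod_cast h
    have h1 : (((μ r : ℤ) : ℝ)) ^ 2 ≤ 1 := by
      have h2 : |(μ r : ℤ)| ≤ 1 := ArithmeticFunction.abs_moebius_le_one
      have h3 : |((μ r : ℤ) : ℝ)| ≤ 1 := by exact_mod_cast h2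
      rw [← sq_abs]
      exact pow_le_one₀ (abs_nonneg _) h3
    rw [div_pow]
    calc (Nat.totient r : ℝ) * ((((μ r : ℤ) : ℝ)) ^ 2 / (Nat.totient r : ℝ) ^ 2)
        = (((μ r : ℤ) : ℝ)) ^ 2 / (Nat.totient r : ℝ) := by field_simp
      _ ≤ 1 / (Nat.totient r : ℝ) := by gcongr
      _ ≤ 1 := by rw [div_le_one (by linarith)]; exact hp

private theorem lb_EM_le (N r : ℕ) (β : ℝ) :
    EM N r β ≤ 2 * MF.CS (fun t => ‖Ps N t‖ ^ 2) r β + 2 * ‖In N β‖ ^ 2 := by
  unfold EM MF.CS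
  have h1 : ∀ c ∈ Cd r, ‖Ps N (c / r + β) - ((mr r : ℝ) : ℂ) * In N β‖ ^ 2 ≤
      2 * ‖Ps N (c / r + β)‖ ^ 2 + 2 * (mr r ^ 2 * ‖In N β‖ ^ 2) := by
    intro c _
    have h2 := norm_sub_le (Ps N (c / r + β)) (((mr r : ℝ) : ℂ) * In N β)
    have h3 : ‖((mr r : ℝ) : ℂ) * In N β‖ ^ 2 = mr r ^ 2 * ‖In N β‖ ^ 2 := by
      rw [norm_mul, mul_pow, Complex.norm_real, Real.norm_eq_abs, sq_abs]
    rw [← h3]
    have h4 := norm_nonneg (Ps N (c / r + β) - ((mr r : ℝ) : ℂ) * In N β)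
    have h5 := norm_nonneg (Ps N (c / r + β))
    have h6 := norm_nonneg (((mr r : ℝ) : ℂ) * In N β)
    nlinarith [sq_nonneg (‖Ps N (c / r + β)‖ - ‖((mr r : ℝ) : ℂ) * In N β‖)]
  refine (sum_le_sum h1).trans ?_
  rw [sum_add_distrib, ← mul_sum, ← mul_sum, ← sum_mul]
  have h2 : (∑ _c ∈ Cd r, mr r ^ 2) * ‖In N β‖ ^ 2 ≤ 1 * ‖In N β‖ ^ 2 :=
    mul_le_mul_of_nonneg_right (lb_mr r) (sq_nonneg _)
  linarith

theorem LB_pr : LB := by
  intro c₂ hc₂
  refine ⟨4 / c₂, by positivity, 1, fun K hK0 N Y R hRg hY1 hYN hR2 hRK w hw => ?_⟩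
  have hK : 10 ≤ K := hRg.hK
  have hKr : (10 : ℝ) ≤ K := by exact_mod_cast hK
  have hN1 : 1 ≤ N := hY1.trans hYN
  have hNr : (1 : ℝ) ≤ N := by exact_mod_cast hN1
  have hYr : (1 : ℝ) ≤ Y := by exact_mod_cast hY1
  have hlog0 : 0 ≤ Real.log N := Real.log_nonneg hNr
  set b : ℝ := c₂ * K ^ 8 / N with hb
  have hb0 : 0 < b := by positivity
  -- the logarithm
  have hlog2 : Real.log N ^ 2 ≤ K := by
    by_cases h : Real.log N ≤ 1
    · calc Real.log N ^ 2 ≤ 1 := pow_le_one₀ hlog0 h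
        _ ≤ K := by linarith
    · push Not at h
      calc Real.log N ^ 2 ≤ Real.log N ^ 100 := pow_le_pow_right₀ h.le (by norm_num)
        _ ≤ K := hRg.hL
  have hPc : Continuous fun t => ‖Ps N t‖ ^ 2 := ((lb_Ps_cont N).norm).pow 2
  have hPp : ∀ t, ‖Ps N (t + 1)‖ ^ 2 = ‖Ps N t‖ ^ 2 := by
    intro t
    unfold Ps Bs
    rw [lb_per]
  -- one denominator
  have h1 : ∀ r ∈ Icc 1 R, (Y : ℝ) * ∫ β in (-(w r))..(w r), HC.kk (r * Y * |β|) * EM N r β ≤
      Y * (∫ β in (-b)..b, HC.kk (r * Y * |β|) * EM N r β) +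
        1 / b * (2 * (∫ β in (-(w r))..(w r), MF.CS (fun t => ‖Ps N t‖ ^ 2) r β) + 2 * N) := by
    intro r hr
    have hr1 : (1 : ℝ) ≤ r := by exact_mod_cast (mem_Icc.1 hr).1
    have hR2r : (2 : ℝ) ≤ R := by exact_mod_cast hR2
    obtain ⟨hw0, hw1⟩ := hw r hr
    have hw2 : w r ≤ 1 / 2 := by
      have : 2 * w r * 1 * 2 ≤ 2 * w r * r * R := by gcongr
      linarith
    have hcs := MF.g8_cs_cont hPc r
    have h2 := lb_split (g := fun β => HC.kk (r * Y * |β|) * EM N r β) (h := EM N r)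
      (b := b) (w := w r) (κ := 1 / (r * Y * b))
      (fun a b => MF.x3_ii (r * Y) (by positivity) (lb_EM_cont N r) a b)
      (fun x => mul_nonneg (MF.kk_basic_pr _ (by positivity)).1 (lb_EM_nonneg N r x))
      (lb_EM_cont N r) (lb_EM_nonneg N r) hb0 hw0 (by positivity) (fun x hx => by
        have hx0 : 0 < |x| := hb0.trans_le hx
        have h3 := (MF.kk_basic_pr (r * Y * |x|) (by positivity)).2.2 (by positivity)
        have h4 : 1 / (r * Y * |x|) ≤ 1 / (r * Y * b) :=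
          one_div_le_one_div_of_le (by positivity) (by gcongr)
        exact mul_le_mul_of_nonneg_right (h3.trans h4) (lb_EM_nonneg N r x))
    have h3 : ∫ β in (-(w r))..(w r), EM N r β ≤
        2 * (∫ β in (-(w r))..(w r), MF.CS (fun t => ‖Ps N t‖ ^ 2) r β) + 2 * N := by
      have hcI : Continuous fun β => ‖In N β‖ ^ 2 := ((lb_In_cont N).norm).pow 2
      calc ∫ β in (-(w r))..(w r), EM N r β
          ≤ ∫ β in (-(w r))..(w r), (2 * MF.CS (fun t => ‖Ps N t‖ ^ 2) r β + 2 * ‖In N β‖ ^ 2) := by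
            refine intervalIntegral.integral_mono_on (by linarith)
              ((lb_EM_cont N r).intervalIntegrable _ _) ?_ fun β _ => lb_EM_le N r β
            exact ((hcs.const_mul 2).add (hcI.const_mul 2)).intervalIntegrable _ _
        _ = 2 * (∫ β in (-(w r))..(w r), MF.CS (fun t => ‖Ps N t‖ ^ 2) r β) +
            2 * ∫ β in (-(w r))..(w r), ‖In N β‖ ^ 2 := by
            rw [intervalIntegral.integral_add ((hcs.const_mul 2).intervalIntegrable _ _)
              ((hcI.const_mul 2).intervalIntegrable _ _), intervalIntegral.integral_const_mul,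
              intervalIntegral.integral_const_mul]
        _ ≤ _ := by
            have := lb_In_int N (w r) hw0 hw2
            linarith
    have h4 : 0 ≤ ∫ β in (-(w r))..(w r), EM N r β :=
      intervalIntegral.integral_nonneg (by linarith) fun x _ => lb_EM_nonneg N r x
    calc (Y : ℝ) * ∫ β in (-(w r))..(w r), HC.kk (r * Y * |β|) * EM N r β
        ≤ Y * ((∫ β in (-b)..b, HC.kk (r * Y * |β|) * EM N r β) +
            1 / (r * Y * b) * ∫ β in (-(w r))..(w r), EM N r β) := by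
          exact mul_le_mul_of_nonneg_left h2 (by positivity)
      _ = Y * (∫ β in (-b)..b, HC.kk (r * Y * |β|) * EM N r β) +
            (1 / r) * (1 / b * ∫ β in (-(w r))..(w r), EM N r β) := by
          field_simp
      _ ≤ Y * (∫ β in (-b)..b, HC.kk (r * Y * |β|) * EM N r β) +
            1 * (1 / b * ∫ β in (-(w r))..(w r), EM N r β) := by
          have : (1 : ℝ) / r ≤ 1 := by rw [div_le_one (by linarith)]; exact hr1
          gcongr
      _ ≤ _ := by
          rw [one_mul]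
          gcongr
  have h2 : DA N Y R w ≤ Y * (∑ r ∈ Icc 1 R, ∫ β in (-b)..b, HC.kk (r * Y * |β|) * EM N r β) +
      1 / b * (2 * ∑ r ∈ Icc 1 R, (∫ β in (-(w r))..(w r), MF.CS (fun t => ‖Ps N t‖ ^ 2) r β) +
        R * (2 * N)) := by
    unfold DA
    rw [mul_sum]
    refine (sum_le_sum h1).trans (le_of_eq ?_)
    rw [sum_add_distrib, ← mul_sum, ← mul_sum, sum_add_distrib, ← mul_sum, sum_const,
      Nat.card_Icc, Nat.add_sub_cancel, nsmul_eq_mul]
  have h3 := MF.arc_le_pr (fun t => ‖Ps N t‖ ^ 2) hPc hPp (fun _ => sq_nonneg _) R hR2 w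
    (fun q hq => (hw q hq).1) (fun q hq => (hw q hq).2)
  rw [lb_Fp_int] at h3
  have h4 : ∑ n ∈ Icc 1 N, aS N n ^ 2 ≤ N * K := by
    calc ∑ n ∈ Icc 1 N, aS N n ^ 2 ≤ ∑ _n ∈ Icc 1 N, Real.log N ^ 2 :=
          sum_le_sum fun n hn => lb_aS N n hn
      _ = N * Real.log N ^ 2 := by
          rw [sum_const, Nat.card_Icc, Nat.add_sub_cancel, nsmul_eq_mul]
      _ ≤ N * K := by gcongr
  have hRr : (R : ℝ) ≤ K := by exact_mod_cast hRK
  refine h2.trans ?_
  have h5 : 1 / b * (2 * ∑ r ∈ Icc 1 R,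
      (∫ β in (-(w r))..(w r), MF.CS (fun t => ‖Ps N t‖ ^ 2) r β) + R * (2 * N)) ≤
      1 / b * (4 * (N * K)) := by
    have : (R : ℝ) * (2 * N) ≤ K * (2 * N) := by gcongr
    have hb1 : (0 : ℝ) ≤ 1 / b := by positivity
    refine mul_le_mul_of_nonneg_left ?_ hb1
    nlinarith [h3, h4]
  have h6 : 1 / b * (4 * (N * K)) ≤ 4 / c₂ * (N : ℝ) ^ 2 / (K : ℝ) ^ 5 := by
    rw [hb]
    have e1 : 1 / (c₂ * (K : ℝ) ^ 8 / N) * (4 * (N * K)) = 4 / c₂ * (N : ℝ) ^ 2 / (K : ℝ) ^ 7 := by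
      field_simp
    rw [e1]
    have : (K : ℝ) ^ 5 ≤ (K : ℝ) ^ 7 := pow_le_pow_right₀ (by linarith) (by norm_num)
    gcongr
  linarith

end Pool.Agent.LHM
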