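import Pool.Agent.Lib_helper59.LHM.Wanted
import Pool.Agent.Lib_helper3.FGP.P07
import Pool.Agent.Lib_helper3.FGP.P07b
import Pool.Agent.Lib_helper59.MFF.G8

/-! LHM, block LC: decomposition into characters. -/

set_option autoImplicit false

namespace Pool.Agent.LHM

open Finset Pool.Agent.Var35 Pool.Agent.Var73 Pool.Agent.PV Pool.Agent.FGP
open scoped ArithmeticFunction ArithmeticFunction.Moebius

open MeasureTheory in
private theorem lc_ii (c : ℝ) (hc : 0 ≤ c) {g : ℝ → ℝ} (hg : Continuous g) (a b : ℝ) :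
    IntervalIntegrable (fun β => HC.kk (c * |β|) * g β) volume a b := by
  refine (hg.intervalIntegrable a b).mono_fun ?_ ?_
  · refine Measurable.aestronglyMeasurable ?_
    refine Measurable.mul ?_ hg.measurable
    refine MF.g8_kk_meas.comp ?_
    exact (measurable_const.mul (continuous_abs.measurable))
  · refine Filter.Eventually.of_forall fun β => ?_
    obtain ⟨h1, h2, -⟩ := MF.kk_basic_pr (c * |β|) (by positivity)
    simp only [norm_mul, Real.norm_eq_abs]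
    rw [abs_of_nonneg h1]
    exact mul_le_of_le_one_left (abs_nonneg _) h2

private theorem lc_iP (c : ℝ) (hc : 0 ≤ c) {P : ℝ → ℂ} (hP : Continuous P) (a b : ℝ) :
    IntervalIntegrable (fun β => HC.kk (c * |β|) * ‖P β‖ ^ 2) MeasureTheory.volume a b :=
  lc_ii c hc (hP.norm.pow 2) a b

private theorem lc_cont (N : ℕ) (a : ℕ → ℂ) :
    Continuous fun β : ℝ => ∑ n ∈ Icc 1 N, a n * e (n * β) := by
  unfold e
  fun_prop

private theorem lc_vh (N K : ℕ) : Continuous (vh N K) := by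
  unfold vh
  fun_prop

private theorem lc_Sz {q : ℕ} (ψ : DirichletCharacter ℂ q) (N : ℕ) : Continuous (Sz ψ N) :=
  lc_cont N _

private theorem lc_Jz {q : ℕ} (c : ℝ) (ψ : DirichletCharacter ℂ q) (N K : ℕ) :
    Continuous (Jz c ψ N K) :=
  lc_cont N _

private theorem lc_Ps (N : ℕ) : Continuous fun b => Ps N b - In N b := by
  have h1 : Continuous (Ps N) := by
    unfold Ps Bs
    exact lc_cont N _
  have h2 : Continuous (In N) := by
    have := lc_cont N (fun _ => 1)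
    simp only [one_mul] at this
    exact this
  exact h1.sub h2

/-- the integral over `[-b, b]` with the kernel is at most the integral with the window -/
private theorem lc_seg {N K : ℕ} {b c : ℝ} (hb : 0 ≤ b) (hb2 : b ≤ 1 / 2) (hc : 0 ≤ c)
    (hv : ∀ β, |β| ≤ b → 1 / 2 ≤ vh N K β) {P : ℝ → ℂ} (hP : Continuous P) :
    ∫ β in (-b)..b, HC.kk (c * |β|) * ‖P β‖ ^ 2 ≤
      4 * ∫ β in (-(1 / 2) : ℝ)..(1 / 2), vh N K β ^ 2 * ‖P β‖ ^ 2 := by
  have hcont : Continuous fun β => vh N K β ^ 2 * ‖P β‖ ^ 2 :=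
    ((lc_vh N K).pow 2).mul (hP.norm.pow 2)
  have h1 : ∫ β in (-b)..b, HC.kk (c * |β|) * ‖P β‖ ^ 2 ≤
      ∫ β in (-b)..b, 4 * (vh N K β ^ 2 * ‖P β‖ ^ 2) := by
    apply intervalIntegral.integral_mono_on (by linarith) (lc_ii c hc (hP.norm.pow 2) _ _)
      ((continuous_const.mul hcont).intervalIntegrable _ _)
    intro β hβ
    have h2 := hv β (abs_le.mpr ⟨by linarith [hβ.1], hβ.2⟩)
    have h3 := (MF.kk_basic_pr (c * |β|) (by positivity)).2.1
    have h4 : (1 : ℝ) ≤ 4 * vh N K β ^ 2 := by nlinarith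
    calc HC.kk (c * |β|) * ‖P β‖ ^ 2 ≤ (4 * vh N K β ^ 2) * ‖P β‖ ^ 2 :=
          mul_le_mul_of_nonneg_right (h3.trans h4) (by positivity)
      _ = 4 * (vh N K β ^ 2 * ‖P β‖ ^ 2) := by ring
  refine h1.trans ?_
  rw [← intervalIntegral.integral_const_mul]
  apply intervalIntegral.integral_mono_interval (by linarith) (by linarith) hb2
  · exact Filter.Eventually.of_forall fun β => by positivity
  · exact (continuous_const.mul hcont).intervalIntegrable _ _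

private theorem lc_TX (hLP : LP) {q : ℕ} (c : ℝ) (ψ : DirichletCharacter ℂ q) (N K : ℕ) :
    ∫ β in (-(1 / 2) : ℝ)..(1 / 2), vh N K β ^ 2 * ‖Sz ψ N β + Jz c ψ N K β‖ ^ 2 =
      Vx c ψ N K := by
  have h := hLP N K fun p => (aS N p : ℂ) * ψ (p : ZMod q) + (wz c (K ^ 20) ψ p : ℂ)
  have h1 : ∀ β : ℝ, ∑ p ∈ Icc 1 N, ((aS N p : ℂ) * ψ (p : ZMod q) + (wz c (K ^ 20) ψ p : ℂ)) *
      e (p * β) = Sz ψ N β + Jz c ψ N K β := by
    intro β
    unfold Sz Jz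
    rw [← sum_add_distrib]
    exact sum_congr rfl fun p _ => by ring
  have h2 : ∀ n : ℤ, ∑ p ∈ Icc 1 N, ((aS N p : ℂ) * ψ (p : ZMod q) + (wz c (K ^ 20) ψ p : ℂ)) *
      (vw N K ((p : ℤ) - n) : ℂ) = TX c ψ N K n := by
    intro n
    unfold TX TS
    push_cast
    rw [← sum_add_distrib]
    exact sum_congr rfl fun p _ => by ring
  simp only [h1, h2] at h
  exact h

private theorem lc_T0 (hLP : LP) (N K : ℕ) :
    ∫ β in (-(1 / 2) : ℝ)..(1 / 2), vh N K β ^ 2 * ‖Ps N β - In N β‖ ^ 2 =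
      ∑ n ∈ Icc (1 - (Mw N K : ℤ)) ((N : ℤ) + Mw N K), T0 N K n ^ 2 := by
  have h := hLP N K fun p => (aS N p : ℂ) - 1
  have h1 : ∀ β : ℝ, ∑ p ∈ Icc 1 N, ((aS N p : ℂ) - 1) * e (p * β) = Ps N β - In N β := by
    intro β
    unfold Ps Bs In
    rw [← sum_sub_distrib]
    exact sum_congr rfl fun p _ => by ring
  have h2 : ∀ n : ℤ, ‖∑ p ∈ Icc 1 N, ((aS N p : ℂ) - 1) * (vw N K ((p : ℤ) - n) : ℂ)‖ ^ 2 =
      T0 N K n ^ 2 := by
    intro n
    have h3 : ∑ p ∈ Icc 1 N, ((aS N p : ℂ) - 1) * (vw N K ((p : ℤ) - n) : ℂ) =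
        ((T0 N K n : ℝ) : ℂ) := by
      unfold T0
      push_cast
      rw [← sum_sub_distrib]
      exact sum_congr rfl fun p _ => by ring
    rw [h3, Complex.norm_real, Real.norm_eq_abs, sq_abs]
  simp only [h1, h2] at h
  exact h

/-- one character -/
private theorem lc_one (hLP : LP) {N K : ℕ} {b c c₀ : ℝ} (hb : 0 ≤ b) (hb2 : b ≤ 1 / 2)
    (hc : 0 ≤ c) (hv : ∀ β, |β| ≤ b → 1 / 2 ≤ vh N K β) {q : ℕ} (ψ : DirichletCharacter ℂ q) :
    ∫ β in (-b)..b, HC.kk (c * |β|) * ‖Sz ψ N β‖ ^ 2 ≤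
      8 * Vx c₀ ψ N K + 2 * ∫ β in (-b)..b, HC.kk (c * |β|) * ‖Jz c₀ ψ N K β‖ ^ 2 := by
  have hP : Continuous fun β => Sz ψ N β + Jz c₀ ψ N K β := (lc_Sz ψ N).add (lc_Jz c₀ ψ N K)
  have i1 := lc_iP c hc (lc_Sz ψ N) (-b) b
  have i2 := lc_iP c hc hP (-b) b
  have i3 := lc_iP c hc (lc_Jz c₀ ψ N K) (-b) b
  have h1 : ∫ β in (-b)..b, HC.kk (c * |β|) * ‖Sz ψ N β‖ ^ 2 ≤
      ∫ β in (-b)..b, (2 * (HC.kk (c * |β|) * ‖Sz ψ N β + Jz c₀ ψ N K β‖ ^ 2) +
        2 * (HC.kk (c * |β|) * ‖Jz c₀ ψ N K β‖ ^ 2)) := by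
    apply intervalIntegral.integral_mono_on (by linarith) i1
      ((i2.const_mul 2).add (i3.const_mul 2))
    intro β _
    have h2 := (MF.kk_basic_pr (c * |β|) (by positivity)).1
    have h3 : ‖Sz ψ N β‖ ≤ ‖Sz ψ N β + Jz c₀ ψ N K β‖ + ‖Jz c₀ ψ N K β‖ := by
      calc ‖Sz ψ N β‖ = ‖(Sz ψ N β + Jz c₀ ψ N K β) - Jz c₀ ψ N K β‖ := by
            rw [add_sub_cancel_right]
        _ ≤ _ := norm_sub_le _ _
    have h4 : ‖Sz ψ N β‖ ^ 2 ≤
        2 * ‖Sz ψ N β + Jz c₀ ψ N K β‖ ^ 2 + 2 * ‖Jz c₀ ψ N K β‖ ^ 2 := by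
      have h5 := norm_nonneg (Sz ψ N β)
      nlinarith [sq_nonneg (‖Sz ψ N β + Jz c₀ ψ N K β‖ - ‖Jz c₀ ψ N K β‖)]
    calc HC.kk (c * |β|) * ‖Sz ψ N β‖ ^ 2 ≤ HC.kk (c * |β|) *
          (2 * ‖Sz ψ N β + Jz c₀ ψ N K β‖ ^ 2 + 2 * ‖Jz c₀ ψ N K β‖ ^ 2) :=
          mul_le_mul_of_nonneg_left h4 h2
      _ = _ := by ring
  refine h1.trans ?_
  rw [intervalIntegral.integral_add (i2.const_mul 2) (i3.const_mul 2),
    intervalIntegral.integral_const_mul, intervalIntegral.integral_const_mul]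
  have h6 := lc_seg hb hb2 hc hv hP
  rw [lc_TX hLP] at h6
  linarith

private theorem lc_Tp (N q : ℕ) (b : ℝ) :
    Tp (fun n => (aS N n : ℂ) * e (n * b)) N q = ∑ ψ ∈ Pr q, ‖Sz ψ N b‖ ^ 2 := by
  unfold Tp Sz
  refine sum_congr rfl fun ψ _ => ?_
  congr 2
  exact sum_congr rfl fun n _ => by ring

/-- one denominator -/
private theorem lc_den (h06 : W06) {N r Y : ℕ} (hr : 1 ≤ r) (hrN : r ≤ Nat.sqrt N) (b : ℝ) :
    ∫ β in (-b)..b, HC.kk (r * Y * |β|) * EM N r β =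
      (∑ q ∈ r.divisors.erase 1, (if Squarefree (r / q) ∧ Nat.Coprime (r / q) q then
        Wt2 q (r / q) else 0) *
          ∑ ψ ∈ Pr q, ∫ β in (-b)..b, HC.kk (r * Y * |β|) * ‖Sz ψ N β‖ ^ 2) +
      (if Squarefree r then 1 / (Nat.totient r : ℝ) else 0) *
        ∫ β in (-b)..b, HC.kk (r * Y * |β|) * ‖Ps N β - In N β‖ ^ 2 := by
  have hc : (0 : ℝ) ≤ r * Y := by positivity
  have i1 : ∀ q : ℕ, ∀ ψ : DirichletCharacter ℂ q, IntervalIntegrable
      (fun β => HC.kk (r * Y * |β|) * ‖Sz ψ N β‖ ^ 2) MeasureTheory.volume (-b) b :=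
    fun q ψ => lc_iP _ hc (lc_Sz ψ N) _ _
  have i2 := lc_iP _ hc (lc_Ps N) (-b) b
  have e1 : (fun β => HC.kk (r * Y * |β|) * EM N r β) = fun β =>
      (∑ q ∈ r.divisors.erase 1, (if Squarefree (r / q) ∧ Nat.Coprime (r / q) q then
        Wt2 q (r / q) else 0) * ∑ ψ ∈ Pr q, HC.kk (r * Y * |β|) * ‖Sz ψ N β‖ ^ 2) +
      (if Squarefree r then 1 / (Nat.totient r : ℝ) else 0) *
        (HC.kk (r * Y * |β|) * ‖Ps N β - In N β‖ ^ 2) := by
    funext β
    unfold EM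
    rw [h06 N r β hr hrN, mul_add, mul_sum]
    congr 1
    · refine sum_congr rfl fun q _ => ?_
      rw [lc_Tp, ← mul_sum]
      unfold Wt2
      ring
    · ring
  have i3 : ∀ q : ℕ, IntervalIntegrable (fun β => ∑ ψ ∈ Pr q, HC.kk (r * Y * |β|) *
      ‖Sz ψ N β‖ ^ 2) MeasureTheory.volume (-b) b := fun q => by
    have := IntervalIntegrable.sum (Pr q) (fun ψ _ => i1 q ψ)
    rw [Finset.sum_fn] at this
    exact this
  rw [e1, intervalIntegral.integral_add _ (i2.const_mul _), intervalIntegral.integral_const_mul,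
    intervalIntegral.integral_finsetSum]
  · congr 1
    refine sum_congr rfl fun q _ => ?_
    rw [intervalIntegral.integral_const_mul, intervalIntegral.integral_finsetSum]
    exact fun ψ _ => i1 q ψ
  · exact fun q _ => (i3 q).const_mul _
  · have := IntervalIntegrable.sum (r.divisors.erase 1) (fun q _ => (i3 q).const_mul
      (if Squarefree (r / q) ∧ Nat.Coprime (r / q) q then Wt2 q (r / q) else 0))
    rw [Finset.sum_fn] at this
    exact this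

private theorem lc_nn (x : ℝ) : nn x ≤ |x| := by
  have h := round_le x 0
  unfold nn
  simpa using h

private theorem lc_EEX (c : ℝ) (N K : ℕ) : EEX c N K = (∑ q ∈ Ioc 1 K, ∑ ψ ∈ Pr q, Vx c ψ N K) +
    ∑ n ∈ Icc (1 - (Mw N K : ℤ)) ((N : ℤ) + Mw N K), T0 N K n ^ 2 := by
  unfold EEX EX Vx
  rw [sum_add_distrib, sum_comm]
  congr 1
  refine sum_congr rfl fun q _ => ?_
  rw [sum_comm]

private theorem lc_Vx {q : ℕ} (c : ℝ) (ψ : DirichletCharacter ℂ q) (N K : ℕ) : 0 ≤ Vx c ψ N K := by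
  unfold Vx
  exact sum_nonneg fun _ _ => by positivity

theorem LC_pr (c₀ : ℝ) (h01 : W01) (h06 : W06) (h09 : W09) (hLP : LP) : LC c₀ := by
  classical
  obtain ⟨C1, hC1, K1, h01⟩ := h01
  obtain ⟨C9, hC9, N9, h09⟩ := h09
  refine ⟨8 * C9, min 1 (1 / (2 * C1)), by positivity, by positivity, min_le_left _ _, max K1 N9,
    fun K hK N Y R hR hY hYN hR2 hRK => ?_⟩
  set c₂ : ℝ := min 1 (1 / (2 * C1)) with hc₂
  have hc20 : 0 < c₂ := by positivity
  have hc21 : c₂ ≤ 1 := min_le_left _ _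
  have hc22 : C1 * c₂ ≤ 1 / 2 := by
    calc C1 * c₂ ≤ C1 * (1 / (2 * C1)) := mul_le_mul_of_nonneg_left (min_le_right _ _) hC1.le
      _ = 1 / 2 := by field_simp
  have hKs := p07_sqrt hR
  have hKN : K ≤ N := hKs.trans (Nat.sqrt_le_self N)
  have hK10 := hR.hK
  have hKp : (0 : ℝ) < K := by exact_mod_cast (by omega : 0 < K)
  have hNp : (0 : ℝ) < N := by exact_mod_cast (by omega : 0 < N)
  have hN9 : N9 ≤ N := (le_max_right _ _).trans (hK.trans hKN)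
  have hlog : 0 ≤ Real.log N := Real.log_natCast_nonneg N
  set b : ℝ := c₂ * K ^ 8 / N with hb
  have hb0 : 0 ≤ b := by positivity
  have hb2 : b ≤ 1 / 2 := by
    rw [hb, div_le_iff₀ hNp]
    have h1 : (K : ℝ) ^ 9 ≤ N := by
      have : K ^ 9 ≤ N := (Nat.pow_le_pow_right (by omega) (by norm_num)).trans hR.hN
      exact_mod_cast this
    have h2 : (10 : ℝ) ≤ K := by exact_mod_cast hK10
    have h3 : (K : ℝ) ^ 9 = K * K ^ 8 := by ring
    have h4 : (0 : ℝ) < (K : ℝ) ^ 8 := by positivity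
    nlinarith
  have hv : ∀ β, |β| ≤ b → 1 / 2 ≤ vh N K β := by
    intro β hβ
    have h1 := (h01 K ((le_max_left _ _).trans hK) N hR).2.2.2.1 β
    have h2 : Hw N K * nn β ≤ c₂ := by
      have h3 : Hw N K * b = c₂ := by
        rw [hb]
        unfold Hw
        field_simp
      rw [← h3]
      apply mul_le_mul_of_nonneg_left ((lc_nn β).trans hβ)
      unfold Hw
      positivity
    have h4 : C1 * (Hw N K * nn β) ≤ 1 / 2 := (mul_le_mul_of_nonneg_left h2 hC1.le).trans hc22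
    have h5 := (abs_le.mp (h1.trans h4)).2
    linarith
  -- the weights
  have hw : ∀ q ∈ Icc 1 R, ∑ m ∈ Icc 1 (R / q),
      (if Squarefree m ∧ Nat.Coprime m q then Wt2 q m else 0) ≤ C9 * Real.log N := by
    intro q hq
    refine le_trans ?_ (h09 N hN9 Y R hY hYN (hRK.trans hKN) q hq 0)
    rw [← sum_filter, mul_sum]
    refine sum_le_sum fun m _ => ?_
    unfold Wt2
    have h1 := p07b_wt N Y (q * m) 0
    have h2 : (0 : ℝ) ≤ (q / Nat.totient q : ℝ) := by positivity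
    have h3 : (0 : ℝ) ≤ 1 / (Nat.totient m : ℝ) := by positivity
    exact mul_le_mul_of_nonneg_left (le_mul_of_one_le_right h3 h1) h2
  -- the principal part
  set S0 : ℝ := ∑ n ∈ Icc (1 - (Mw N K : ℤ)) ((N : ℤ) + Mw N K), T0 N K n ^ 2 with hS0
  have hS00 : 0 ≤ S0 := sum_nonneg fun _ _ => by positivity
  have hprin : ∑ r ∈ Icc 1 R, (if Squarefree r then 1 / (Nat.totient r : ℝ) else 0) *
      ∫ β in (-b)..b, HC.kk (r * Y * |β|) * ‖Ps N β - In N β‖ ^ 2 ≤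
      C9 * Real.log N * (4 * S0) := by
    have h1 : ∀ r ∈ Icc 1 R, (if Squarefree r then 1 / (Nat.totient r : ℝ) else 0) *
        ∫ β in (-b)..b, HC.kk (r * Y * |β|) * ‖Ps N β - In N β‖ ^ 2 ≤
        (if Squarefree r ∧ Nat.Coprime r 1 then Wt2 1 r else 0) * (4 * S0) := by
      intro r _
      have h2 : (if Squarefree r ∧ Nat.Coprime r 1 then Wt2 1 r else 0) =
          (if Squarefree r then 1 / (Nat.totient r : ℝ) else 0) := by
        simp [Wt2]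
      rw [h2]
      apply mul_le_mul_of_nonneg_left _ (by positivity)
      rw [hS0, ← lc_T0 hLP]
      exact lc_seg hb0 hb2 (by positivity) hv (lc_Ps N)
    refine (sum_le_sum h1).trans ?_
    rw [← sum_mul]
    apply mul_le_mul_of_nonneg_right _ (by positivity)
    have h3 := hw 1 (mem_Icc.mpr ⟨le_rfl, by omega⟩)
    rwa [Nat.div_one] at h3
  -- the other characters
  obtain ⟨f, hf⟩ : ∃ f : ℕ → ℕ → ℝ, ∀ q m, f q m =
      (if Squarefree m ∧ Nat.Coprime m q then Wt2 q m else 0) *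
        ∑ ψ ∈ Pr q, ∫ β in (-b)..b, HC.kk (((q * m : ℕ) : ℝ) * Y * |β|) * ‖Sz ψ N β‖ ^ 2 :=
    ⟨_, fun _ _ => rfl⟩
  have hsum : ∑ r ∈ Icc 1 R, ∫ β in (-b)..b, HC.kk (r * Y * |β|) * EM N r β =
      (∑ q ∈ Ioc 1 R, ∑ m ∈ Icc 1 (R / q), f q m) +
      ∑ r ∈ Icc 1 R, (if Squarefree r then 1 / (Nat.totient r : ℝ) else 0) *
        ∫ β in (-b)..b, HC.kk (r * Y * |β|) * ‖Ps N β - In N β‖ ^ 2 := by
    rw [← p07_exch, ← sum_add_distrib]
    refine sum_congr rfl fun r hr => ?_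
    have hr1 := mem_Icc.1 hr
    rw [lc_den h06 hr1.1 ((hr1.2.trans hRK).trans hKs)]
    congr 1
    refine sum_congr rfl fun q hq => ?_
    have hqr : q ∣ r := (Nat.mem_divisors.1 (mem_of_mem_erase hq)).1
    rw [hf, Nat.mul_div_cancel' hqr]
  have hq : ∀ q ∈ Ioc 1 R, ∑ m ∈ Icc 1 (R / q), f q m ≤
      C9 * Real.log N * (8 * ∑ ψ ∈ Pr q, Vx c₀ ψ N K) +
        2 * ∑ ψ ∈ Pr q, JP c₀ ψ N K Y R b := by
    intro q hq
    have hq1 := mem_Ioc.1 hq
    have h1 : ∀ m ∈ Icc 1 (R / q), f q m ≤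
        (if Squarefree m ∧ Nat.Coprime m q then Wt2 q m else 0) *
          (8 * ∑ ψ ∈ Pr q, Vx c₀ ψ N K) +
        2 * ∑ ψ ∈ Pr q, (if Squarefree m ∧ Nat.Coprime m q then Wt2 q m *
          ∫ β in (-b)..b, HC.kk (q * m * Y * |β|) * ‖Jz c₀ ψ N K β‖ ^ 2 else 0) := by
      intro m _
      rw [hf]
      have h2 : ∑ ψ ∈ Pr q, ∫ β in (-b)..b, HC.kk (((q * m : ℕ) : ℝ) * Y * |β|) *
          ‖Sz ψ N β‖ ^ 2 ≤ ∑ ψ ∈ Pr q, (8 * Vx c₀ ψ N K + 2 * ∫ β in (-b)..b,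
            HC.kk (((q * m : ℕ) : ℝ) * Y * |β|) * ‖Jz c₀ ψ N K β‖ ^ 2) :=
        sum_le_sum fun ψ _ => lc_one hLP hb0 hb2 (by positivity) hv ψ
      have h3 : (0 : ℝ) ≤ (if Squarefree m ∧ Nat.Coprime m q then Wt2 q m else 0) := by
        split_ifs
        · unfold Wt2
          positivity
        · exact le_rfl
      refine (mul_le_mul_of_nonneg_left h2 h3).trans (le_of_eq ?_)
      rw [sum_add_distrib, ← mul_sum, ← mul_sum, mul_add]
      congr 1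
      rw [mul_sum, mul_sum, mul_sum]
      refine sum_congr rfl fun ψ _ => ?_
      split_ifs
      · push_cast
        ring
      · ring
    refine (sum_le_sum h1).trans ?_
    rw [sum_add_distrib, ← sum_mul]
    refine add_le_add ?_ (le_of_eq ?_)
    · exact mul_le_mul_of_nonneg_right (hw q (mem_Icc.mpr ⟨hq1.1.le, hq1.2⟩))
        (mul_nonneg (by norm_num) (sum_nonneg fun ψ _ => lc_Vx _ _ _ _))
    · rw [← mul_sum, sum_comm]
      congr 1
      refine sum_congr rfl fun ψ _ => ?_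
      unfold JP MM
      rw [sum_filter]
  rw [hsum, lc_EEX]
  have h4 := sum_le_sum hq
  rw [sum_add_distrib, ← mul_sum, ← mul_sum, ← mul_sum] at h4
  have h5 : ∑ q ∈ Ioc 1 R, ∑ ψ ∈ Pr q, Vx c₀ ψ N K ≤ ∑ q ∈ Ioc 1 K, ∑ ψ ∈ Pr q, Vx c₀ ψ N K :=
    sum_le_sum_of_subset_of_nonneg (Ioc_subset_Ioc_right hRK) fun q _ _ =>
      sum_nonneg fun ψ _ => lc_Vx _ _ _ _
  rw [← hS0]
  have h6 : C9 * Real.log N * (8 * ∑ q ∈ Ioc 1 R, ∑ ψ ∈ Pr q, Vx c₀ ψ N K) ≤
      C9 * Real.log N * (8 * ∑ q ∈ Ioc 1 K, ∑ ψ ∈ Pr q, Vx c₀ ψ N K) :=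
    mul_le_mul_of_nonneg_left (by linarith) (by positivity)
  have h7 : C9 * Real.log N * (4 * S0) ≤ C9 * Real.log N * (8 * S0) :=
    mul_le_mul_of_nonneg_left (by linarith) (by positivity)
  have hY0 : (0 : ℝ) ≤ Y := by positivity
  calc (Y : ℝ) * _ ≤ Y * (C9 * Real.log N * (8 * ∑ q ∈ Ioc 1 K, ∑ ψ ∈ Pr q, Vx c₀ ψ N K) +
        2 * (∑ q ∈ Ioc 1 R, ∑ ψ ∈ Pr q, JP c₀ ψ N K Y R b) + C9 * Real.log N * (8 * S0)) := by
        apply mul_le_mul_of_nonneg_left _ hY0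
        linarith
    _ = _ := by ring

end Pool.Agent.LHM
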