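import Pool.Agent.Lib_helper59.LHM.Wanted

/-!
# LHM, block LD: the exponential sum of a slowly decreasing function
-/

set_option autoImplicit false

namespace Pool.Agent.LHM

open Finset Pool.Agent.Var35 Pool.Agent.Var73 Pool.Agent.PV Pool.Agent.FGP
open scoped ArithmeticFunction ArithmeticFunction.Moebius

theorem ld_e_sub {β : ℝ} (hβ : |β| ≤ 1 / 2) : 4 * |β| ≤ ‖e β - 1‖ := by
  have hpi := Real.pi_pos
  have h1 : e β = Complex.exp (Complex.I * ((2 * Real.pi * β : ℝ) : ℂ)) := by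
    unfold e
    rw [mul_comm]
  rw [h1, Complex.norm_exp_I_mul_ofReal_sub_one]
  have h2 : 2 * Real.pi * β / 2 = Real.pi * β := by ring
  have h4 : |Real.pi * β| ≤ Real.pi / 2 := by
    rw [abs_mul, abs_of_pos hpi]
    nlinarith
  have h3 := Real.mul_abs_le_abs_sin h4
  rw [abs_mul, abs_of_pos hpi] at h3
  have h5 : 2 / Real.pi * (Real.pi * |β|) = 2 * |β| := by
    field_simp
  rw [h5] at h3
  rw [h2, Real.norm_eq_abs, abs_mul, abs_of_pos (two_pos : (0 : ℝ) < 2)]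
  linarith

theorem ld_tel (β : ℝ) {a b : ℕ} (hab : a ≤ b) :
    (e β - 1) * ∑ m ∈ Ioc a b, e (m * β) = e ((b + 1 : ℕ) * β) - e ((a + 1 : ℕ) * β) := by
  induction b, hab using Nat.le_induction with
  | base => simp
  | succ b hab ih =>
    rw [Finset.sum_Ioc_succ_top hab, mul_add, ih, sub_mul, one_mul, ← e_add]
    have : β + ((b + 1 : ℕ) : ℝ) * β = ((b + 1 + 1 : ℕ) : ℝ) * β := by
      push_cast; ring
    rw [this]
    ring

theorem ld_geo {β : ℝ} (h0 : β ≠ 0) (hβ : |β| ≤ 1 / 2) (a b : ℕ) :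
    ‖∑ m ∈ Ioc a b, e (m * β)‖ ≤ 1 / |β| := by
  have hb : 0 < |β| := abs_pos.mpr h0
  rcases le_or_gt a b with hab | hab
  · have h1 : ‖(e β - 1) * ∑ m ∈ Ioc a b, e (m * β)‖ =
        ‖e ((b + 1 : ℕ) * β) - e ((a + 1 : ℕ) * β)‖ := by rw [ld_tel β hab]
    rw [norm_mul] at h1
    have h2 : ‖e ((b + 1 : ℕ) * β) - e ((a + 1 : ℕ) * β)‖ ≤ 2 := by
      refine (norm_sub_le _ _).trans ?_
      rw [norm_e, norm_e]
      norm_num
    have h3 := ld_e_sub hβ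
    rw [le_div_iff₀ hb]
    have h4 : 4 * |β| * ‖∑ m ∈ Ioc a b, e (m * β)‖ ≤ 2 := by
      refine (mul_le_mul_of_nonneg_right h3 (norm_nonneg _)).trans ?_
      rw [h1]
      exact h2
    nlinarith
  · rw [Finset.Ioc_eq_empty (by omega), Finset.sum_empty, norm_zero]
    positivity

theorem ld_abel (w : ℕ → ℝ) (z : ℕ → ℂ) {P N : ℕ} (hPN : P + 1 ≤ N) {B : ℝ}
    (hw : ∀ m ∈ Icc (P + 1) N, 0 ≤ w m)
    (hd : ∀ m ∈ Icc (P + 1) N, ∀ n ∈ Icc (P + 1) N, m ≤ n → w n ≤ w m)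
    (hB : ∀ n, ‖∑ m ∈ Ioc P n, z m‖ ≤ B) :
    ‖∑ m ∈ Ioc P N, (w m : ℂ) * z m‖ ≤ w (P + 1) * B := by
  have key : ∀ n, P + 1 ≤ n → n ≤ N →
      ‖∑ m ∈ Ioc P n, (w m : ℂ) * z m - (w n : ℂ) * ∑ m ∈ Ioc P n, z m‖ ≤
        (w (P + 1) - w n) * B := by
    intro n hn
    induction n, hn using Nat.le_induction with
    | base =>
      intro _
      rw [Finset.sum_Ioc_succ_top (le_refl P), Finset.sum_Ioc_succ_top (le_refl P)]
      simp
    | succ n hn ih =>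
      intro hnN
      have ih' := ih (by omega)
      have hPn : P ≤ n := by omega
      rw [Finset.sum_Ioc_succ_top hPn, Finset.sum_Ioc_succ_top hPn]
      have h1 : ∑ m ∈ Ioc P n, (w m : ℂ) * z m + (w (n + 1) : ℂ) * z (n + 1) -
          (w (n + 1) : ℂ) * (∑ m ∈ Ioc P n, z m + z (n + 1)) =
          (∑ m ∈ Ioc P n, (w m : ℂ) * z m - (w n : ℂ) * ∑ m ∈ Ioc P n, z m) +
          ((w n - w (n + 1) : ℝ) : ℂ) * ∑ m ∈ Ioc P n, z m := by
        push_cast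
        ring
      rw [h1]
      refine (norm_add_le _ _).trans ?_
      have h2 : 0 ≤ w n - w (n + 1) := by
        have := hd n (Finset.mem_Icc.2 ⟨hn, by omega⟩) (n + 1)
          (Finset.mem_Icc.2 ⟨by omega, hnN⟩) (by omega)
        linarith
      have h3 : ‖((w n - w (n + 1) : ℝ) : ℂ) * ∑ m ∈ Ioc P n, z m‖ ≤ (w n - w (n + 1)) * B := by
        rw [norm_mul, Complex.norm_real, Real.norm_of_nonneg h2]
        exact mul_le_mul_of_nonneg_left (hB n) h2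
      linarith
  have h1 := key N hPN le_rfl
  have h2 : 0 ≤ w N := hw N (Finset.mem_Icc.2 ⟨hPN, le_rfl⟩)
  have h3 : ‖(w N : ℂ) * ∑ m ∈ Ioc P N, z m‖ ≤ w N * B := by
    rw [norm_mul, Complex.norm_real, Real.norm_of_nonneg h2]
    exact mul_le_mul_of_nonneg_left (hB N) h2
  have h4 := norm_add_le (∑ m ∈ Ioc P N, (w m : ℂ) * z m - (w N : ℂ) * ∑ m ∈ Ioc P N, z m)
    ((w N : ℂ) * ∑ m ∈ Ioc P N, z m)
  rw [sub_add_cancel] at h4
  linarith

theorem ld_sqrt (P : ℕ) : ∑ m ∈ Icc 1 P, 1 / Real.sqrt m ≤ 2 * Real.sqrt P := by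
  induction P with
  | zero => simp
  | succ P ih =>
    rw [Finset.sum_Icc_succ_top (by omega)]
    have h1 : 0 < Real.sqrt ((P + 1 : ℕ) : ℝ) := Real.sqrt_pos.mpr (by positivity)
    have h2 : 0 ≤ Real.sqrt (P : ℝ) := Real.sqrt_nonneg _
    have h3 : Real.sqrt ((P + 1 : ℕ) : ℝ) ^ 2 = P + 1 := by
      rw [Real.sq_sqrt (by positivity)]
      push_cast
      ring
    have h4 : Real.sqrt (P : ℝ) ^ 2 = P := Real.sq_sqrt (by positivity)
    have h5 : 1 / Real.sqrt ((P + 1 : ℕ) : ℝ) ≤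
        2 * (Real.sqrt ((P + 1 : ℕ) : ℝ) - Real.sqrt (P : ℝ)) := by
      rw [div_le_iff₀ h1]
      nlinarith [sq_nonneg (Real.sqrt ((P + 1 : ℕ) : ℝ) - Real.sqrt (P : ℝ))]
    linarith

theorem ld_sum {κ : ℝ} (hκ : κ ≤ 1 / 2) (P : ℕ) :
    ∑ m ∈ Icc 1 P, ((P : ℝ) / m) ^ κ ≤ 2 * P := by
  have h1 : ∀ m ∈ Icc 1 P, ((P : ℝ) / m) ^ κ ≤ Real.sqrt P * (1 / Real.sqrt m) := by
    intro m hm
    obtain ⟨hm1, hmP⟩ := Finset.mem_Icc.1 hm
    have hm0 : (0 : ℝ) < m := by exact_mod_cast hm1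
    have h2 : (1 : ℝ) ≤ (P : ℝ) / m := by
      rw [le_div_iff₀ hm0, one_mul]
      exact_mod_cast hmP
    calc ((P : ℝ) / m) ^ κ ≤ ((P : ℝ) / m) ^ (1 / 2 : ℝ) :=
          Real.rpow_le_rpow_of_exponent_le h2 hκ
      _ = Real.sqrt ((P : ℝ) / m) := (Real.sqrt_eq_rpow _).symm
      _ = Real.sqrt P * (1 / Real.sqrt m) := by
        rw [Real.sqrt_div (by positivity)]
        ring
  refine (Finset.sum_le_sum h1).trans ?_
  rw [← Finset.mul_sum]
  have h3 := mul_le_mul_of_nonneg_left (ld_sqrt P) (Real.sqrt_nonneg (P : ℝ))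
  have h4 : Real.sqrt (P : ℝ) * Real.sqrt P = P := Real.mul_self_sqrt (by positivity)
  nlinarith

theorem LD_pr : LD := by
  refine ⟨8, by norm_num, fun N κ A β w hN hκ0 hκ hA hβ hNA hw hd => ?_⟩
  have hN0 : (0 : ℝ) < N := by exact_mod_cast hN
  have hwN : 0 ≤ w N := (hw N (Finset.mem_Icc.2 ⟨hN, le_rfl⟩)).1
  have hwn0 : ∀ m ∈ Icc 1 N, 0 ≤ w m := fun m hm => (hw m hm).1
  have hA0 : 0 ≤ A := by linarith
  have hfirst : ∑ n ∈ Icc 1 N, w n ≤ 2 * w N * N := by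
    calc ∑ n ∈ Icc 1 N, w n ≤ ∑ n ∈ Icc 1 N, w N * ((N : ℝ) / n) ^ κ :=
          Finset.sum_le_sum fun n hn => (hw n hn).2
      _ = w N * ∑ n ∈ Icc 1 N, ((N : ℝ) / n) ^ κ := by rw [Finset.mul_sum]
      _ ≤ w N * (2 * N) := mul_le_mul_of_nonneg_left (ld_sum hκ N) hwN
      _ = 2 * w N * N := by ring
  have hnorm : ‖∑ n ∈ Icc 1 N, (w n : ℂ) * e (n * β)‖ ≤ ∑ n ∈ Icc 1 N, w n := by
    refine (norm_sum_le _ _).trans (Finset.sum_le_sum fun n hn => ?_)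
    rw [norm_mul, norm_e, mul_one, Complex.norm_real, Real.norm_of_nonneg (hwn0 n hn)]
  have h1 : ‖∑ n ∈ Icc 1 N, (w n : ℂ) * e (n * β)‖ ≤ 2 * w N * N := hnorm.trans hfirst
  have hwNN : 0 ≤ w N * N := mul_nonneg hwN hN0.le
  refine ⟨?_, ?_⟩
  · refine h1.trans ?_
    nlinarith
  by_cases hb : N * |β| ≤ 1
  · have h2 : ‖∑ n ∈ Icc 1 N, (w n : ℂ) * e (n * β)‖ * |β| ≤ 2 * w N * N * |β| :=
      mul_le_mul_of_nonneg_right h1 (abs_nonneg _)
    have h3 : w N * (N * |β|) ≤ w N * 1 := mul_le_mul_of_nonneg_left hb hwN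
    nlinarith
  rw [not_le] at hb
  have hβ0 : 0 < |β| := by
    by_contra h
    have : |β| = 0 := le_antisymm (not_lt.1 h) (abs_nonneg _)
    rw [this, mul_zero] at hb
    linarith
  have hβne : β ≠ 0 := abs_pos.1 hβ0
  -- the cut
  obtain ⟨P, hP⟩ : ∃ P : ℕ, P = ⌊1 / |β|⌋₊ := ⟨_, rfl⟩
  have hinv : (2 : ℝ) ≤ 1 / |β| := by
    rw [le_div_iff₀ hβ0]
    linarith
  have hP1 : (P : ℝ) ≤ 1 / |β| := by
    rw [hP]
    exact Nat.floor_le (by positivity)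
  have hP2 : 1 / |β| < (P : ℝ) + 1 := by
    rw [hP]
    exact Nat.lt_floor_add_one _
  have hPN : (P : ℝ) < N := by
    have : 1 / |β| < N := by
      rw [div_lt_iff₀ hβ0]
      exact hb
    linarith
  have hPN' : P + 1 ≤ N := by exact_mod_cast hPN
  have hPge : 1 / (2 * |β|) ≤ (P : ℝ) := by
    have : 1 / (2 * |β|) = (1 / |β|) / 2 := by
      field_simp
    rw [this]
    linarith
  have hP0 : (0 : ℝ) < P := lt_of_lt_of_le (by positivity) hPge
  have hP0' : 1 ≤ P := by exact_mod_cast hP0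
  have hPβ : (P : ℝ) * |β| ≤ 1 := by
    have := mul_le_mul_of_nonneg_right hP1 hβ0.le
    rwa [one_div, inv_mul_cancel₀ hβ0.ne'] at this
  have hNP : (N : ℝ) / P ≤ 2 * (N * |β|) := by
    rw [div_le_iff₀ hP0]
    have h5 := mul_le_mul_of_nonneg_left hPge (show (0 : ℝ) ≤ 2 * (N * |β|) by positivity)
    have h6 : 2 * (N * |β|) * (1 / (2 * |β|)) = N := by
      field_simp
    rwa [h6] at h5
  have hNPκ : ((N : ℝ) / P) ^ κ ≤ 2 * A := by
    calc ((N : ℝ) / P) ^ κ ≤ (2 * (N * |β|)) ^ κ :=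
          Real.rpow_le_rpow (by positivity) hNP hκ0
      _ = 2 ^ κ * (N * |β|) ^ κ := Real.mul_rpow (by norm_num) (by positivity)
      _ ≤ 2 * A := by
        have h7 : (2 : ℝ) ^ κ ≤ 2 := by
          calc (2 : ℝ) ^ κ ≤ (2 : ℝ) ^ (1 : ℝ) :=
                Real.rpow_le_rpow_of_exponent_le (by norm_num) (by linarith)
            _ = 2 := Real.rpow_one _
        exact mul_le_mul h7 hNA (by positivity) (by norm_num)
  -- the sum over `m ≤ P`
  have hA1 : ∑ n ∈ Icc 1 P, w n ≤ 4 * A * w N * P := by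
    have h8 : ∀ n ∈ Icc 1 P, w n ≤ w N * (2 * A) * ((P : ℝ) / n) ^ κ := by
      intro n hn
      obtain ⟨hn1, hnP⟩ := Finset.mem_Icc.1 hn
      have hn0 : (0 : ℝ) < n := by exact_mod_cast hn1
      have h9 := (hw n (Finset.mem_Icc.2 ⟨hn1, by omega⟩)).2
      have h10 : ((N : ℝ) / n) ^ κ = ((N : ℝ) / P) ^ κ * ((P : ℝ) / n) ^ κ := by
        rw [← Real.mul_rpow (by positivity) (by positivity)]
        congr 1
        field_simp
      rw [h10, ← mul_assoc] at h9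
      refine h9.trans (mul_le_mul_of_nonneg_right ?_ (by positivity))
      exact mul_le_mul_of_nonneg_left hNPκ hwN
    calc ∑ n ∈ Icc 1 P, w n ≤ ∑ n ∈ Icc 1 P, w N * (2 * A) * ((P : ℝ) / n) ^ κ :=
          Finset.sum_le_sum h8
      _ = w N * (2 * A) * ∑ n ∈ Icc 1 P, ((P : ℝ) / n) ^ κ := by rw [Finset.mul_sum]
      _ ≤ w N * (2 * A) * (2 * P) :=
        mul_le_mul_of_nonneg_left (ld_sum hκ P) (by positivity)
      _ = 4 * A * w N * P := by ring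
  have hsplit : ∑ n ∈ Icc 1 N, (w n : ℂ) * e (n * β) =
      ∑ n ∈ Icc 1 P, (w n : ℂ) * e (n * β) + ∑ n ∈ Ioc P N, (w n : ℂ) * e (n * β) := by
    rw [← Finset.sum_union]
    · congr 1
      ext n
      simp only [Finset.mem_union, Finset.mem_Icc, Finset.mem_Ioc]
      omega
    · rw [Finset.disjoint_left]
      intro n hn hn'
      simp only [Finset.mem_Icc, Finset.mem_Ioc] at hn hn'
      omega
  have hpart1 : ‖∑ n ∈ Icc 1 P, (w n : ℂ) * e (n * β)‖ ≤ 4 * A * w N * P := by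
    refine (norm_sum_le _ _).trans (le_trans (Finset.sum_le_sum fun n hn => ?_) hA1)
    obtain ⟨hn1, hnP⟩ := Finset.mem_Icc.1 hn
    rw [norm_mul, norm_e, mul_one, Complex.norm_real,
      Real.norm_of_nonneg (hwn0 n (Finset.mem_Icc.2 ⟨hn1, by omega⟩))]
  have hsub : ∀ m ∈ Icc (P + 1) N, m ∈ Icc 1 N := by
    intro m hm
    simp only [Finset.mem_Icc] at hm ⊢
    omega
  have hpart2 : ‖∑ n ∈ Ioc P N, (w n : ℂ) * e (n * β)‖ ≤ w (P + 1) * (1 / |β|) :=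
    ld_abel w (fun n => e (n * β)) hPN' (fun m hm => hwn0 m (hsub m hm))
      (fun m hm n hn => hd m (hsub m hm) n (hsub n hn)) (fun n => ld_geo hβne hβ P n)
  have hwP : w (P + 1) ≤ 2 * A * w N := by
    have h11 : w (P + 1) ≤ w P := hd P (Finset.mem_Icc.2 ⟨hP0', by omega⟩) (P + 1)
      (Finset.mem_Icc.2 ⟨by omega, hPN'⟩) (by omega)
    have h12 := (hw P (Finset.mem_Icc.2 ⟨hP0', by omega⟩)).2
    have h13 : w N * ((N : ℝ) / P) ^ κ ≤ w N * (2 * A) := mul_le_mul_of_nonneg_left hNPκ hwN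
    linarith
  rw [hsplit]
  have h14 : ‖∑ n ∈ Icc 1 P, (w n : ℂ) * e (n * β) + ∑ n ∈ Ioc P N, (w n : ℂ) * e (n * β)‖ *
      |β| ≤ (4 * A * w N * P + w (P + 1) * (1 / |β|)) * |β| :=
    mul_le_mul_of_nonneg_right ((norm_add_le _ _).trans (add_le_add hpart1 hpart2)) hβ0.le
  refine h14.trans ?_
  have h15 : (4 * A * w N * P + w (P + 1) * (1 / |β|)) * |β| =
      4 * A * w N * (P * |β|) + w (P + 1) := by
    field_simp
  rw [h15]
  have hAw : 0 ≤ 4 * A * w N := by positivity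
  have h16 := mul_le_mul_of_nonneg_left hPβ hAw
  have h17 : 0 ≤ A * w N := by positivity
  nlinarith

end Pool.Agent.LHM
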