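import Pool.Agent.Lib_helper59.LHM.Wanted
import Pool.Agent.Lib_helper59.MFF.G8

/-! LHM, block LE (helper18). -/

set_option autoImplicit false

namespace Pool.Agent.LHM

open Finset Pool.Agent.Var35 Pool.Agent.Var73 Pool.Agent.PV Pool.Agent.FGP
open scoped ArithmeticFunction ArithmeticFunction.Moebius

theorem le_int {F G g : ℝ → ℝ} {c d : ℝ} (hcd : c ≤ d)
    (hF : IntervalIntegrable F MeasureTheory.volume c d)
    (hG : ∀ x ∈ Set.Icc c d, HasDerivAt G (g x) x) (hg : ContinuousOn g (Set.Icc c d))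
    (h : ∀ x ∈ Set.Icc c d, F x ≤ g x) : ∫ x in c..d, F x ≤ G d - G c := by
  have hgi : IntervalIntegrable g MeasureTheory.volume c d := hg.intervalIntegrable_of_Icc hcd
  have h1 := intervalIntegral.integral_mono_on hcd hF hgi h
  rw [intervalIntegral.integral_eq_sub_of_hasDerivAt (f := G)
    (fun x hx => hG x (by rwa [Set.uIcc_of_le hcd] at hx)) hgi] at h1
  exact h1

theorem le_ii {J : ℝ → ℂ} (hJ : Continuous J) {a : ℝ} (ha : 0 < a) (c d : ℝ) :
    IntervalIntegrable (fun β => HC.kk (a * |β|) * ‖J β‖ ^ 2) MeasureTheory.volume c d := by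
  refine IntervalIntegrable.mul_continuousOn (f := fun β => HC.kk (a * |β|))
    (g := fun β => ‖J β‖ ^ 2) ?_ (by fun_prop)
  refine IntervalIntegrable.mono_fun (f := fun _ => (1 : ℝ)) intervalIntegrable_const ?_ ?_
  · exact (MF.g8_kk_meas.comp (by fun_prop)).aestronglyMeasurable
  · refine Filter.Eventually.of_forall (fun β => ?_)
    obtain ⟨h1, h2, -⟩ := MF.kk_basic_pr (a * |β|) (by positivity)
    show ‖HC.kk (a * |β|)‖ ≤ ‖(1 : ℝ)‖
    rw [Real.norm_of_nonneg h1, norm_one]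
    exact h2

/-- `a ≤ N` -/
theorem le_one {N : ℝ} {a b A : ℝ} {J : ℝ → ℂ} (hN : 1 ≤ N) (ha : 0 < a) (hb : 0 ≤ b)
    (hJc : Continuous J)
    (hJ : ∀ β, |β| ≤ b → ‖J β‖ ≤ A * N ∧ ‖J β‖ * |β| ≤ A) :
    ∫ β in (0 : ℝ)..b, HC.kk (a * |β|) * ‖J β‖ ^ 2 ≤ 4 * A ^ 2 * N := by
  have hN0 : 0 < N := by linarith
  have key := le_int (G := fun β => -(4 * A ^ 2 * N / (1 + N * β)))
    (g := fun β => 4 * A ^ 2 * N ^ 2 / (1 + N * β) ^ 2) hb (le_ii hJc ha 0 b) ?_ ?_ ?_
  · refine key.trans ?_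
    have h1 : 0 ≤ 4 * A ^ 2 * N / (1 + N * b) := by positivity
    simp only [mul_zero, add_zero, div_one]
    linarith
  · intro x hx
    have hx0 : 0 ≤ x := hx.1
    have hne : 1 + N * x ≠ 0 := by positivity
    have h1 : HasDerivAt (fun β : ℝ => 1 + N * β) N x := by
      simpa using ((hasDerivAt_id x).const_mul N).const_add 1
    have h2 := ((h1.inv hne).const_mul (4 * A ^ 2 * N)).neg
    refine (h2.congr_deriv ?_).congr_of_eventuallyEq ?_
    · field_simp
    · refine Filter.Eventually.of_forall fun y => ?_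
      simp only [div_eq_mul_inv, Pi.neg_apply]
      rfl
  · refine ContinuousOn.div (by fun_prop) (by fun_prop) ?_
    intro x hx
    have hx0 : 0 ≤ x := hx.1
    positivity
  · intro x hx
    have hx0 : 0 ≤ x := hx.1
    obtain ⟨h1, h2⟩ := hJ x (by rw [abs_of_nonneg hx0]; exact hx.2)
    rw [abs_of_nonneg hx0] at h2
    have hk := MF.kk_basic_pr (a * |x|) (by positivity)
    have h3 : HC.kk (a * |x|) * ‖J x‖ ^ 2 ≤ ‖J x‖ ^ 2 := by
      have := mul_le_mul_of_nonneg_right hk.2.1 (sq_nonneg ‖J x‖)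
      linarith
    refine h3.trans ?_
    rw [le_div_iff₀ (by positivity)]
    have h4 : ‖J x‖ * (1 + N * x) ≤ 2 * A * N := by
      have : ‖J x‖ * x * N ≤ A * N := mul_le_mul_of_nonneg_right h2 hN0.le
      nlinarith
    have h5 : 0 ≤ ‖J x‖ * (1 + N * x) := by positivity
    calc ‖J x‖ ^ 2 * (1 + N * x) ^ 2 = (‖J x‖ * (1 + N * x)) ^ 2 := by ring
      _ ≤ (2 * A * N) ^ 2 := pow_le_pow_left₀ h5 h4 2
      _ = 4 * A ^ 2 * N ^ 2 := by ring

/-- the beginning, `β ≤ 1 / N` -/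
theorem le_two {N : ℝ} {a b A : ℝ} {J : ℝ → ℂ} (hN : 1 ≤ N) (ha : 0 < a) (hb : 0 ≤ b)
    (hJc : Continuous J)
    (hJ : ∀ β, |β| ≤ b → ‖J β‖ ≤ A * N) :
    ∫ β in (0 : ℝ)..b, HC.kk (a * |β|) * ‖J β‖ ^ 2 ≤
      2 * A ^ 2 * N ^ 2 / a * Real.log (1 + a * b) := by
  have hN0 : 0 < N := by linarith
  have key := le_int (G := fun β => 2 * A ^ 2 * N ^ 2 / a * Real.log (1 + a * β))
    (g := fun β => 2 * A ^ 2 * N ^ 2 / (1 + a * β)) hb (le_ii hJc ha 0 b) ?_ ?_ ?_
  · refine key.trans (le_of_eq ?_)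
    simp only [mul_zero, add_zero, Real.log_one, sub_zero]
  · intro x hx
    have hx0 : 0 ≤ x := hx.1
    have hne : 1 + a * x ≠ 0 := by positivity
    have h1 : HasDerivAt (fun β : ℝ => 1 + a * β) a x := by
      simpa using ((hasDerivAt_id x).const_mul a).const_add 1
    refine ((h1.log hne).const_mul (2 * A ^ 2 * N ^ 2 / a)).congr_deriv ?_
    field_simp
  · refine ContinuousOn.div (by fun_prop) (by fun_prop) ?_
    intro x hx
    have hx0 : 0 ≤ x := hx.1
    positivity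
  · intro x hx
    have hx0 : 0 ≤ x := hx.1
    have h1 := hJ x (by rw [abs_of_nonneg hx0]; exact hx.2)
    have hk := MF.kk_basic_pr (a * |x|) (by positivity)
    rw [le_div_iff₀ (by positivity)]
    have h4 : HC.kk (a * |x|) * (1 + a * x) ≤ 2 := by
      rcases hx0.eq_or_lt with h0 | h0
      · rw [← h0] at hk ⊢
        linarith [hk.2.1]
      · have h5 := hk.2.2 (by positivity)
        rw [abs_of_pos h0] at h5 hk ⊢
        rw [le_div_iff₀ (by positivity)] at h5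
        have := hk.2.1
        linarith
    have h5 : ‖J x‖ ^ 2 ≤ (A * N) ^ 2 := pow_le_pow_left₀ (norm_nonneg _) h1 2
    calc HC.kk (a * |x|) * ‖J x‖ ^ 2 * (1 + a * x) =
        (HC.kk (a * |x|) * (1 + a * x)) * ‖J x‖ ^ 2 := by ring
      _ ≤ 2 * (A * N) ^ 2 := mul_le_mul h4 h5 (sq_nonneg _) (by norm_num)
      _ = 2 * A ^ 2 * N ^ 2 := by ring

/-- the tail, `β ≥ 1 / N` -/
theorem le_three {N : ℝ} {a b A : ℝ} {J : ℝ → ℂ} (hN : 1 ≤ N) (ha : 0 < a) (hb : 1 / N ≤ b)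
    (hJc : Continuous J)
    (hJ : ∀ β, |β| ≤ b → ‖J β‖ * |β| ≤ A) :
    ∫ β in (1 / N : ℝ)..b, HC.kk (a * |β|) * ‖J β‖ ^ 2 ≤ A ^ 2 * N ^ 2 / a := by
  have hN0 : 0 < N := by linarith
  have h1N : 0 < 1 / N := by positivity
  have key := le_int (G := fun β => -(A ^ 2 * N / a * β⁻¹))
    (g := fun β => A ^ 2 * N / a * (β ^ 2)⁻¹) hb (le_ii hJc ha (1 / N) b) ?_ ?_ ?_
  · refine key.trans ?_
    have hb0 : 0 < b := lt_of_lt_of_le h1N hb
    have h1 : 0 ≤ A ^ 2 * N / a * b⁻¹ := by positivity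
    have h2 : A ^ 2 * N / a * (1 / N)⁻¹ = A ^ 2 * N ^ 2 / a := by
      field_simp
    simp only [sub_neg_eq_add, h2]
    linarith
  · intro x hx
    have hx0 : 0 < x := lt_of_lt_of_le h1N hx.1
    have h2 := ((hasDerivAt_inv hx0.ne').const_mul (A ^ 2 * N / a)).neg
    refine h2.congr_deriv ?_
    ring
  · refine ContinuousOn.mul (by fun_prop) (ContinuousOn.inv₀ (by fun_prop) ?_)
    intro x hx
    have hx0 : 0 < x := lt_of_lt_of_le h1N hx.1
    positivity
  · intro x hx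
    have hx0 : 0 < x := lt_of_lt_of_le h1N hx.1
    have h2 := hJ x (by rw [abs_of_pos hx0]; exact hx.2)
    rw [abs_of_pos hx0] at h2
    have hk := (MF.kk_basic_pr (a * |x|) (by positivity)).2.2 (by positivity)
    rw [abs_of_pos hx0] at hk ⊢
    have h3 : 1 / (a * x) ≤ N / a := by
      rw [div_le_div_iff₀ (by positivity) ha]
      have h4 : 1 ≤ N * x := by
        have := hx.1
        rw [div_le_iff₀ hN0] at this
        linarith
      nlinarith
    have h4 : ‖J x‖ ^ 2 ≤ A ^ 2 * (x ^ 2)⁻¹ := by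
      rw [← div_eq_mul_inv, le_div_iff₀ (by positivity), ← mul_pow]
      exact pow_le_pow_left₀ (by positivity) h2 2
    calc HC.kk (a * x) * ‖J x‖ ^ 2 ≤ (N / a) * (A ^ 2 * (x ^ 2)⁻¹) :=
          mul_le_mul (hk.trans h3) h4 (sq_nonneg _) (by positivity)
      _ = A ^ 2 * N / a * (x ^ 2)⁻¹ := by ring

theorem le_half {N : ℕ} {a b A : ℝ} {J : ℝ → ℂ} (hN : 1 ≤ N) (ha : 0 < a) (hb : 0 ≤ b)
    (hJc : Continuous J)
    (hJ : ∀ β, |β| ≤ b → ‖J β‖ ≤ A * N ∧ ‖J β‖ * |β| ≤ A) :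
    ∫ β in (0 : ℝ)..b, HC.kk (a * |β|) * ‖J β‖ ^ 2 ≤ 4 * A ^ 2 * N * gg (N / a) := by
  have hN1 : (1 : ℝ) ≤ N := by exact_mod_cast hN
  have hN0 : (0 : ℝ) < N := by linarith
  unfold gg
  split_ifs with h
  · rw [mul_one]
    exact le_one hN1 ha hb hJc hJ
  · rw [not_le, div_lt_one ha] at h
    have e1 : (1 : ℝ) / (N / a) = a / N := by rw [one_div_div]
    rw [e1]
    have haN : 1 < a / N := by rw [one_lt_div hN0]; exact h
    have hlog : 0 < Real.log (a / N) := Real.log_pos haN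
    have hl1 : Real.log (1 + a / N) ≤ Real.log 2 + Real.log (a / N) := by
      rw [← Real.log_mul (by norm_num) (by positivity)]
      exact Real.log_le_log (by positivity) (by linarith)
    have hl2 := Real.log_two_lt_d9
    have hc : 0 ≤ A ^ 2 * (N : ℝ) ^ 2 / a := by positivity
    have e2 : 4 * A ^ 2 * (N : ℝ) * (N / a * (1 + Real.log (a / N))) =
        (A ^ 2 * (N : ℝ) ^ 2 / a) * (4 + 4 * Real.log (a / N)) := by ring
    rw [e2]
    have e3 : ∀ x : ℝ, 2 * A ^ 2 * (N : ℝ) ^ 2 / a * x = (A ^ 2 * (N : ℝ) ^ 2 / a) * (2 * x) := by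
      intro x
      ring
    rcases le_total b (1 / (N : ℝ)) with hbN | hbN
    · have h1 := le_two hN1 ha hb hJc fun β hβ => (hJ β hβ).1
      refine h1.trans ?_
      rw [e3]
      refine mul_le_mul_of_nonneg_left ?_ hc
      have h2 : Real.log (1 + a * b) ≤ Real.log (1 + a / N) := by
        refine Real.log_le_log (by positivity) ?_
        have : a * b ≤ a * (1 / N) := mul_le_mul_of_nonneg_left hbN ha.le
        have e4 : a * (1 / (N : ℝ)) = a / N := by ring
        linarith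
      linarith
    · have h1N : (0 : ℝ) < 1 / N := by positivity
      have h1 := le_two (b := 1 / (N : ℝ)) hN1 ha h1N.le hJc fun β hβ =>
        (hJ β (hβ.trans hbN)).1
      have h2 := le_three hN1 ha hbN hJc fun β hβ => (hJ β hβ).2
      rw [← intervalIntegral.integral_add_adjacent_intervals (le_ii hJc ha 0 (1 / (N : ℝ)))
        (le_ii hJc ha (1 / (N : ℝ)) b)]
      have e4 : a * (1 / (N : ℝ)) = a / N := by ring
      rw [e3, e4] at h1
      have h3 : (A ^ 2 * (N : ℝ) ^ 2 / a) * (2 * Real.log (1 + a / N)) +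
          A ^ 2 * (N : ℝ) ^ 2 / a ≤ (A ^ 2 * (N : ℝ) ^ 2 / a) * (4 + 4 * Real.log (a / N)) := by
        have : (A ^ 2 * (N : ℝ) ^ 2 / a) * (2 * Real.log (1 + a / N) + 1) ≤
            (A ^ 2 * (N : ℝ) ^ 2 / a) * (4 + 4 * Real.log (a / N)) :=
          mul_le_mul_of_nonneg_left (by linarith) hc
        linarith
      linarith

theorem LE_pr : LE := by
  intro N a b A J hN ha hb _ hJc hJ
  have h1 := le_half hN ha hb hJc hJ
  have h2 := le_half (J := fun β => J (-β)) hN ha hb (hJc.comp continuous_neg) fun β hβ => by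
    have := hJ (-β) (by rwa [abs_neg])
    rwa [abs_neg] at this
  have h3 : ∫ β in (0 : ℝ)..b, HC.kk (a * |β|) * ‖J (-β)‖ ^ 2 =
      ∫ β in (-b)..0, HC.kk (a * |β|) * ‖J β‖ ^ 2 := by
    have := intervalIntegral.integral_comp_neg (a := 0) (b := b)
      (fun β => HC.kk (a * |β|) * ‖J β‖ ^ 2)
    simp only [abs_neg, neg_zero] at this
    exact this
  rw [h3] at h2
  rw [← intervalIntegral.integral_add_adjacent_intervals (le_ii hJc ha (-b) 0)
    (le_ii hJc ha 0 b)]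
  linarith

end Pool.Agent.LHM

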