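import Pool.Agent.Lib_helper59.LHM.Wanted

/-!
# LHM, block LF: the sum of the weights
-/

set_option autoImplicit false

namespace Pool.Agent.LHM

open Finset Pool.Agent.Var35 Pool.Agent.Var73 Pool.Agent.PV Pool.Agent.FGP
open scoped ArithmeticFunction ArithmeticFunction.Moebius

private theorem lf_log_le {x : ℝ} (hx : 1 ≤ x) : 1 + Real.log x ≤ 2 * Real.sqrt x := by
  have h0 : 0 < x := by linarith
  have h1 : 0 < Real.sqrt x := Real.sqrt_pos.2 h0
  have h2 : Real.log x = 2 * Real.log (Real.sqrt x) := by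
    rw [Real.log_sqrt h0.le]
    ring
  have h3 := Real.log_le_sub_one_of_pos h1
  rw [h2]
  linarith

private theorem lf_loglog {x : ℝ} (hx : 1 ≤ x) :
    1 + Real.log (1 + Real.log x) ≤ 2 * Real.sqrt (1 + Real.log x) :=
  lf_log_le (by linarith [Real.log_nonneg hx])

/-- `∑ 1 / (m φ(m))` is bounded -/
private theorem lf_sum : ∃ C : ℝ, 0 < C ∧ ∀ S : Finset ℕ, (∀ m ∈ S, 1 ≤ m) →
    ∑ m ∈ S, 1 / ((m : ℝ) * Nat.totient m) ≤ C := by
  obtain ⟨C1, hC1, h1⟩ := rphi_pr
  have hs : Summable fun m : ℕ => 1 / (m : ℝ) ^ (3 / 2 : ℝ) :=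
    Real.summable_one_div_nat_rpow.2 (by norm_num)
  refine ⟨2 * C1 * (∑' m : ℕ, 1 / (m : ℝ) ^ (3 / 2 : ℝ)) + 1, ?_, fun S hS => ?_⟩
  · have : 0 ≤ ∑' m : ℕ, 1 / (m : ℝ) ^ (3 / 2 : ℝ) := tsum_nonneg fun m => by positivity
    positivity
  have hterm : ∀ m ∈ S, 1 / ((m : ℝ) * Nat.totient m) ≤ 2 * C1 * (1 / (m : ℝ) ^ (3 / 2 : ℝ)) := by
    intro m hm
    have hm1 := hS m hm
    have hmr : (1 : ℝ) ≤ m := by exact_mod_cast hm1
    have hm0 : (0 : ℝ) < m := by linarith
    have hph : (0 : ℝ) < Nat.totient m := by exact_mod_cast Nat.totient_pos.2 hm1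
    have h2 := h1 m hm1
    have h3 : 1 + Real.log (1 + Real.log m) ≤ 2 * Real.sqrt m := by
      have h4 : Real.log (1 + Real.log m) ≤ Real.log m := by
        have h5 := Real.log_le_sub_one_of_pos (show (0 : ℝ) < 1 + Real.log m by
          linarith [Real.log_nonneg hmr])
        linarith
      have h6 := lf_log_le hmr
      linarith
    have h7 : (m : ℝ) / Nat.totient m ≤ C1 * (2 * Real.sqrt m) :=
      h2.trans (mul_le_mul_of_nonneg_left h3 hC1.le)
    have h8 : (m : ℝ) ^ (3 / 2 : ℝ) = m * Real.sqrt m := by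
      rw [Real.sqrt_eq_rpow, ← Real.rpow_one_add' hm0.le (by norm_num)]
      norm_num
    have hsq : 0 < Real.sqrt m := Real.sqrt_pos.2 hm0
    have hsq2 : Real.sqrt m * Real.sqrt m = m := Real.mul_self_sqrt hm0.le
    rw [h8, mul_one_div, div_le_div_iff₀ (by positivity) (by positivity)]
    rw [div_le_iff₀ hph] at h7
    calc 1 * ((m : ℝ) * Real.sqrt m) = m * Real.sqrt m := one_mul _
      _ ≤ (C1 * (2 * Real.sqrt m) * Nat.totient m) * Real.sqrt m := by gcongr
      _ = 2 * C1 * ((Real.sqrt m * Real.sqrt m) * Nat.totient m) := by ring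
      _ = 2 * C1 * ((m : ℝ) * Nat.totient m) := by rw [hsq2]
  calc ∑ m ∈ S, 1 / ((m : ℝ) * Nat.totient m) ≤ ∑ m ∈ S, 2 * C1 * (1 / (m : ℝ) ^ (3 / 2 : ℝ)) :=
        sum_le_sum hterm
    _ = 2 * C1 * ∑ m ∈ S, 1 / (m : ℝ) ^ (3 / 2 : ℝ) := by rw [mul_sum]
    _ ≤ 2 * C1 * ∑' m : ℕ, 1 / (m : ℝ) ^ (3 / 2 : ℝ) := by
        refine mul_le_mul_of_nonneg_left ?_ (by positivity)
        exact hs.sum_le_tsum S fun m _ => by positivity
    _ ≤ _ := by linarith

private theorem lf_gg_le {x : ℝ} (hx : 0 < x) : gg x ≤ 1 := by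
  unfold gg
  split_ifs with h
  · exact le_rfl
  · have h1 := Real.log_le_sub_one_of_pos (show (0 : ℝ) < 1 / x by positivity)
    have h2 : x * (1 + Real.log (1 / x)) ≤ x * (1 / x) := by
      refine mul_le_mul_of_nonneg_left ?_ hx.le
      linarith
    rwa [mul_one_div_cancel hx.ne'] at h2

theorem LF_pr : LF := by
  obtain ⟨C1, hC1, h1⟩ := rphi_pr
  obtain ⟨C2, hC2, h2⟩ := lf_sum
  obtain ⟨C3, hC3, h3⟩ := lq_one_upper_pr
  refine ⟨(1 + C3) + 2 * C1 * C2, by positivity, ?_⟩
  intro q R z hz hzR hq hqR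
  have hq0 : (0 : ℝ) < q := by exact_mod_cast hq
  have hz0 : 0 < z := by linarith
  have hR1 : 1 ≤ R := hq.trans hqR
  have hRr : (1 : ℝ) ≤ R := by exact_mod_cast hR1
  have hR0 : (0 : ℝ) < R := by linarith
  have hlR : 0 ≤ Real.log R := Real.log_nonneg hRr
  have hph : (0 : ℝ) < Nat.totient q := by exact_mod_cast Nat.totient_pos.2 hq
  have hRz : 0 ≤ Real.log (R / z) := Real.log_nonneg (by rwa [le_div_iff₀ hz0, one_mul])
  have hm1 : ∀ m ∈ MM q R, 1 ≤ m := fun m hm => (mem_Icc.1 (mem_filter.1 hm).1).1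
  have hG : 1 + Real.log R ≤ Gf R z := by
    unfold Gf
    have : 0 ≤ Real.sqrt (1 + Real.log R) * (1 + Real.log (R / z)) := by positivity
    linarith
  have hG2 : Real.sqrt (1 + Real.log R) * (1 + Real.log (R / z)) ≤ Gf R z := by
    unfold Gf
    linarith
  have hG0 : 0 ≤ Gf R z := by linarith
  rcases le_or_gt (q : ℝ) z with hqz | hqz
  · -- the small `q`
    have hmin : min 1 (z / q) = 1 := min_eq_left (by rwa [le_div_iff₀ hq0, one_mul])
    rw [hmin, mul_one]
    have e1 : FS q R z ≤ (q / Nat.totient q : ℝ) * Lq q (R / q) := by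
      unfold FS Lq MM
      rw [mul_sum]
      refine sum_le_sum fun m hm => ?_
      have hmm : (0 : ℝ) < m := by
        have := (mem_Icc.1 (mem_filter.1 hm).1).1
        exact_mod_cast this
      unfold Wt2
      have h4 := lf_gg_le (show 0 < z / ((q : ℝ) * m) by positivity)
      have h5 : 0 ≤ (q / Nat.totient q : ℝ) * (1 / (Nat.totient m : ℝ)) := by positivity
      calc (q / Nat.totient q : ℝ) * (1 / (Nat.totient m : ℝ)) * gg (z / (q * m)) ≤
            (q / Nat.totient q : ℝ) * (1 / (Nat.totient m : ℝ)) * 1 :=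
            mul_le_mul_of_nonneg_left h4 h5
        _ = _ := mul_one _
    have h5 : 1 ≤ q * (R / q) := by
      have : 1 ≤ R / q := (Nat.one_le_div_iff hq).2 hqR
      exact Nat.one_le_iff_ne_zero.2 (Nat.mul_ne_zero (by omega) (by omega))
    have e2 : (q / Nat.totient q : ℝ) * Lq q (R / q) ≤ Real.log R + C3 := by
      have h6 := lq_upper_pr q (R / q) hq
      have h7 := h3 _ h5
      have h8 : Real.log ((q * (R / q) : ℕ) : ℝ) ≤ Real.log R := by
        apply Real.log_le_log (by exact_mod_cast h5)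
        exact_mod_cast Nat.mul_div_le R q
      calc (q / Nat.totient q : ℝ) * Lq q (R / q) ≤
            (q / Nat.totient q : ℝ) * ((Nat.totient q / q : ℝ) * Lq 1 (q * (R / q))) := by gcongr
        _ = Lq 1 (q * (R / q)) := by field_simp
        _ ≤ Real.log ((q * (R / q) : ℕ) : ℝ) + C3 := h7
        _ ≤ Real.log R + C3 := by linarith
    calc FS q R z ≤ Real.log R + C3 := e1.trans e2
      _ ≤ (1 + C3) * (1 + Real.log R) := by nlinarith
      _ ≤ (1 + C3) * Gf R z := by gcongr
      _ ≤ ((1 + C3) + 2 * C1 * C2) * Gf R z := by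
          refine mul_le_mul_of_nonneg_right ?_ hG0
          have : 0 ≤ 2 * C1 * C2 := by positivity
          linarith
  · -- the large `q`
    have hmin : min 1 (z / q) = z / q := min_eq_right (by
      rw [div_le_one hq0]
      exact hqz.le)
    rw [hmin]
    have hA : (q : ℝ) / Nat.totient q ≤ C1 * (2 * Real.sqrt (1 + Real.log R)) := by
      refine (h1 q hq).trans (mul_le_mul_of_nonneg_left ?_ hC1.le)
      have hqr : (1 : ℝ) ≤ q := by exact_mod_cast hq
      refine (lf_loglog hqr).trans ?_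
      have h4 : Real.log q ≤ Real.log R := Real.log_le_log hq0 (by exact_mod_cast hqR)
      have h5 : Real.sqrt (1 + Real.log q) ≤ Real.sqrt (1 + Real.log R) :=
        Real.sqrt_le_sqrt (by linarith)
      linarith
    have hterm : ∀ m ∈ MM q R, Wt2 q m * gg (z / (q * m)) ≤
        (z / q) * ((q : ℝ) / Nat.totient q) * (1 + Real.log (R / z)) *
          (1 / ((m : ℝ) * Nat.totient m)) := by
      intro m hm
      have hm1' := hm1 m hm
      have hmm : (0 : ℝ) < m := by exact_mod_cast hm1'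
      have hmr : (1 : ℝ) ≤ m := by exact_mod_cast hm1'
      have hpm : (0 : ℝ) < Nat.totient m := by exact_mod_cast Nat.totient_pos.2 hm1'
      have hqm : (q : ℝ) * m ≤ R := by
        have h4 : m ≤ R / q := (mem_Icc.1 (mem_filter.1 hm).1).2
        have h5 : q * m ≤ R := (Nat.mul_le_mul_left q h4).trans (Nat.mul_div_le R q)
        exact_mod_cast h5
      have hlt : z < (q : ℝ) * m := by nlinarith
      have hgg : gg (z / (q * m)) ≤ z / (q * m) * (1 + Real.log (R / z)) := by
        unfold gg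
        rw [if_neg (by
          rw [not_le, div_lt_one (by positivity)]
          exact hlt)]
        refine mul_le_mul_of_nonneg_left ?_ (by positivity)
        have h6 : (1 : ℝ) / (z / (q * m)) = q * m / z := by
          rw [one_div_div]
        rw [h6]
        have h7 : Real.log (q * m / z) ≤ Real.log (R / z) :=
          Real.log_le_log (by positivity) (by gcongr)
        linarith
      unfold Wt2
      have h8 : 0 ≤ (q / Nat.totient q : ℝ) * (1 / (Nat.totient m : ℝ)) := by positivity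
      calc (q / Nat.totient q : ℝ) * (1 / (Nat.totient m : ℝ)) * gg (z / (q * m)) ≤
            (q / Nat.totient q : ℝ) * (1 / (Nat.totient m : ℝ)) *
              (z / (q * m) * (1 + Real.log (R / z))) := mul_le_mul_of_nonneg_left hgg h8
        _ = _ := by
            field_simp
    calc FS q R z = ∑ m ∈ MM q R, Wt2 q m * gg (z / (q * m)) := rfl
      _ ≤ ∑ m ∈ MM q R, (z / q) * ((q : ℝ) / Nat.totient q) * (1 + Real.log (R / z)) *
          (1 / ((m : ℝ) * Nat.totient m)) := sum_le_sum hterm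
      _ = (z / q) * ((q : ℝ) / Nat.totient q) * (1 + Real.log (R / z)) *
          ∑ m ∈ MM q R, 1 / ((m : ℝ) * Nat.totient m) := by rw [mul_sum]
      _ ≤ (z / q) * (C1 * (2 * Real.sqrt (1 + Real.log R))) * (1 + Real.log (R / z)) * C2 := by
          have h9 := h2 (MM q R) hm1
          gcongr
      _ = 2 * C1 * C2 * (z / q) *
          (Real.sqrt (1 + Real.log R) * (1 + Real.log (R / z))) := by ring
      _ ≤ 2 * C1 * C2 * (z / q) * Gf R z := by gcongr
      _ ≤ ((1 + C3) + 2 * C1 * C2) * (z / q) * Gf R z := by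
          refine mul_le_mul_of_nonneg_right ?_ hG0
          refine mul_le_mul_of_nonneg_right ?_ (by positivity)
          linarith

example : LF := LF_pr

end Pool.Agent.LHM
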