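import Pool.Agent.Lib_helper59.LHM.Wanted
import Pool.Agent.Lib_helper3.FGP.P03

/-!
# LHM, block LJ (helper59): the defect is at most the gain plus the energy
-/

set_option autoImplicit false

namespace Pool.Agent.LHM

open Finset Pool.Agent.Var35 Pool.Agent.Var73 Pool.Agent.PV Pool.Agent.FGP
open scoped ArithmeticFunction ArithmeticFunction.Moebius

theorem lj_EX_nonneg (c : ℝ) (N K : ℕ) (n : ℤ) : 0 ≤ EX c N K n := by
  unfold EX
  have : 0 ≤ ∑ q ∈ Ioc 1 K, ∑ ψ ∈ Pr q, ‖TX c ψ N K n‖ ^ 2 :=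
    sum_nonneg fun _ _ => sum_nonneg fun _ _ => by positivity
  positivity

theorem lj_EEX_nonneg (c : ℝ) (N K : ℕ) : 0 ≤ EEX c N K :=
  sum_nonneg fun n _ => lj_EX_nonneg c N K n

theorem lj_Vx_nonneg {q : ℕ} (c : ℝ) (ψ : DirichletCharacter ℂ q) (N K : ℕ) : 0 ≤ Vx c ψ N K :=
  sum_nonneg fun _ _ => by positivity

theorem lj_sumV (c : ℝ) {N K R : ℕ} (hR : R ≤ K) :
    ∑ q ∈ Ioc 1 R, ∑ ψ ∈ Pr q, Vx c ψ N K ≤ EEX c N K := by
  have h1 : ∑ q ∈ Ioc 1 R, ∑ ψ ∈ Pr q, Vx c ψ N K ≤ ∑ q ∈ Ioc 1 K, ∑ ψ ∈ Pr q, Vx c ψ N K :=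
    sum_le_sum_of_subset_of_nonneg (Ioc_subset_Ioc_right hR)
      fun q _ _ => sum_nonneg fun ψ _ => lj_Vx_nonneg c ψ N K
  refine h1.trans ?_
  have h2 : ∑ q ∈ Ioc 1 K, ∑ ψ ∈ Pr q, Vx c ψ N K =
      ∑ n ∈ Icc (1 - (Mw N K : ℤ)) ((N : ℤ) + Mw N K), ∑ q ∈ Ioc 1 K, ∑ ψ ∈ Pr q,
        ‖TX c ψ N K n‖ ^ 2 := by
    unfold Vx
    rw [sum_congr rfl fun q _ => (sum_comm (s := Pr q)
      (t := Icc (1 - (Mw N K : ℤ)) ((N : ℤ) + Mw N K)) (f := fun ψ n => ‖TX c ψ N K n‖ ^ 2))]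
    exact sum_comm
  rw [h2]
  unfold EEX EX
  exact sum_le_sum fun n _ => le_add_of_nonneg_right (sq_nonneg _)

theorem lj_card {R K : ℕ} (hR : R ≤ K) (x : ℝ) (hx : 0 ≤ x) :
    ∑ q ∈ Ioc 1 R, ∑ _ψ ∈ Pr q, x ≤ (K : ℝ) ^ 2 * x := by
  have h1 : ∑ q ∈ Ioc 1 R, ∑ _ψ ∈ Pr q, x ≤ ∑ q ∈ Ioc 1 R, (K : ℝ) * x := by
    refine sum_le_sum fun q hq => ?_
    rw [mem_Ioc] at hq
    rw [sum_const, nsmul_eq_mul]
    have h2 := p03_card_Pr q (by omega)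
    have h3 : (q : ℝ) ≤ K := by exact_mod_cast hq.2.trans hR
    exact mul_le_mul_of_nonneg_right (h2.trans h3) hx
  refine h1.trans ?_
  rw [sum_const, Nat.card_Ioc, nsmul_eq_mul]
  have h2 : ((R - 1 : ℕ) : ℝ) ≤ K := by
    have : R - 1 ≤ K := by omega
    exact_mod_cast this
  have h3 : 0 ≤ (K : ℝ) * x := by positivity
  calc ((R - 1 : ℕ) : ℝ) * (K * x) ≤ K * (K * x) := mul_le_mul_of_nonneg_right h2 h3
    _ = _ := by ring

theorem LJ_pr (c₀ : ℝ) (hLA : LA) (hLB : LB) (hLC : LC c₀) (hLG : LG) (hLI : LI c₀) : LJ c₀ := by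
  obtain ⟨C3, c₂, hC3, hc₂, hc₂1, K03, h3⟩ := hLC
  obtain ⟨C2, hC2, K02, h2⟩ := hLB c₂ hc₂
  obtain ⟨C5, κ, hC5, hκ, hκ1, K05, h5⟩ := hLI c₂ hc₂ hc₂1
  refine ⟨2 * C3 + C5, κ / 2, by positivity, by positivity, fun η hη => ?_⟩
  obtain ⟨CA, hA⟩ := hLA (η / 4) (by positivity)
  -- the threshold for K
  obtain ⟨K1, hK1⟩ := exists_nat_ge (max (max (K02 : ℝ) K03) (max (K05 : ℝ)
    (max (8 * C2 / η) (8 * C5 / η))) + 10)
  -- the threshold for X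
  have hlim : Filter.Tendsto (fun X : ℝ => Real.log X) Filter.atTop Filter.atTop :=
    Real.tendsto_log_atTop
  obtain ⟨X1, hX1⟩ := Filter.eventually_atTop.1 (hlim.eventually (Filter.eventually_ge_atTop
    ((K1 : ℝ) * 2 + 10)))
  have hroot : Filter.Tendsto (fun X : ℝ => X ^ (4 / 10 : ℝ)) Filter.atTop Filter.atTop :=
    tendsto_rpow_atTop (by norm_num)
  have hlo := isLittleO_log_rpow_rpow_atTop (s := (4 / 10 : ℝ)) 12 (by norm_num)
  obtain ⟨X2, hX2⟩ := Filter.eventually_atTop.1 (hlo.bound (show (0 : ℝ) < 1 by norm_num))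
  refine ⟨max (max CA X1) (max X2 10), fun X Y K hX hXY hYX hRg hK hG => ?_⟩
  have a1 : CA ≤ X := ((le_max_left _ _).trans (le_max_left _ _)).trans hX
  have a2 : X1 ≤ X := ((le_max_right _ _).trans (le_max_left _ _)).trans hX
  have a3 : X2 ≤ X := ((le_max_left _ _).trans (le_max_right _ _)).trans hX
  have a4 : 10 ≤ X := ((le_max_right _ _).trans (le_max_right _ _)).trans hX
  have hX0 : 0 < X := by linarith
  have hL : (K1 : ℝ) * 2 + 10 ≤ Real.log X := hX1 X a2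
  have hL10 : 10 ≤ Real.log X := by
    have : (0 : ℝ) ≤ K1 := Nat.cast_nonneg _
    linarith
  set L := Real.log X with hLd
  set N := ⌊X⌋₊ with hNd
  set R := MF.RR X Y with hRd
  -- Y
  have hYpos : 0 < (Y : ℝ) := lt_of_lt_of_le (Real.rpow_pos_of_pos hX0 _) hXY
  have hY1 : 1 ≤ Y := by
    have : 0 < Y := by exact_mod_cast hYpos
    omega
  have hY1R : (1 : ℝ) ≤ Y := by exact_mod_cast hY1
  have hsqrt : Real.sqrt X * L ^ 12 ≤ Y := by
    have h6 := hX2 X a3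
    rw [one_mul, Real.norm_of_nonneg (Real.rpow_nonneg (by linarith) _),
      Real.norm_of_nonneg (Real.rpow_nonneg hX0.le _)] at h6
    have h7 : L ^ (12 : ℝ) = L ^ 12 := by
      rw [← Real.rpow_natCast]; norm_num
    rw [h7] at h6
    calc Real.sqrt X * L ^ 12 ≤ Real.sqrt X * X ^ (4 / 10 : ℝ) := by gcongr
      _ = X ^ (9 / 10 : ℝ) := by
          rw [Real.sqrt_eq_rpow, ← Real.rpow_add hX0]; norm_num
      _ ≤ Y := hXY
  -- N
  have hNX : (N : ℝ) ≤ X := Nat.floor_le hX0.le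
  have hNX2 : X < N + 1 := Nat.lt_floor_add_one X
  have hN9 : (9 : ℝ) ≤ N := by linarith
  have hN0 : (0 : ℝ) < N := by linarith
  have hYN : Y ≤ N := Nat.le_floor hYX
  have hLN1 : Real.log N ≤ L := Real.log_le_log hN0 hNX
  have hLN2 : L ≤ 2 * Real.log N := by
    have h6 : X ≤ (N : ℝ) ^ 2 := by nlinarith
    calc L ≤ Real.log ((N : ℝ) ^ 2) := Real.log_le_log hX0 h6
      _ = 2 * Real.log N := by rw [Real.log_pow]; norm_num
  have hLN0 : 5 ≤ Real.log N := by linarith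
  -- K is large
  have hKK1 : (K1 : ℝ) ≤ K := by
    have h6 : (1 : ℝ) ≤ Real.log N := by linarith
    have h7 : Real.log N ≤ Real.log N ^ 100 := le_self_pow₀ h6 (by norm_num)
    have h8 := hRg.hL
    linarith
  have hKm : max (max (K02 : ℝ) K03) (max (K05 : ℝ) (max (8 * C2 / η) (8 * C5 / η))) + 10 ≤ K :=
    hK1.trans hKK1
  have hK02 : K02 ≤ K := by
    have : (K02 : ℝ) ≤ K := by
      have := ((le_max_left (K02 : ℝ) K03).trans (le_max_left _ (max (K05 : ℝ)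
        (max (8 * C2 / η) (8 * C5 / η)))))
      linarith
    exact_mod_cast this
  have hK03 : K03 ≤ K := by
    have : (K03 : ℝ) ≤ K := by
      have := ((le_max_right (K02 : ℝ) K03).trans (le_max_left _ (max (K05 : ℝ)
        (max (8 * C2 / η) (8 * C5 / η)))))
      linarith
    exact_mod_cast this
  have hK05 : K05 ≤ K := by
    have : (K05 : ℝ) ≤ K := by
      have := ((le_max_left (K05 : ℝ) (max (8 * C2 / η) (8 * C5 / η))).trans
        (le_max_right (max (K02 : ℝ) K03) _))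
      linarith
    exact_mod_cast this
  have hKC2 : 8 * C2 / η ≤ K := by
    have := ((le_max_left (8 * C2 / η) (8 * C5 / η)).trans
      ((le_max_right (K05 : ℝ) _).trans (le_max_right (max (K02 : ℝ) K03) _)))
    linarith
  have hKC5 : 8 * C5 / η ≤ K := by
    have := ((le_max_right (8 * C2 / η) (8 * C5 / η)).trans
      ((le_max_right (K05 : ℝ) _).trans (le_max_right (max (K02 : ℝ) K03) _)))
    linarith
  have hK10 : (10 : ℝ) ≤ K := by exact_mod_cast hRg.hK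
  have hK0 : (0 : ℝ) < K := by linarith
  have hNK : (K : ℝ) ^ 400 ≤ N := by exact_mod_cast hRg.hN
  -- R
  have hz : 1 ≤ X / Y := by rw [le_div_iff₀ hYpos]; linarith
  have hL8 : (10 : ℝ) ≤ L ^ 8 := by
    calc (10 : ℝ) ≤ L := hL10
      _ ≤ L ^ 8 := le_self_pow₀ (by linarith) (by norm_num)
  have hzL : 10 ≤ X / Y * L ^ 8 := by nlinarith
  have hR1 : (R : ℝ) ≤ X / Y * L ^ 8 := Nat.floor_le (by linarith)
  have hR2 : X / Y * L ^ 8 < R + 1 := Nat.lt_floor_add_one _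
  have hR2' : 2 ≤ R := by
    have : (2 : ℝ) ≤ R := by linarith
    exact_mod_cast this
  have hRK : R ≤ K := by
    have : (R : ℝ) ≤ K := hR1.trans hK
    exact_mod_cast this
  have hNRY : N ≤ R * Y := by
    have h6 : X / Y ≤ R := by nlinarith
    have h7 : X ≤ R * Y := by rwa [div_le_iff₀ hYpos] at h6
    have : (N : ℝ) ≤ ((R * Y : ℕ) : ℝ) := by push_cast; linarith
    exact_mod_cast this
  have hNY2 : N ≤ Y ^ 2 := by
    have h6 : X ≤ (Y : ℝ) ^ 2 := by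
      have h7 : X ^ (9 / 10 : ℝ) * X ^ (9 / 10 : ℝ) ≤ Y * Y := by gcongr
      have h8 : X ≤ X ^ (9 / 10 : ℝ) * X ^ (9 / 10 : ℝ) := by
        rw [← Real.rpow_add hX0]
        calc X = X ^ (1 : ℝ) := (Real.rpow_one X).symm
          _ ≤ _ := Real.rpow_le_rpow_of_exponent_le (by linarith) (by norm_num)
      nlinarith
    have : (N : ℝ) ≤ ((Y ^ 2 : ℕ) : ℝ) := by push_cast; linarith
    exact_mod_cast this
  have hGf : Gf R (N / Y) ≤ κ * Real.log N := by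
    refine hG.trans ?_
    nlinarith
  -- the arcs
  have hw : ∀ r ∈ Icc 1 R, 0 ≤ MF.wd X Y r ∧ 2 * MF.wd X Y r * r * R ≤ 1 := by
    intro r hr
    rw [mem_Icc] at hr
    have hr0 : (0 : ℝ) < r := by exact_mod_cast hr.1
    unfold MF.wd
    rw [← hLd]
    have hden : 0 < X * L ^ 8 := by positivity
    refine ⟨by positivity, ?_⟩
    have h6 : 2 * (Y / (2 * r * (X * L ^ 8))) * r * R = Y * R / (X * L ^ 8) := by
      field_simp
    rw [h6, div_le_one hden]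
    calc (Y : ℝ) * R ≤ Y * (X / Y * L ^ 8) := by gcongr
      _ = X * L ^ 8 := by field_simp
  -- the chain
  have e1 := hA X Y a1 hsqrt hYX
  rw [← hNd, ← hRd] at e1
  have e2 := h2 K hK02 N Y R hRg hY1 hYN hR2' hRK (MF.wd X Y) hw
  have e3 := h3 K hK03 N Y R hRg hY1 hYN hR2' hRK
  have e5 : ∑ q ∈ Ioc 1 R, ∑ ψ ∈ Pr q, 4 * Y * JP c₀ ψ N K Y R (c₂ * K ^ 8 / N) ≤
      ∑ q ∈ Ioc 1 R, ∑ ψ ∈ Pr q,
        (Gn ψ N Y + C5 * Y * Real.log N * (Vx c₀ ψ N K + Real.log N ^ 2)) :=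
    sum_le_sum fun q hq => sum_le_sum fun ψ hψ =>
      h5 K hK05 N Y R hRg hYN hNY2 hR2' hRK hNRY hGf q hq ψ hψ
  have e6 : ∑ q ∈ Ioc 1 R, ∑ ψ ∈ Pr q, 4 * Y * JP c₀ ψ N K Y R (c₂ * K ^ 8 / N) =
      2 * (2 * Y * ∑ q ∈ Ioc 1 R, ∑ ψ ∈ Pr q, JP c₀ ψ N K Y R (c₂ * K ^ 8 / N)) := by
    rw [mul_sum, mul_sum]
    refine sum_congr rfl fun q _ => ?_
    rw [mul_sum, mul_sum]
    refine sum_congr rfl fun ψ _ => ?_
    ring
  have e7 : ∑ q ∈ Ioc 1 R, ∑ ψ ∈ Pr q,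
        (Gn ψ N Y + C5 * Y * Real.log N * (Vx c₀ ψ N K + Real.log N ^ 2)) =
      ∑ q ∈ Ioc 1 R, ∑ ψ ∈ Pr q, Gn ψ N Y +
      C5 * Y * Real.log N * (∑ q ∈ Ioc 1 R, ∑ ψ ∈ Pr q, Vx c₀ ψ N K) +
      ∑ q ∈ Ioc 1 R, ∑ _ψ ∈ Pr q, C5 * Y * Real.log N ^ 3 := by
    rw [mul_sum, ← sum_add_distrib, ← sum_add_distrib]
    refine sum_congr rfl fun q _ => ?_
    rw [mul_sum, ← sum_add_distrib, ← sum_add_distrib]
    refine sum_congr rfl fun ψ _ => ?_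
    ring
  have e8 := hLG X Y R (by linarith) hYX hY1 hR1
  rw [← hNd] at e8
  have e9 : C5 * Y * Real.log N * (∑ q ∈ Ioc 1 R, ∑ ψ ∈ Pr q, Vx c₀ ψ N K) ≤
      C5 * Y * Real.log N * EEX c₀ N K :=
    mul_le_mul_of_nonneg_left (lj_sumV c₀ hRK) (by positivity)
  have e10 := lj_card hRK (C5 * Y * Real.log N ^ 3) (by positivity)
  have hE0 := lj_EEX_nonneg c₀ N K
  have e11 : (2 * C3 + C5) * Y * Real.log N * EEX c₀ N K ≤ (2 * C3 + C5) * Y * L * EEX c₀ N K := by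
    gcongr
  -- the small terms
  have hXYK : X ≤ K * Y := by
    have h6 : X / Y ≤ K := le_trans (by nlinarith) hK
    rwa [div_le_iff₀ hYpos] at h6
  have e12 : 2 * (C2 * N ^ 2 / (K : ℝ) ^ 5) ≤ η / 4 * X * Y := by
    rw [div_le_iff₀ hη] at hKC2
    have h6 : 2 * (C2 * N ^ 2 / (K : ℝ) ^ 5) ≤ 2 * (C2 * (X * (K * Y)) / (K : ℝ) ^ 5) := by
      have h7 : (N : ℝ) ^ 2 ≤ X * (K * Y) := by
        rw [sq]
        exact mul_le_mul hNX (hNX.trans hXYK) hN0.le hX0.le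
      gcongr
    refine h6.trans ?_
    have h8 : 2 * (C2 * (X * (K * Y)) / (K : ℝ) ^ 5) = 2 * C2 / K ^ 4 * (X * Y) := by
      field_simp
    rw [h8]
    have h9 : 2 * C2 / K ^ 4 ≤ η / 4 := by
      rw [div_le_iff₀ (by positivity)]
      have h10 : (K : ℝ) ≤ K ^ 4 := le_self_pow₀ (by linarith) (by norm_num)
      nlinarith
    calc 2 * C2 / K ^ 4 * (X * Y) ≤ η / 4 * (X * Y) := by gcongr
      _ = _ := by ring
  have e13 : (K : ℝ) ^ 2 * (C5 * Y * Real.log N ^ 3) ≤ η / 4 * X * Y := by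
    rw [div_le_iff₀ hη] at hKC5
    have h6 : Real.log N ^ 3 ≤ K := by
      have h7 : (1 : ℝ) ≤ Real.log N := by linarith
      exact (pow_le_pow_right₀ h7 (by norm_num)).trans hRg.hL
    have h8 : (K : ℝ) ^ 2 * (C5 * Y * Real.log N ^ 3) ≤ (K : ℝ) ^ 2 * (C5 * Y * K) := by gcongr
    have h9 : (K : ℝ) ^ 4 ≤ X := by
      have h10 : (K : ℝ) ^ 4 ≤ (K : ℝ) ^ 400 := pow_le_pow_right₀ (by linarith) (by norm_num)
      linarith
    calc (K : ℝ) ^ 2 * (C5 * Y * Real.log N ^ 3) ≤ (K : ℝ) ^ 2 * (C5 * Y * K) := h8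
      _ = C5 * K ^ 3 * Y := by ring
      _ ≤ (η / 4 * K) * K ^ 3 * Y := by
          have h11 : C5 ≤ η / 4 * K := by nlinarith
          gcongr
      _ = η / 4 * (K : ℝ) ^ 4 * Y := by ring
      _ ≤ η / 4 * X * Y := by gcongr
  have e14 : 0 ≤ η / 4 * X * Y := by positivity
  have f1 : 2 * DA N Y R (MF.wd X Y) ≤ 2 * (C3 * Y * Real.log N * EEX c₀ N K) +
      2 * (2 * Y * ∑ q ∈ Ioc 1 R, ∑ ψ ∈ Pr q, JP c₀ ψ N K Y R (c₂ * K ^ 8 / N)) +
      2 * (C2 * N ^ 2 / (K : ℝ) ^ 5) := by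
    linarith
  have f2 : 2 * (2 * Y * ∑ q ∈ Ioc 1 R, ∑ ψ ∈ Pr q, JP c₀ ψ N K Y R (c₂ * K ^ 8 / N)) ≤
      ∑ Q ∈ Icc 1 Y, HC.LX X Q (X / Q * Real.log X ^ 8) + C5 * Y * Real.log N * EEX c₀ N K +
        (K : ℝ) ^ 2 * (C5 * Y * Real.log N ^ 3) := by
    rw [← e6]
    refine e5.trans ?_
    rw [e7]
    linarith
  have f3 : 2 * (C3 * Y * Real.log N * EEX c₀ N K) + C5 * Y * Real.log N * EEX c₀ N K =
      (2 * C3 + C5) * Y * Real.log N * EEX c₀ N K := by ring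
  calc MF.DD X Y ≤ 2 * DA N Y R (MF.wd X Y) + η / 4 * X * Y := e1
    _ ≤ ∑ Q ∈ Icc 1 Y, HC.LX X Q (X / Q * Real.log X ^ 8) +
        (2 * C3 + C5) * Y * L * EEX c₀ N K + (η / 4 * X * Y + η / 4 * X * Y + η / 4 * X * Y) := by
        linarith
    _ ≤ _ := by
        have : η / 4 * X * Y + η / 4 * X * Y + η / 4 * X * Y ≤ η * X * Y := by
          have : η * X * Y = 4 * (η / 4 * X * Y) := by ring
          linarith
        linarith

end Pool.Agent.LHM
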