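import Pool.Agent.Lib_helper59.LHM.Wanted
import Pool.Agent.Lib_helper59.LHM.LJ
import Pool.Agent.Lib_helper59.MFF.F1b

/-!
# LHM, block LFIN (helper59): the lower half of the mean
-/

set_option autoImplicit false

namespace Pool.Agent.LHM

open Finset Filter Pool.Agent.Var35 Pool.Agent.Var73 Pool.Agent.PV Pool.Agent.FGP
open scoped ArithmeticFunction ArithmeticFunction.Moebius

theorem lf_log_le_sqrt {x : ℝ} (hx : 0 < x) : Real.log x ≤ 2 * Real.sqrt x := by
  have h := Real.log_le_sub_one_of_pos (Real.sqrt_pos.2 hx)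
  rw [Real.log_sqrt hx.le] at h
  linarith

/-- the asymptotic facts -/
theorem lf_ev (c c₁ A η : ℝ) (hc : 0 < c) (hc10 : c ≤ 1 / 10) (hc₁ : 0 < c₁)
    (hA : 0 < A) (hη : 0 < η) (K0 : ℕ) : ∃ X₀ : ℝ, 10 ≤ X₀ ∧ ∀ X : ℝ, X₀ ≤ X →
    10 ≤ Real.log X ∧ (K0 : ℝ) ≤ Real.log X ∧
    X ^ (2 * c) + Real.log X ^ 100 + 2 ≤ X ^ (3 * c) ∧
    Real.sqrt X * Real.log X ^ 12 ≤ X ^ (1 - c) ∧
    8 * Real.log (Real.log X) ≤ c * Real.log X ∧
    1 ≤ c * Real.log X ∧
    Real.sqrt (1 + 2 * (c * Real.log X)) * (2 + 8 * Real.log (Real.log X)) ≤ c * Real.log X ∧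
    4 * A / η ≤ Real.log X ∧
    A * Real.log X * Real.exp (-(c₁ * Real.log X / (400 * Real.log (Real.log X)))) ≤ η / 4 := by
  have hL : Tendsto (fun X : ℝ => Real.log X) atTop atTop := Real.tendsto_log_atTop
  have e1 : ∀ᶠ X : ℝ in atTop, 10 ≤ Real.log X := hL.eventually (eventually_ge_atTop 10)
  have e2 : ∀ᶠ X : ℝ in atTop, (K0 : ℝ) ≤ Real.log X := hL.eventually (eventually_ge_atTop _)
  have e3 : ∀ᶠ X : ℝ in atTop, X ^ (2 * c) + Real.log X ^ 100 + 2 ≤ X ^ (3 * c) := by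
    have a1 : ∀ᶠ X : ℝ in atTop, Real.log X ^ (100 : ℝ) ≤ X ^ (2 * c) := by
      have := (isLittleO_log_rpow_rpow_atTop (s := 2 * c) 100 (by linarith)).bound
        (show (0 : ℝ) < 1 by norm_num)
      filter_upwards [this, eventually_ge_atTop (1 : ℝ)] with X hX hX1
      rwa [one_mul, Real.norm_of_nonneg (Real.rpow_nonneg (Real.log_nonneg hX1) _),
        Real.norm_of_nonneg (Real.rpow_nonneg (by linarith) _)] at hX
    have a2 : ∀ᶠ X : ℝ in atTop, 4 ≤ X ^ c := (tendsto_rpow_atTop hc).eventually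
      (eventually_ge_atTop 4)
    filter_upwards [a1, a2, eventually_ge_atTop (1 : ℝ)] with X h1 h2 h3
    have h4 : Real.log X ^ (100 : ℝ) = Real.log X ^ 100 := by
      rw [← Real.rpow_natCast]; norm_num
    rw [h4] at h1
    have h5 : X ^ (3 * c) = X ^ (2 * c) * X ^ c := by
      rw [← Real.rpow_add (by linarith)]; ring_nf
    have h6 : 1 ≤ X ^ (2 * c) := Real.one_le_rpow h3 (by linarith)
    rw [h5]
    nlinarith
  have e4 : ∀ᶠ X : ℝ in atTop, Real.sqrt X * Real.log X ^ 12 ≤ X ^ (1 - c) := by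
    have := (isLittleO_log_rpow_rpow_atTop (s := (1 / 2 - c)) 12 (by linarith)).bound
        (show (0 : ℝ) < 1 by norm_num)
    filter_upwards [this, eventually_ge_atTop (1 : ℝ)] with X hX hX1
    rw [one_mul, Real.norm_of_nonneg (Real.rpow_nonneg (Real.log_nonneg hX1) _),
        Real.norm_of_nonneg (Real.rpow_nonneg (by linarith) _)] at hX
    have h4 : Real.log X ^ (12 : ℝ) = Real.log X ^ 12 := by
      rw [← Real.rpow_natCast]; norm_num
    rw [h4] at hX
    calc Real.sqrt X * Real.log X ^ 12 ≤ Real.sqrt X * X ^ (1 / 2 - c) := by gcongr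
      _ = X ^ (1 - c) := by
          rw [Real.sqrt_eq_rpow, ← Real.rpow_add (by linarith)]
          ring_nf
  have e5' : ∀ᶠ L : ℝ in atTop, 8 * Real.log L ≤ c * L := by
    have := (Real.isLittleO_log_id_atTop).bound (show (0 : ℝ) < c / 8 by positivity)
    filter_upwards [this, eventually_ge_atTop (1 : ℝ)] with L hL hL1
    rw [Real.norm_of_nonneg (Real.log_nonneg hL1), id, Real.norm_of_nonneg (by linarith)] at hL
    linarith
  have e5 : ∀ᶠ X : ℝ in atTop, 8 * Real.log (Real.log X) ≤ c * Real.log X := hL.eventually e5'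
  have e6 : ∀ᶠ X : ℝ in atTop, 1 ≤ c * Real.log X := by
    filter_upwards [hL.eventually (eventually_ge_atTop (1 / c))] with X hX
    rw [div_le_iff₀ hc] at hX
    linarith
  have e7' : ∀ᶠ L : ℝ in atTop, Real.sqrt (1 + 2 * (c * L)) * (2 + 8 * Real.log L) ≤ c * L := by
    -- `log L ≤ 4 L^(1/4)`, so the left side is `O(L^(3/4))`
    have a1 : ∀ᶠ L : ℝ in atTop, 200 / c ≤ L ^ (1 / 4 : ℝ) :=
      (tendsto_rpow_atTop (by norm_num)).eventually (eventually_ge_atTop _)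
    filter_upwards [a1, eventually_ge_atTop (1 : ℝ)] with L h1 h2
    have hL0 : 0 < L := by linarith
    have b1 : Real.log L ≤ 4 * L ^ (1 / 4 : ℝ) := by
      have := Real.log_le_rpow_div hL0.le (show (0 : ℝ) < 1 / 4 by norm_num)
      linarith
    have b2 : 1 ≤ L ^ (1 / 4 : ℝ) := Real.one_le_rpow h2 (by norm_num)
    have b3 : Real.sqrt (1 + 2 * (c * L)) ≤ 2 * Real.sqrt L := by
      have : 1 + 2 * (c * L) ≤ 4 * L := by nlinarith
      calc Real.sqrt (1 + 2 * (c * L)) ≤ Real.sqrt (4 * L) := Real.sqrt_le_sqrt this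
        _ = 2 * Real.sqrt L := by
            rw [Real.sqrt_mul (by norm_num)]
            have : Real.sqrt 4 = 2 := by
              rw [show (4 : ℝ) = 2 ^ 2 by norm_num, Real.sqrt_sq (by norm_num)]
            rw [this]
    have b4 : 2 + 8 * Real.log L ≤ 34 * L ^ (1 / 4 : ℝ) := by linarith
    have b5 : 0 ≤ 2 + 8 * Real.log L := by
      have := Real.log_nonneg h2
      linarith
    have b6 : Real.sqrt L = L ^ (1 / 4 : ℝ) * L ^ (1 / 4 : ℝ) := by
      rw [← Real.rpow_add hL0, Real.sqrt_eq_rpow]; norm_num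
    have b7 : L = L ^ (1 / 4 : ℝ) * (L ^ (1 / 4 : ℝ) * L ^ (1 / 4 : ℝ) * L ^ (1 / 4 : ℝ)) := by
      rw [← Real.rpow_add hL0, ← Real.rpow_add hL0, ← Real.rpow_add hL0]; norm_num
    rw [div_le_iff₀ hc] at h1
    calc Real.sqrt (1 + 2 * (c * L)) * (2 + 8 * Real.log L) ≤
        (2 * Real.sqrt L) * (34 * L ^ (1 / 4 : ℝ)) := by gcongr
      _ = 68 * (L ^ (1 / 4 : ℝ) * L ^ (1 / 4 : ℝ) * L ^ (1 / 4 : ℝ)) := by rw [b6]; ring
      _ ≤ (L ^ (1 / 4 : ℝ) * c) * (L ^ (1 / 4 : ℝ) * L ^ (1 / 4 : ℝ) * L ^ (1 / 4 : ℝ)) := by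
          gcongr
          linarith
      _ = c * (L ^ (1 / 4 : ℝ) * (L ^ (1 / 4 : ℝ) * L ^ (1 / 4 : ℝ) * L ^ (1 / 4 : ℝ))) := by ring
      _ = c * L := by rw [← b7]
  have e7 : ∀ᶠ X : ℝ in atTop, Real.sqrt (1 + 2 * (c * Real.log X)) *
      (2 + 8 * Real.log (Real.log X)) ≤ c * Real.log X := hL.eventually e7'
  have e8 : ∀ᶠ X : ℝ in atTop, 4 * A / η ≤ Real.log X := hL.eventually (eventually_ge_atTop _)
  have e9' : ∀ᶠ L : ℝ in atTop, A * L * Real.exp (-(c₁ * L / (400 * Real.log L))) ≤ η / 4 := by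
    -- `log L ≤ 2 √L`
    have a1 : Tendsto (fun u : ℝ => u ^ 2 * Real.exp (-u)) atTop (nhds 0) := by
      have := Real.tendsto_pow_mul_exp_neg_atTop_nhds_zero 2
      exact this
    have hs : Tendsto (fun L : ℝ => c₁ / 800 * Real.sqrt L) atTop atTop :=
      (Real.tendsto_sqrt_atTop).const_mul_atTop (by positivity)
    have a2 := a1.comp hs
    have a3 : ∀ᶠ L : ℝ in atTop, (c₁ / 800 * Real.sqrt L) ^ 2 *
        Real.exp (-(c₁ / 800 * Real.sqrt L)) < η / 4 / (A * (800 / c₁) ^ 2) :=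
      a2.eventually (gt_mem_nhds (by positivity))
    filter_upwards [a3, eventually_ge_atTop (10 : ℝ)] with L h1 h2
    have hL0 : 0 < L := by linarith
    have hlog : 0 < Real.log L := Real.log_pos (by linarith)
    have h3 := lf_log_le_sqrt hL0
    have h4 : c₁ / 800 * Real.sqrt L ≤ c₁ * L / (400 * Real.log L) := by
      rw [le_div_iff₀ (by positivity)]
      have h5 : Real.sqrt L * Real.sqrt L = L := Real.mul_self_sqrt hL0.le
      have hsL : 0 ≤ Real.sqrt L := Real.sqrt_nonneg _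
      calc c₁ / 800 * Real.sqrt L * (400 * Real.log L) ≤
          c₁ / 800 * Real.sqrt L * (400 * (2 * Real.sqrt L)) := by gcongr
        _ = c₁ * (Real.sqrt L * Real.sqrt L) := by ring
        _ = c₁ * L := by rw [h5]
    have h5 : Real.exp (-(c₁ * L / (400 * Real.log L))) ≤
        Real.exp (-(c₁ / 800 * Real.sqrt L)) := Real.exp_le_exp.2 (neg_le_neg h4)
    have h6 : (c₁ / 800 * Real.sqrt L) ^ 2 = (c₁ / 800) ^ 2 * L := by
      rw [mul_pow, Real.sq_sqrt hL0.le]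
    rw [h6, lt_div_iff₀ (by positivity)] at h1
    calc A * L * Real.exp (-(c₁ * L / (400 * Real.log L))) ≤
        A * L * Real.exp (-(c₁ / 800 * Real.sqrt L)) := by gcongr
      _ = (c₁ / 800) ^ 2 * L * Real.exp (-(c₁ / 800 * Real.sqrt L)) * (A * (800 / c₁) ^ 2) := by
          field_simp
      _ ≤ η / 4 := h1.le
  have e9 : ∀ᶠ X : ℝ in atTop, A * Real.log X *
      Real.exp (-(c₁ * Real.log X / (400 * Real.log (Real.log X)))) ≤ η / 4 := hL.eventually e9'
  obtain ⟨X₀, hX₀⟩ := eventually_atTop.1 (e1.and (e2.and (e3.and (e4.and (e5.and (e6.and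
    (e7.and (e8.and e9))))))))
  exact ⟨max X₀ 10, le_max_right _ _, fun X hX => hX₀ X ((le_max_left _ _).trans hX)⟩

/-- the function `Gf` -/
theorem lf_Gf {c κ X L : ℝ} {Y : ℕ} (hκ : 4 * c ≤ κ) (hX : 10 ≤ X)
    (hLd : Real.log X = L) (hL : 10 ≤ L) (hY : 0 < (Y : ℝ)) (hYX : (Y : ℝ) ≤ X)
    (hz : Real.log (X / Y) ≤ c * L)
    (h5 : 8 * Real.log L ≤ c * L) (h6 : 1 ≤ c * L)
    (h7 : Real.sqrt (1 + 2 * (c * L)) * (2 + 8 * Real.log L) ≤ c * L) :
    Gf (MF.RR X Y) (⌊X⌋₊ / Y) ≤ κ * L := by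
  have hX0 : 0 < X := by linarith
  have hz1 : 1 ≤ X / Y := by rw [le_div_iff₀ hY]; linarith
  have hL8 : (10 : ℝ) ≤ L ^ 8 := hL.trans (le_self_pow₀ (by linarith) (by norm_num))
  have hzL : 10 ≤ X / Y * L ^ 8 := by nlinarith
  have hR : MF.RR X Y = ⌊X / Y * L ^ 8⌋₊ := by rw [MF.RR, hLd]
  have hR1 : (MF.RR X Y : ℝ) ≤ X / Y * L ^ 8 := by rw [hR]; exact Nat.floor_le (by linarith)
  have hR2 : (1 : ℝ) ≤ MF.RR X Y := by
    have h := Nat.lt_floor_add_one (X / Y * L ^ 8)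
    rw [← hR] at h
    linarith
  have hR0 : (0 : ℝ) < MF.RR X Y := by linarith
  have hlogL : 0 ≤ Real.log L := Real.log_nonneg (by linarith)
  have hlogR : Real.log (MF.RR X Y) ≤ 2 * (c * L) := by
    calc Real.log (MF.RR X Y) ≤ Real.log (X / Y * L ^ 8) := Real.log_le_log hR0 hR1
      _ = Real.log (X / Y) + 8 * Real.log L := by
          rw [Real.log_mul (by linarith) (by positivity), Real.log_pow]
          norm_num
      _ ≤ 2 * (c * L) := by linarith
  have hN : X ≤ 2 * (⌊X⌋₊ : ℝ) := by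
    have := Nat.lt_floor_add_one X
    linarith
  have hN0 : (0 : ℝ) < (⌊X⌋₊ : ℝ) := by linarith
  have hlog2 : Real.log (MF.RR X Y / ((⌊X⌋₊ : ℝ) / Y)) ≤ 1 + 8 * Real.log L := by
    have h1 : MF.RR X Y / ((⌊X⌋₊ : ℝ) / Y) ≤ 2 * L ^ 8 := by
      rw [div_le_iff₀ (by positivity)]
      have h2 : X / Y ≤ 2 * (⌊X⌋₊ : ℝ) / Y := by gcongr
      calc (MF.RR X Y : ℝ) ≤ X / Y * L ^ 8 := hR1
        _ ≤ 2 * (⌊X⌋₊ : ℝ) / Y * L ^ 8 := by gcongr
        _ = 2 * L ^ 8 * ((⌊X⌋₊ : ℝ) / Y) := by ring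
    calc Real.log (MF.RR X Y / ((⌊X⌋₊ : ℝ) / Y)) ≤ Real.log (2 * L ^ 8) :=
          Real.log_le_log (by positivity) h1
      _ = Real.log 2 + 8 * Real.log L := by
          rw [Real.log_mul (by norm_num) (by positivity), Real.log_pow]
          norm_num
      _ ≤ _ := by
          have := Real.log_two_lt_d9
          linarith
  have hs : Real.sqrt (1 + Real.log (MF.RR X Y)) ≤ Real.sqrt (1 + 2 * (c * L)) :=
    Real.sqrt_le_sqrt (by linarith)
  have h8 : Real.sqrt (1 + Real.log (MF.RR X Y)) *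
      (1 + Real.log (MF.RR X Y / ((⌊X⌋₊ : ℝ) / Y))) ≤ c * L := by
    calc Real.sqrt (1 + Real.log (MF.RR X Y)) * (1 + Real.log (MF.RR X Y / ((⌊X⌋₊ : ℝ) / Y))) ≤
        Real.sqrt (1 + Real.log (MF.RR X Y)) * (2 + 8 * Real.log L) :=
          mul_le_mul_of_nonneg_left (by linarith) (Real.sqrt_nonneg _)
      _ ≤ Real.sqrt (1 + 2 * (c * L)) * (2 + 8 * Real.log L) := by gcongr
      _ ≤ c * L := h7
  unfold Gf
  have h9 : 4 * c * L ≤ κ * L := by gcongr
  linarith

/-- the exponential term -/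
theorem lf_exp {c c₁ X L z Nr Kr : ℝ} (hc : 0 < c) (hcc : c ≤ c₁ / 8) (hL : 10 ≤ L)
    (hLd : Real.log X = L) (hz : 2 ≤ z) (hN : L / 2 ≤ Real.log Nr) (hK10 : 10 ≤ Kr)
    (hK : Kr ≤ z ^ 2 + L ^ 100 + 2) :
    Real.exp (-(c₁ * Real.log Nr / Real.log Kr)) ≤
      Real.exp (-(c * Real.log X / Real.log z)) +
      Real.exp (-(c₁ * L / (400 * Real.log L))) := by
  have hc₁ : 0 < c₁ := by linarith
  have hlogK : 0 < Real.log Kr := Real.log_pos (by linarith)
  have hlogz : 0 < Real.log z := Real.log_pos (by linarith)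
  have hlogL : 0 < Real.log L := Real.log_pos (by linarith)
  have hLp : (10 : ℝ) ≤ L ^ 100 := hL.trans (le_self_pow₀ (by linarith) (by norm_num))
  rw [hLd]
  rcases le_or_gt (L ^ 100) (z ^ 2) with h | h
  · have h1 : Kr ≤ z ^ 4 := by
      have h2 : (10 : ℝ) ≤ z ^ 2 := hLp.trans h
      have h3 : z ^ 4 = z ^ 2 * z ^ 2 := by ring
      rw [h3]
      nlinarith
    have h2 : Real.log Kr ≤ 4 * Real.log z := by
      calc Real.log Kr ≤ Real.log (z ^ 4) := Real.log_le_log (by linarith) h1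
        _ = _ := by rw [Real.log_pow]; norm_num
    have h3 : c * L / Real.log z ≤ c₁ * Real.log Nr / Real.log Kr := by
      rw [div_le_div_iff₀ hlogz hlogK]
      calc c * L * Real.log Kr ≤ (c₁ / 8) * L * (4 * Real.log z) := by gcongr
        _ = c₁ * (L / 2) * Real.log z := by ring
        _ ≤ c₁ * Real.log Nr * Real.log z := by gcongr
    have h4 := Real.exp_le_exp.2 (neg_le_neg h3)
    have h5 := Real.exp_pos (-(c₁ * L / (400 * Real.log L)))
    linarith
  · have h1 : Kr ≤ L ^ 101 := by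
      have h3 : L ^ 101 = L ^ 100 * L := by ring
      rw [h3]
      nlinarith
    have h2 : Real.log Kr ≤ 200 * Real.log L := by
      calc Real.log Kr ≤ Real.log (L ^ 101) := Real.log_le_log (by linarith) h1
        _ = 101 * Real.log L := by rw [Real.log_pow]; norm_num
        _ ≤ _ := by linarith
    have h3 : c₁ * L / (400 * Real.log L) ≤ c₁ * Real.log Nr / Real.log Kr := by
      rw [div_le_div_iff₀ (by positivity) hlogK]
      calc c₁ * L * Real.log Kr ≤ c₁ * L * (200 * Real.log L) := by gcongr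
        _ = c₁ * (L / 2) * (400 * Real.log L) := by ring
        _ ≤ c₁ * Real.log Nr * (400 * Real.log L) := by gcongr
    have h4 := Real.exp_le_exp.2 (neg_le_neg h3)
    have h5 := Real.exp_pos (-(c * L / Real.log z))
    linarith

theorem LFIN_pr (c₀ : ℝ) (hE : ZE c₀) (hJ : LJ c₀) : LFIN := by
  obtain ⟨C₁, c₁, B, hC₁, hc₁, hB, K0, hE⟩ := hE
  obtain ⟨C₂, κ, hC₂, hκ, hJ⟩ := hJ
  obtain ⟨c, hc, hcκ, hc24, hcB, hcc⟩ : ∃ c : ℝ, 0 < c ∧ 4 * c ≤ κ ∧ c ≤ 1 / 2400 ∧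
      3 * c * B ≤ 1 / 2 ∧ c ≤ c₁ / 8 := by
    refine ⟨min (min (κ / 4) (1 / 2400)) (min (1 / (6 * B)) (c₁ / 8)), ?_, ?_, ?_, ?_, ?_⟩
    · exact lt_min (lt_min (by positivity) (by norm_num)) (lt_min (by positivity) (by positivity))
    · have := (min_le_left (min (κ / 4) (1 / 2400)) (min (1 / (6 * B)) (c₁ / 8))).trans
        (min_le_left _ _)
      linarith
    · exact (min_le_left _ _).trans (min_le_right _ _)
    · have := (min_le_right (min (κ / 4) (1 / 2400)) (min (1 / (6 * B)) (c₁ / 8))).trans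
        (min_le_left _ _)
      rw [le_div_iff₀ (by positivity)] at this
      linarith
    · exact (min_le_right _ _).trans (min_le_right _ _)
  set A := C₁ * C₂ with hA
  have hA0 : 0 < A := by positivity
  refine ⟨c, A, hc, hA0, fun η hη => ?_⟩
  obtain ⟨D1, hD1⟩ := MF.mean_formula_pr (η / 4) (by positivity)
  obtain ⟨D2, hD2⟩ := hJ (η / 4) (by positivity)
  obtain ⟨X₀, hX₀, hev⟩ := lf_ev c c₁ A η hc (by linarith) hc₁ hA0 hη K0
  refine ⟨max (max D1 D2) (max X₀ 2), fun X Y hX hXY hYX => ?_⟩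
  have a1 : D1 ≤ X := ((le_max_left _ _).trans (le_max_left _ _)).trans hX
  have a2 : D2 ≤ X := ((le_max_right _ _).trans (le_max_left _ _)).trans hX
  have a3 : X₀ ≤ X := ((le_max_left _ _).trans (le_max_right _ _)).trans hX
  obtain ⟨v1, v2, v3, v4, v5, v6, v7, v8, v9⟩ := hev X a3
  have hX10 : 10 ≤ X := hX₀.trans a3
  have hX0 : 0 < X := by linarith
  have hX1 : 1 ≤ X := by linarith
  have hYpos : 0 < (Y : ℝ) := lt_of_lt_of_le (Real.rpow_pos_of_pos hX0 _) hXY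
  have b1 : D1 * Y ≤ X := le_trans (mul_le_mul_of_nonneg_right
    ((le_max_left _ _).trans (le_max_left _ _)) hYpos.le) hYX
  have b2 : 2 * (Y : ℝ) ≤ X := le_trans (mul_le_mul_of_nonneg_right
    ((le_max_right _ _).trans (le_max_right _ _)) hYpos.le) hYX
  have hYX1 : (Y : ℝ) ≤ X := by linarith
  set L := Real.log X with hL
  set z := X / Y with hz
  have hz2 : 2 ≤ z := by rw [hz, le_div_iff₀ hYpos]; exact b2
  have hz0 : 0 < z := by linarith
  have hzc : z ≤ X ^ c := by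
    rw [hz, div_le_iff₀ hYpos]
    calc X = X ^ c * X ^ (1 - c) := by
          rw [← Real.rpow_add hX0]
          norm_num
      _ ≤ X ^ c * Y := by gcongr
  have hlogz : Real.log z ≤ c * L := by
    calc Real.log z ≤ Real.log (X ^ c) := Real.log_le_log hz0 hzc
      _ = c * L := by rw [Real.log_rpow hX0]
  -- `N`
  set N := ⌊X⌋₊ with hN
  have hNX : (N : ℝ) ≤ X := Nat.floor_le hX0.le
  have hNX2 : X < N + 1 := Nat.lt_floor_add_one X
  have hN0 : (0 : ℝ) < N := by linarith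
  have hsN : X ^ (1 / 2 : ℝ) ≤ N := by
    rw [← Real.sqrt_eq_rpow]
    have h1 : Real.sqrt X * Real.sqrt X = X := Real.mul_self_sqrt hX0.le
    have h2 : 3 ≤ Real.sqrt X := by
      rw [show (3 : ℝ) = Real.sqrt 9 by
        rw [show (9 : ℝ) = 3 ^ 2 by norm_num, Real.sqrt_sq (by norm_num)]]
      exact Real.sqrt_le_sqrt (by linarith)
    nlinarith
  have hlogN1 : Real.log N ≤ L := Real.log_le_log hN0 hNX
  have hlogN2 : L / 2 ≤ Real.log N := by
    calc L / 2 = Real.log (X ^ (1 / 2 : ℝ)) := by rw [Real.log_rpow hX0]; ring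
      _ ≤ Real.log N := Real.log_le_log (Real.rpow_pos_of_pos hX0 _) hsN
  have hlogN0 : 0 ≤ Real.log N := by linarith
  -- `K`
  have hLp : L ≤ L ^ 100 := le_self_pow₀ (by linarith) (by norm_num)
  obtain ⟨K, hK1, hK2⟩ : ∃ K : ℕ, z ^ 2 + L ^ 100 ≤ K ∧ (K : ℝ) ≤ z ^ 2 + L ^ 100 + 2 := by
    refine ⟨⌈z ^ 2⌉₊ + ⌈L ^ 100⌉₊, ?_, ?_⟩
    · push_cast
      have h1 := Nat.le_ceil (z ^ 2)
      have h2 := Nat.le_ceil (L ^ 100)
      linarith
    · push_cast
      have h1 := Nat.ceil_lt_add_one (show (0 : ℝ) ≤ z ^ 2 by positivity)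
      have h2 := Nat.ceil_lt_add_one (show (0 : ℝ) ≤ L ^ 100 by positivity)
      linarith
  have hz20 : 0 ≤ z ^ 2 := by positivity
  have hL100 : 0 ≤ L ^ 100 := by positivity
  have hKL : L ≤ K := by linarith
  have hK0 : (0 : ℝ) < K := by linarith
  have hK3 : (K : ℝ) ≤ X ^ (3 * c) := by
    have h1 : z ^ 2 ≤ X ^ (2 * c) := by
      calc z ^ 2 ≤ (X ^ c) ^ 2 := by gcongr
        _ = X ^ (2 * c) := by
            rw [← Real.rpow_natCast, ← Real.rpow_mul hX0.le]
            norm_num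
            ring_nf
    linarith
  have hKK0 : K0 ≤ K := by
    have : (K0 : ℝ) ≤ K := v2.trans hKL
    exact_mod_cast this
  have hK10 : 10 ≤ K := by
    have : (10 : ℝ) ≤ K := v1.trans hKL
    exact_mod_cast this
  have hK400 : K ^ 400 ≤ N := by
    have h1 : ((K : ℝ)) ^ 400 ≤ N := by
      calc (K : ℝ) ^ 400 ≤ (X ^ (3 * c)) ^ 400 := by gcongr
        _ = X ^ (1200 * c) := by
            rw [← Real.rpow_natCast, ← Real.rpow_mul hX0.le]
            norm_num
            ring_nf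
        _ ≤ X ^ (1 / 2 : ℝ) := Real.rpow_le_rpow_of_exponent_le hX1 (by linarith)
        _ ≤ N := hsN
    exact_mod_cast h1
  have hKB : (K : ℝ) ^ B ≤ N := by
    calc (K : ℝ) ^ B ≤ (X ^ (3 * c)) ^ B := by gcongr
      _ = X ^ (3 * c * B) := by rw [← Real.rpow_mul hX0.le]
      _ ≤ X ^ (1 / 2 : ℝ) := Real.rpow_le_rpow_of_exponent_le hX1 hcB
      _ ≤ N := hsN
  have hRg : Rg K N := ⟨hK10, hK400, by
    have h1 : Real.log N ^ 100 ≤ L ^ 100 := by gcongr
    linarith⟩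
  have hzL8 : z * L ^ 8 ≤ K := by
    have h1 : z * L ^ 8 ≤ z ^ 2 + L ^ 16 := by nlinarith [sq_nonneg (z - L ^ 8)]
    have h2 : L ^ 16 ≤ L ^ 100 := pow_le_pow_right₀ (by linarith) (by norm_num)
    linarith
  have h910 : X ^ (9 / 10 : ℝ) ≤ Y :=
    (Real.rpow_le_rpow_of_exponent_le hX1 (by linarith)).trans hXY
  have hGf : Gf (MF.RR X Y) (N / Y) ≤ κ * L :=
    lf_Gf hcκ hX10 hL.symm v1 hYpos hYX1 hlogz v5 v6 v7
  have e1 := hD2 X Y K a2 h910 hYX1 hRg hzL8 hGf
  have e2 := hD1 X Y a1 (v4.trans hXY) b1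
  have e3 := hE K hKK0 N hRg hKB
  rw [← hL] at e1 e2
  -- the energy
  have hKr : (10 : ℝ) ≤ K := by exact_mod_cast hK10
  have hx := lf_exp (Nr := N) (Kr := K) hc hcc v1 hL.symm hz2 hlogN2 hKr hK2
  rw [← hL] at hx
  have hs : A * L * (1 / Real.sqrt K) ≤ η / 4 := by
    have h1 : L ^ 2 ≤ Real.sqrt K := by
      rw [Real.le_sqrt (by positivity) hK0.le]
      have h2 : (L ^ 2) ^ 2 ≤ L ^ 100 := by
        rw [← pow_mul]
        exact pow_le_pow_right₀ (by linarith) (by norm_num)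
      linarith
    have hL0 : 0 < L := by linarith
    rw [div_le_iff₀ hη] at v8
    calc A * L * (1 / Real.sqrt K) ≤ A * L * (1 / L ^ 2) := by gcongr
      _ = A / L := by field_simp
      _ ≤ η / 4 := by
          rw [div_le_iff₀ hL0]
          linarith
  have hL0 : 0 ≤ L := by linarith
  have e4 : C₂ * Y * L * EEX c₀ N K ≤
      (A * Real.exp (-(c * L / Real.log z)) * L + η / 4 + η / 4) * X * Y := by
    have g1 : EEX c₀ N K ≤ C₁ * X * (Real.exp (-(c * L / Real.log z)) +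
        Real.exp (-(c₁ * L / (400 * Real.log L))) + 1 / Real.sqrt K) := by
      refine e3.trans ?_
      gcongr
    have g2 : A * L * (Real.exp (-(c * L / Real.log z)) +
        Real.exp (-(c₁ * L / (400 * Real.log L))) + 1 / Real.sqrt K) ≤
        A * Real.exp (-(c * L / Real.log z)) * L + η / 4 + η / 4 := by
      have : A * L * (Real.exp (-(c * L / Real.log z)) +
        Real.exp (-(c₁ * L / (400 * Real.log L))) + 1 / Real.sqrt K) =
        A * Real.exp (-(c * L / Real.log z)) * L +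
        A * L * Real.exp (-(c₁ * L / (400 * Real.log L))) + A * L * (1 / Real.sqrt K) := by ring
      rw [this]
      linarith
    calc C₂ * Y * L * EEX c₀ N K ≤ C₂ * Y * L * (C₁ * X * (Real.exp (-(c * L / Real.log z)) +
        Real.exp (-(c₁ * L / (400 * Real.log L))) + 1 / Real.sqrt K)) := by gcongr
      _ = (A * L * (Real.exp (-(c * L / Real.log z)) +
        Real.exp (-(c₁ * L / (400 * Real.log L))) + 1 / Real.sqrt K)) * (X * Y) := by
          rw [hA]; ring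
      _ ≤ (A * Real.exp (-(c * L / Real.log z)) * L + η / 4 + η / 4) * (X * Y) := by gcongr
      _ = _ := by ring
  have e5 := (abs_le.1 e2).1
  have e6 : ∑ Q ∈ Icc 1 Y, (HC.GX X Q - HC.LX X Q (X / Q * L ^ 8) -
      X * (Real.log Q - HC.CQ Q)) = ∑ Q ∈ Icc 1 Y, (HC.GX X Q - X * (Real.log Q - HC.CQ Q)) -
      ∑ Q ∈ Icc 1 Y, HC.LX X Q (X / Q * L ^ 8) := by
    rw [← sum_sub_distrib]
    refine sum_congr rfl fun Q _ => ?_
    ring
  rw [e6] at e5
  have e7 : (A * Real.exp (-(c * L / Real.log z)) * L + η) * X * Y =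
      (A * Real.exp (-(c * L / Real.log z)) * L + η / 4 + η / 4) * X * Y +
      η / 4 * X * Y + η / 4 * X * Y := by ring
  rw [e7]
  linarith

end Pool.Agent.LHM
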