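import Pool.Agent.Lib_helper59.LHM.Wanted

/-! LHM, block LG: the characters induced by primitive characters -/

set_option autoImplicit false

namespace Pool.Agent.LHM

open Finset Pool.Agent.Var35 Pool.Agent.Var73 Pool.Agent.PV Pool.Agent.FGP
open scoped ArithmeticFunction ArithmeticFunction.Moebius

/-- the sum of a character is the sum of the primitive character over the coprime integers -/
theorem lg_sum {Q : ℕ} [NeZero Q] (χ : DirichletCharacter ℂ Q) (N : ℕ) (a : ℕ → ℂ) :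
    ∑ n ∈ Icc 1 N, a n * χ (n : ZMod Q) =
      ∑ n ∈ (Icc 1 N).filter (fun n => Nat.Coprime n Q),
        a n * χ.primitiveCharacter (n : ZMod χ.conductor) := by
  rw [sum_filter]
  refine sum_congr rfl fun n _ => ?_
  split_ifs with h
  · have h1 := HF_level χ.conductor_dvd_level χ.primitiveCharacter h
    rw [DirichletCharacter.changeLevel_primitiveCharacter] at h1
    rw [h1]
  · have h1 : ¬ IsUnit (n : ZMod Q) := by
      rw [ZMod.isUnit_iff_coprime]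
      exact h
    rw [χ.map_nonunit h1, mul_zero]

theorem lg_one (N R Q : ℕ) (hQ : 1 ≤ Q) (X D : ℝ) (hN : N = ⌊X⌋₊) (hD : (R : ℝ) ≤ D) :
    (1 / (Nat.totient Q : ℝ)) * ∑ q ∈ Ioc 1 R, (if q ∣ Q then ∑ ψ ∈ Pr q,
      ‖∑ n ∈ (Icc 1 N).filter (fun n => Nat.Coprime n Q), (HC.Lam n : ℂ) * ψ (n : ZMod q)‖ ^ 2
        else 0) ≤ HC.LX X Q D := by
  classical
  have : NeZero Q := ⟨by omega⟩
  set G : Chr → ℝ := fun x => if 1 < x.1 ∧ x.1 ≤ R then
    ‖∑ n ∈ (Icc 1 N).filter (fun n => Nat.Coprime n Q), (HC.Lam n : ℂ) * x.2 (n : ZMod x.1)‖ ^ 2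
      else 0 with hG
  have h1 := sum_chars Q G
  have h2 : ∑ q ∈ Ioc 1 R, (if q ∣ Q then ∑ ψ ∈ Pr q,
      ‖∑ n ∈ (Icc 1 N).filter (fun n => Nat.Coprime n Q), (HC.Lam n : ℂ) * ψ (n : ZMod q)‖ ^ 2
        else 0) = ∑ x ∈ Q.divisors.sigma Pr, G x := by
    rw [sum_sigma, ← sum_filter]
    have h3 : (Ioc 1 R).filter (fun q => q ∣ Q) = Q.divisors.filter (fun q => 1 < q ∧ q ≤ R) := by
      ext q
      simp only [mem_filter, Finset.mem_Ioc, Nat.mem_divisors]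
      constructor
      · rintro ⟨⟨h4, h5⟩, h6⟩
        exact ⟨⟨h6, by omega⟩, h4, h5⟩
      · rintro ⟨⟨h6, -⟩, h4, h5⟩
        exact ⟨⟨h4, h5⟩, h6⟩
    rw [h3, sum_filter]
    refine sum_congr rfl fun q _ => ?_
    simp only [hG]
    split_ifs with h
    · rfl
    · simp
  rw [h2, ← h1]
  unfold HC.LX
  refine mul_le_mul_of_nonneg_left (sum_le_sum fun χ _ => ?_) (by positivity)
  simp only [hG, prm]
  by_cases h : 1 < χ.conductor ∧ χ.conductor ≤ R
  · have hc : (χ.conductor : ℝ) ≤ D := le_trans (by exact_mod_cast h.2) hD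
    have hne : χ ≠ 1 := by
      rintro rfl
      have := DirichletCharacter.conductor_one (R := ℂ) (n := Q)
      omega
    rw [if_pos h, if_pos hc, if_neg hne, sub_zero, ← hN, lg_sum χ N (fun n => (HC.Lam n : ℂ))]
  · rw [if_neg h]
    split_ifs <;> positivity

theorem LG_pr : LG := by
  intro X Y R hX hYX hY hR
  classical
  have h1 : ∀ q ∈ Ioc 1 R, ∑ ψ ∈ Pr q, Gn ψ ⌊X⌋₊ Y = ∑ Q ∈ Icc 1 Y, (if q ∣ Q then
      ∑ ψ ∈ Pr q, (1 / (Nat.totient Q : ℝ)) * ‖∑ n ∈ (Icc 1 ⌊X⌋₊).filter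
        (fun n => Nat.Coprime n Q), (HC.Lam n : ℂ) * ψ (n : ZMod q)‖ ^ 2 else 0) := by
    intro q _
    rw [← sum_filter]
    unfold Gn
    rw [sum_comm]
  rw [sum_congr rfl h1, sum_comm]
  refine sum_le_sum fun Q hQ => ?_
  rw [Finset.mem_Icc] at hQ
  have hD : (R : ℝ) ≤ X / Q * Real.log X ^ 8 := by
    refine hR.trans ?_
    have hQ0 : (0 : ℝ) < Q := by exact_mod_cast hQ.1
    have hQY : (Q : ℝ) ≤ Y := by exact_mod_cast hQ.2
    have hl : 0 ≤ Real.log X ^ 8 := pow_nonneg (Real.log_nonneg (by linarith)) 8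
    exact mul_le_mul_of_nonneg_right (div_le_div_of_nonneg_left (by linarith) hQ0 hQY) hl
  refine le_trans (le_of_eq ?_) (lg_one ⌊X⌋₊ R Q hQ.1 X _ rfl hD)
  rw [mul_sum]
  refine sum_congr rfl fun q _ => ?_
  split_ifs
  · rw [mul_sum]
  · rw [mul_zero]

end Pool.Agent.LHM
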