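import Pool.Agent.Lib_helper59.LHM.Wanted

/-!
# LHM, block LI: one character: the gain beats the loss
-/

set_option autoImplicit false

namespace Pool.Agent.LHM

open Finset Pool.Agent.Var35 Pool.Agent.Var73 Pool.Agent.PV Pool.Agent.FGP
open scoped ArithmeticFunction ArithmeticFunction.Moebius

theorem li_Prm {q : ℕ} (hq : 1 < q) {ψ : DirichletCharacter ℂ q} (h : ψ ∈ Pr q) :
    ψ ∈ GA.Prm q := by
  have : NeZero q := ⟨by omega⟩
  have hp : ψ.IsPrimitive := by simpa [Pr] using h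
  have hne : ψ ≠ 1 := by
    rintro rfl
    have h1 : DirichletCharacter.conductor (1 : DirichletCharacter ℂ q) = q := hp
    rw [DirichletCharacter.conductor_one] at h1
    omega
  simp [GA.Prm, hp, hne]

theorem li_Jz_cont {q : ℕ} (c : ℝ) (ψ : DirichletCharacter ℂ q) (N K : ℕ) :
    Continuous (Jz c ψ N K) := by
  unfold Jz e
  fun_prop

theorem li_Gn_nonneg {q : ℕ} (ψ : DirichletCharacter ℂ q) (N Y : ℕ) : 0 ≤ Gn ψ N Y := by
  unfold Gn
  exact Finset.sum_nonneg fun Q _ => mul_nonneg (by positivity) (by positivity)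

theorem li_Vx_nonneg {q : ℕ} (c : ℝ) (ψ : DirichletCharacter ℂ q) (N K : ℕ) : 0 ≤ Vx c ψ N K := by
  unfold Vx
  exact Finset.sum_nonneg fun n _ => by positivity

/-- numerical facts about the range -/
theorem li_num {K N Y R q : ℕ} (hR : Rg K N) (hNY : N ≤ Y ^ 2) (hRK : R ≤ K)
    (hq : q ∈ Ioc 1 R) : (1 : ℝ) ≤ N ∧ 1 ≤ Y ∧ q ≤ Y ∧ q ∈ Icc 1 (K ^ 20) ∧ 2 ≤ K ^ 20 ∧
      0 ≤ Real.log N ∧ Real.log N / 4 ≤ Real.log ((Y : ℝ) / q) ∧
      (K : ℝ) ^ 8 / N ≤ 1 / 2 := by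
  obtain ⟨hK, hN, hL⟩ := hR
  obtain ⟨hq1, hqR⟩ := Finset.mem_Ioc.1 hq
  have hK0 : 0 < K := by omega
  have hqK : q ≤ K := hqR.trans hRK
  have hN1 : 1 ≤ N := le_trans (Nat.one_le_pow _ _ hK0) hN
  have hN1' : (1 : ℝ) ≤ N := by exact_mod_cast hN1
  have hN0 : (0 : ℝ) < N := by linarith
  have hKr : (10 : ℝ) ≤ K := by exact_mod_cast hK
  have hKr0 : (0 : ℝ) < K := by linarith
  have hNr : (K : ℝ) ^ 400 ≤ N := by exact_mod_cast hN
  have hK200 : K ^ 200 ≤ Y := by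
    by_contra h
    rw [not_le] at h
    have h1 : Y ^ 2 < (K ^ 200) ^ 2 := Nat.pow_lt_pow_left h (by norm_num)
    have h2 : (K ^ 200) ^ 2 = K ^ 400 := by rw [← pow_mul]
    omega
  have hY1 : 1 ≤ Y := le_trans (Nat.one_le_pow _ _ hK0) hK200
  have hKY : K ≤ Y := by
    refine le_trans ?_ hK200
    calc K = K ^ 1 := (pow_one K).symm
      _ ≤ K ^ 200 := Nat.pow_le_pow_right hK0 (by norm_num)
  have hKK : K ≤ K ^ 20 := by
    calc K = K ^ 1 := (pow_one K).symm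
      _ ≤ K ^ 20 := Nat.pow_le_pow_right hK0 (by norm_num)
  have hlogN : 0 ≤ Real.log N := Real.log_nonneg hN1'
  have hq0 : (0 : ℝ) < q := by exact_mod_cast (by omega : 0 < q)
  have hY0 : (0 : ℝ) < Y := by exact_mod_cast hY1
  refine ⟨hN1', hY1, hqK.trans hKY, Finset.mem_Icc.2 ⟨by omega, hqK.trans hKK⟩, by omega, hlogN,
    ?_, ?_⟩
  · rw [Real.log_div hY0.ne' hq0.ne']
    have h1 : Real.log N ≤ 2 * Real.log Y := by
      have h2 : (N : ℝ) ≤ (Y : ℝ) ^ 2 := by exact_mod_cast hNY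
      have h3 := Real.log_le_log hN0 h2
      rwa [Real.log_pow, Nat.cast_ofNat] at h3
    have h4 : 400 * Real.log K ≤ Real.log N := by
      have h5 := Real.log_le_log (by positivity) hNr
      rwa [Real.log_pow, Nat.cast_ofNat] at h5
    have h6 : Real.log q ≤ Real.log K := Real.log_le_log hq0 (by exact_mod_cast hqK)
    linarith
  · rw [div_le_iff₀ hN0]
    have h7 : (K : ℝ) ^ 8 * 10 ≤ (K : ℝ) ^ 400 := by
      calc (K : ℝ) ^ 8 * 10 ≤ (K : ℝ) ^ 8 * K := by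
            apply mul_le_mul_of_nonneg_left hKr (by positivity)
        _ = (K : ℝ) ^ 9 := by ring
        _ ≤ (K : ℝ) ^ 400 := pow_le_pow_right₀ (by linarith) (by norm_num)
    have h8 : (0 : ℝ) ≤ (K : ℝ) ^ 8 := by positivity
    linarith

/-- the bound for the part of one character -/
theorem li_JP {c₀ : ℝ} (h1 : WZB c₀) (h2 : LD) (h3 : LE) (h4 : LF) :
    ∃ C : ℝ, 0 < C ∧ ∃ K0 : ℕ, ∀ K ≥ K0, ∀ N Y R : ℕ, ∀ c₂ : ℝ, 0 < c₂ → c₂ ≤ 1 → Rg K N →
      Y ≤ N → N ≤ Y ^ 2 → 2 ≤ R → R ≤ K → N ≤ R * Y → ∀ q ∈ Ioc 1 R, ∀ ψ ∈ Pr q,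
      JP c₀ ψ N K Y R (c₂ * K ^ 8 / N) ≤
        C * N * wz c₀ (K ^ 20) ψ N ^ 2 * (min 1 ((N / Y : ℝ) / q) * Gf R (N / Y)) := by
  obtain ⟨C₁, hC₁, hW⟩ := h1
  obtain ⟨C₂, hC₂, hLD⟩ := h2
  obtain ⟨C₃, hC₃, hLF⟩ := h4
  obtain ⟨K0, hK0⟩ := exists_nat_ge (Real.exp (|c₀| + 1))
  set A : ℝ := Real.exp (8 * |c₀| / 20) with hA
  have hA1 : 1 ≤ A := by
    rw [hA]
    exact Real.one_le_exp (by positivity)
  refine ⟨8 * (C₂ * A) ^ 2 * C₃, by positivity, K0,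
    fun K hK N Y R c₂ hc₂ hc₂' hR hYN hNY hR2 hRK hNR q hq ψ hψ => ?_⟩
  obtain ⟨hN1, hY1, hqY, hqD, hD2, hlogN, -, hK8⟩ := li_num hR hNY hRK hq
  obtain ⟨hq1, hqR⟩ := Finset.mem_Ioc.1 hq
  have hψ' := li_Prm hq1 hψ
  have hN0 : (0 : ℝ) < N := by linarith
  have hY0 : (0 : ℝ) < Y := by exact_mod_cast hY1
  have hq0 : (0 : ℝ) < q := by exact_mod_cast (by omega : 0 < q)
  have hKr : (10 : ℝ) ≤ K := by exact_mod_cast hR.hK
  have hKr0 : (0 : ℝ) < K := by linarith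
  have hlogK : |c₀| + 1 ≤ Real.log K := by
    have h5 : Real.exp (|c₀| + 1) ≤ K := hK0.trans (by exact_mod_cast hK)
    have h6 := Real.log_le_log (Real.exp_pos _) h5
    rwa [Real.log_exp] at h6
  have hlogK0 : 0 < Real.log K := by
    have := abs_nonneg c₀
    linarith
  -- the exponent
  set κ : ℝ := |c₀| / Real.log ((K ^ 20 : ℕ) : ℝ) with hκ
  have hlogD : Real.log ((K ^ 20 : ℕ) : ℝ) = 20 * Real.log K := by
    push_cast
    rw [Real.log_pow]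
    norm_num
  have hκ0 : 0 ≤ κ := by
    rw [hκ, hlogD]
    positivity
  have hκ1 : κ ≤ 1 / 2 := by
    rw [hκ, hlogD, div_le_iff₀ (by positivity)]
    linarith
  have hκc : c₀ / Real.log ((K ^ 20 : ℕ) : ℝ) ≤ κ := by
    rw [hκ, hlogD]
    exact div_le_div_of_nonneg_right (le_abs_self _) (by positivity)
  have hwN := (hW (K ^ 20) hD2).2.2 q hqD ψ hψ'
  have hw0 : 0 ≤ wz c₀ (K ^ 20) ψ N := (hwN N N hN1 le_rfl).1
  -- bound for `Jz`
  have hJ : ∀ β : ℝ, |β| ≤ c₂ * K ^ 8 / N →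
      ‖Jz c₀ ψ N K β‖ ≤ C₂ * A * wz c₀ (K ^ 20) ψ N * N ∧
      ‖Jz c₀ ψ N K β‖ * |β| ≤ C₂ * A * wz c₀ (K ^ 20) ψ N := by
    intro β hβ
    have hb : c₂ * (K : ℝ) ^ 8 / N ≤ (K : ℝ) ^ 8 / N := by
      apply div_le_div_of_nonneg_right _ hN0.le
      have : (0 : ℝ) ≤ (K : ℝ) ^ 8 := by positivity
      nlinarith
    have hβ2 : |β| ≤ 1 / 2 := hβ.trans (hb.trans hK8)
    have hNβ : N * |β| ≤ (K : ℝ) ^ 8 := by
      have h7 := mul_le_mul_of_nonneg_left (hβ.trans hb) hN0.le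
      have h8 : (N : ℝ) * ((K : ℝ) ^ 8 / N) = (K : ℝ) ^ 8 := by field_simp
      rwa [h8] at h7
    have hNA : (N * |β|) ^ κ ≤ A := by
      calc (N * |β|) ^ κ ≤ ((K : ℝ) ^ 8) ^ κ :=
            Real.rpow_le_rpow (by positivity) hNβ hκ0
        _ = A := by
          rw [Real.rpow_def_of_pos (by positivity), hA, Real.log_pow, hκ, hlogD]
          congr 1
          push_cast
          field_simp
    refine hLD N κ A β (fun n => wz c₀ (K ^ 20) ψ n) (by exact_mod_cast hN1) hκ0 hκ1 hA1 hβ2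
      hNA ?_ ?_
    · intro m hm
      obtain ⟨hm1, hmN⟩ := Finset.mem_Icc.1 hm
      have hm1' : (1 : ℝ) ≤ m := by exact_mod_cast hm1
      have hmN' : (m : ℝ) ≤ N := by exact_mod_cast hmN
      have hm0 : (0 : ℝ) < m := by linarith
      obtain ⟨h9, h10, h11, -⟩ := hwN m N hm1' hmN'
      refine ⟨h9.trans h10, h11.trans (mul_le_mul_of_nonneg_left ?_ h9)⟩
      refine Real.rpow_le_rpow_of_exponent_le ?_ hκc
      rw [le_div_iff₀ hm0, one_mul]
      exact hmN'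
    · intro m hm n hn hmn
      obtain ⟨hm1, _⟩ := Finset.mem_Icc.1 hm
      exact (hwN m n (by exact_mod_cast hm1) (by exact_mod_cast hmn)).2.1
  -- the integral
  have hb0 : 0 ≤ c₂ * (K : ℝ) ^ 8 / N := by positivity
  have hint : ∀ m ∈ MM q R, ∫ β in (-(c₂ * K ^ 8 / N : ℝ))..(c₂ * K ^ 8 / N),
      HC.kk (q * m * Y * |β|) * ‖Jz c₀ ψ N K β‖ ^ 2 ≤
      8 * (C₂ * A * wz c₀ (K ^ 20) ψ N) ^ 2 * N * gg ((N / Y : ℝ) / (q * m)) := by
    intro m hm
    have hm1 : 1 ≤ m := by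
      unfold MM at hm
      exact (Finset.mem_Icc.1 (Finset.mem_filter.1 hm).1).1
    have hm0 : (0 : ℝ) < m := by exact_mod_cast hm1
    have h12 := h3 N (q * m * Y : ℝ) (c₂ * K ^ 8 / N) (C₂ * A * wz c₀ (K ^ 20) ψ N)
      (Jz c₀ ψ N K) (by exact_mod_cast hN1) (by positivity) hb0 (by positivity)
      (li_Jz_cont c₀ ψ N K) hJ
    have h13 : (N : ℝ) / (q * m * Y) = (N / Y : ℝ) / (q * m) := by
      field_simp
    rwa [h13] at h12
  have hFS := hLF q R (N / Y : ℝ) ?_ ?_ (by omega) hqR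
  · have hWt : ∀ m, 0 ≤ Wt2 q m := by
      intro m
      unfold Wt2
      positivity
    calc JP c₀ ψ N K Y R (c₂ * K ^ 8 / N)
        ≤ ∑ m ∈ MM q R, Wt2 q m * (8 * (C₂ * A * wz c₀ (K ^ 20) ψ N) ^ 2 * N *
            gg ((N / Y : ℝ) / (q * m))) := by
          unfold JP
          exact Finset.sum_le_sum fun m hm => mul_le_mul_of_nonneg_left (hint m hm) (hWt m)
      _ = 8 * (C₂ * A * wz c₀ (K ^ 20) ψ N) ^ 2 * N * FS q R (N / Y) := by
          unfold FS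
          rw [Finset.mul_sum]
          exact Finset.sum_congr rfl fun m _ => by ring
      _ ≤ 8 * (C₂ * A * wz c₀ (K ^ 20) ψ N) ^ 2 * N *
            (C₃ * min 1 ((N / Y : ℝ) / q) * Gf R (N / Y)) :=
          mul_le_mul_of_nonneg_left hFS (by positivity)
      _ = _ := by ring
  · rw [le_div_iff₀ hY0, one_mul]
    exact_mod_cast hYN
  · rw [div_le_iff₀ hY0]
    exact_mod_cast hNR

theorem LI_pr (c₀ : ℝ) (h1 : WZB c₀) (h2 : LD) (h3 : LE) (h4 : LF) (h5 : LH c₀) : LI c₀ := by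
  intro c₂ hc₂ hc₂'
  obtain ⟨C, hC, K1, hJP⟩ := li_JP h1 h2 h3 h4
  obtain ⟨C₄, hC₄, K2, hLH⟩ := h5
  refine ⟨4 * C * C₄, min 1 (1 / (96 * C)), by positivity, lt_min one_pos (by positivity),
    min_le_left _ _, max K1 K2, fun K hK N Y R hR hYN hNY hR2 hRK hNR hGf q hq ψ hψ => ?_⟩
  obtain ⟨hN1, hY1, hqY, hqD, hD2, hlogN, hlogY, -⟩ := li_num hR hNY hRK hq
  obtain ⟨hq1, hqR⟩ := Finset.mem_Ioc.1 hq
  have hN0 : (0 : ℝ) < N := by linarith
  have hY0 : (0 : ℝ) < Y := by exact_mod_cast hY1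
  have hq0 : (0 : ℝ) < q := by exact_mod_cast (by omega : 0 < q)
  have hK1 := hJP K ((le_max_left _ _).trans hK) N Y R c₂ hc₂ hc₂' hR hYN hNY hR2 hRK hNR q hq ψ hψ
  have hGn := li_Gn_nonneg ψ N Y
  have hVx := li_Vx_nonneg c₀ ψ N K
  have hH := hLH K ((le_max_right _ _).trans hK) N Y hR hYN q
    (Finset.mem_Ioc.2 ⟨hq1, hqR.trans hRK⟩) ψ hψ hqY
  set W : ℝ := wz c₀ (K ^ 20) ψ N with hW
  set V : ℝ := Vx c₀ ψ N K + Real.log N ^ 2 with hV
  have hV0 : 0 ≤ V := by positivity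
  set ϖ : ℝ := min 1 ((N / Y : ℝ) / q) with hϖ
  have hϖ0 : 0 ≤ ϖ := le_min zero_le_one (by positivity)
  have hϖ1 : ϖ ≤ 1 := min_le_left _ _
  have hϖ2 : ϖ ≤ (N / Y : ℝ) / q := min_le_right _ _
  set G : ℝ := Gf R (N / Y) with hG
  have hκ1 : min 1 (1 / (96 * C)) * Real.log N ≤ Real.log N := by
    have := mul_le_mul_of_nonneg_right (min_le_left 1 (1 / (96 * C))) hlogN
    linarith
  have hκ2 : min 1 (1 / (96 * C)) * Real.log N ≤ 1 / (96 * C) * Real.log N :=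
    mul_le_mul_of_nonneg_right (min_le_right 1 (1 / (96 * C))) hlogN
  have hWN : 0 ≤ C * N * W ^ 2 := by positivity
  by_cases hcase : C₄ * N * V ≤ (N * W) ^ 2
  · have h6 := hH hcase
    -- `G ≤ log N / (96 C)`
    have h7 : ϖ * G ≤ (N / Y : ℝ) / q * (1 / (96 * C) * Real.log N) := by
      calc ϖ * G ≤ ϖ * (1 / (96 * C) * Real.log N) :=
            mul_le_mul_of_nonneg_left (hGf.trans hκ2) hϖ0
        _ ≤ (N / Y : ℝ) / q * (1 / (96 * C) * Real.log N) :=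
            mul_le_mul_of_nonneg_right hϖ2 (by positivity)
    have h8 : 4 * Y * JP c₀ ψ N K Y R (c₂ * K ^ 8 / N) ≤
        4 * Y * (C * N * W ^ 2 * ((N / Y : ℝ) / q * (1 / (96 * C) * Real.log N))) :=
      mul_le_mul_of_nonneg_left (hK1.trans (mul_le_mul_of_nonneg_left h7 hWN)) (by positivity)
    have h9 : 4 * Y * (C * N * W ^ 2 * ((N / Y : ℝ) / q * (1 / (96 * C) * Real.log N))) =
        (N * W) ^ 2 * (Real.log N / 4 / q) / 6 := by
      field_simp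
      ring
    have h10 : (N * W) ^ 2 * (Real.log N / 4 / q) ≤ (N * W) ^ 2 * (Real.log (Y / q) / q) :=
      mul_le_mul_of_nonneg_left (div_le_div_of_nonneg_right hlogY hq0.le) (by positivity)
    have h11 : 0 ≤ 4 * C * C₄ * Y * Real.log N * V := by positivity
    linarith
  · rw [not_le] at hcase
    have h12 : N * W ^ 2 ≤ C₄ * V := by
      have h13 : N * (N * W ^ 2) < N * (C₄ * V) := by
        calc N * (N * W ^ 2) = (N * W) ^ 2 := by ring
          _ < C₄ * N * V := hcase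
          _ = N * (C₄ * V) := by ring
      exact (lt_of_mul_lt_mul_left h13 hN0.le).le
    have h14 : ϖ * G ≤ Real.log N := by
      calc ϖ * G ≤ ϖ * Real.log N := mul_le_mul_of_nonneg_left (hGf.trans hκ1) hϖ0
        _ ≤ 1 * Real.log N := mul_le_mul_of_nonneg_right hϖ1 hlogN
        _ = Real.log N := one_mul _
    have h15 : JP c₀ ψ N K Y R (c₂ * K ^ 8 / N) ≤ C * (C₄ * V) * Real.log N := by
      calc JP c₀ ψ N K Y R (c₂ * K ^ 8 / N) ≤ C * N * W ^ 2 * (ϖ * G) := hK1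
        _ ≤ C * N * W ^ 2 * Real.log N := mul_le_mul_of_nonneg_left h14 hWN
        _ = C * (N * W ^ 2) * Real.log N := by ring
        _ ≤ C * (C₄ * V) * Real.log N :=
          mul_le_mul_of_nonneg_right (mul_le_mul_of_nonneg_left h12 hC.le) hlogN
    have h16 : 4 * Y * JP c₀ ψ N K Y R (c₂ * K ^ 8 / N) ≤
        4 * Y * (C * (C₄ * V) * Real.log N) := mul_le_mul_of_nonneg_left h15 (by positivity)
    have h17 : 4 * Y * (C * (C₄ * V) * Real.log N) = 4 * C * C₄ * Y * Real.log N * V := by ring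
    linarith

end Pool.Agent.LHM
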