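import Pool.Agent.Lib_helper59.LHM.Wanted
import Pool.Agent.Lib_helper3.FGP.P07a

/-!
# LHM block LP (helper72): Parseval for the integral
-/

set_option autoImplicit false

namespace Pool.Agent.LHM

open Finset Pool.Agent.Var35 Pool.Agent.Var73 Pool.Agent.PV Pool.Agent.FGP
open scoped ArithmeticFunction ArithmeticFunction.Moebius

private theorem lp_cont (r : ℝ) : Continuous (fun t : ℝ => e (r * t)) := by
  unfold e
  fun_prop

private theorem lp_int (k : ℤ) :
    ∫ t in (-(1 / 2) : ℝ)..(1 / 2), e (k * t) = if k = 0 then 1 else 0 := by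
  split_ifs with h
  · subst h
    simp only [Int.cast_zero, zero_mul, e_zero]
    rw [intervalIntegral.integral_const]
    norm_num
  · have hc : ((2 * Real.pi * k : ℝ) : ℂ) * Complex.I ≠ 0 := by
      have : (2 * Real.pi * k : ℝ) ≠ 0 := by
        have h2 : (k : ℝ) ≠ 0 := by exact_mod_cast h
        positivity
      exact mul_ne_zero (by exact_mod_cast this) Complex.I_ne_zero
    have h1 : ∀ t : ℝ, e (k * t) = Complex.exp (((2 * Real.pi * k : ℝ) : ℂ) * Complex.I * t) := by
      intro t
      unfold e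
      congr 1
      push_cast
      ring
    have h3 : e (k * (1 / 2 : ℝ)) = e (k * (-(1 / 2) : ℝ)) := by
      have h4 : (k : ℝ) * (1 / 2 : ℝ) = (k : ℝ) * (-(1 / 2) : ℝ) + k := by ring
      rw [h4, e_add, e_int, mul_one]
    rw [h1, h1] at h3
    simp_rw [h1]
    rw [integral_exp_mul_complex hc, h3, sub_self, zero_div]

private theorem lp_pars (A B : ℤ) (c : ℤ → ℂ) :
    ∫ t in (-(1 / 2) : ℝ)..(1 / 2), ‖∑ n ∈ Icc A B, c n * e (n * t)‖ ^ 2 =
      ∑ n ∈ Icc A B, ‖c n‖ ^ 2 := by
  have h1 : ∀ t : ℝ, ((‖∑ n ∈ Icc A B, c n * e (n * t)‖ ^ 2 : ℝ) : ℂ) =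
      ∑ m ∈ Icc A B, ∑ n ∈ Icc A B, (c m * (starRingEnd ℂ) (c n)) * e ((m - n : ℤ) * t) := by
    intro t
    rw [← Complex.normSq_eq_norm_sq, ← Complex.mul_conj, map_sum, sum_mul_sum]
    refine sum_congr rfl fun m _ => sum_congr rfl fun n _ => ?_
    rw [map_mul, ← e_neg]
    have : c m * e (m * t) * ((starRingEnd ℂ) (c n) * e (-(n * t))) =
        c m * (starRingEnd ℂ) (c n) * (e (m * t) * e (-(n * t))) := by ring
    rw [this, ← e_add]
    congr 2
    push_cast
    ring
  have h2 : ((∫ t in (-(1 / 2) : ℝ)..(1 / 2), ‖∑ n ∈ Icc A B, c n * e (n * t)‖ ^ 2 : ℝ) : ℂ) =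
      ((∑ n ∈ Icc A B, ‖c n‖ ^ 2 : ℝ) : ℂ) := by
    rw [← intervalIntegral.integral_ofReal]
    simp_rw [h1]
    rw [intervalIntegral.integral_finsetSum]
    · have h3 : ∀ m ∈ Icc A B, ∫ t in (-(1 / 2) : ℝ)..(1 / 2), ∑ n ∈ Icc A B,
          (c m * (starRingEnd ℂ) (c n)) * e ((m - n : ℤ) * t) = ((‖c m‖ ^ 2 : ℝ) : ℂ) := by
        intro m hm
        rw [intervalIntegral.integral_finsetSum]
        · simp_rw [intervalIntegral.integral_const_mul, lp_int]
          rw [Finset.sum_eq_single m]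
          · rw [sub_self, if_pos rfl, mul_one, Complex.mul_conj, Complex.normSq_eq_norm_sq]
          · intro n _ hn
            rw [if_neg (by intro h; apply hn; omega), mul_zero]
          · intro h; exact absurd hm h
        · intro n _
          exact (continuous_const.mul (lp_cont _)).intervalIntegrable _ _
      rw [Finset.sum_congr rfl h3]
      push_cast; rfl
    · intro m _
      exact (continuous_finsetSum _ fun n _ => continuous_const.mul (lp_cont _)).intervalIntegrable
        _ _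
  exact_mod_cast h2

theorem LP_pr : LP := by
  intro N K a
  rw [← lp_pars]
  congr 1
  funext b
  rw [← p07a_mul, norm_mul, mul_pow, Complex.norm_real, Real.norm_eq_abs, sq_abs]

end Pool.Agent.LHM
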