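import Pool.Agent.Lib_helper59.LHM.Wanted
import Pool.Agent.Lib_helper98.GAF.Z3

/-!
# LHM block ZA (helper72): a zero-free constant
-/

set_option autoImplicit false

namespace Pool.Agent.LHM

open Finset Pool.Agent.Var35 Pool.Agent.Var73 Pool.Agent.PV Pool.Agent.FGP
open scoped ArithmeticFunction ArithmeticFunction.Moebius

theorem ZA_pr : ZA := by
  obtain ⟨c₂, hc₂, h2⟩ := GA.zero_free_complex
  obtain ⟨c₃, hc₃, h3⟩ := GA.zero_free_real
  refine ⟨min (min c₂ c₃) (1 / 32), ?_, min_le_right _ _, ?_⟩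
  · exact lt_min (lt_min hc₂ hc₃) (by norm_num)
  intro D hD q hq χ hχ ρ hρ him hre
  by_contra him0
  have hD2 : (2 : ℝ) ≤ D := by exact_mod_cast hD
  have hlog : 0 < Real.log D := Real.log_pos (by linarith)
  have hle : ∀ c : ℝ, min (min c₂ c₃) (1 / 32) ≤ c → ρ.re ≤ 1 - c / Real.log D → False := by
    intro c hc h
    have h4 : min (min c₂ c₃) (1 / 32) / Real.log D ≤ c / Real.log D :=
      div_le_div_of_nonneg_right hc hlog.le
    linarith
  by_cases hχ2 : χ ^ 2 = 1
  · exact hle c₃ ((min_le_left _ _).trans (min_le_right _ _)) (h3 D hD q hq χ hχ hχ2 ρ hρ him him0)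
  · exact hle c₂ ((min_le_left _ _).trans (min_le_left _ _)) (h2 D hD q hq χ hχ hχ2 ρ hρ him)

end Pool.Agent.LHM
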