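import Pool.Agent.Lib_helper59.LHM.Wanted
import Pool.Agent.Lib_helper98.GAF.X4

/-!
# LHM, block ZC: Gallagher's theorem with the bad zeros
-/

set_option autoImplicit false
set_option linter.unusedSectionVars false

namespace Pool.Agent.LHM

section zc

open Finset Complex Metric Pool.Agent.GA
open scoped ArithmeticFunction.vonMangoldt Classical

/-- one character: the explicit formula -/
private theorem zc_SKZ : ∃ C : ℝ, 1 ≤ C ∧ ∀ (q : ℕ) [NeZero q] (χ : DirichletCharacter ℂ q), χ ≠ 1 →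
    ∀ (k : ℕ) (M t : ℝ), 1 ≤ M → M ^ 2 ≤ k →
    ‖SK χ k M t + ∑ ρ ∈ zb (GA.LF χ) (1 + ((k / M : ℝ) : ℂ) + t * I) (k / M + 1 / 16),
      (mlt (GA.LF χ) ρ : ℂ) * (((k / M : ℝ) : ℂ) / (1 + ((k / M : ℝ) : ℂ) + t * I - ρ)) ^ (k + 1)‖ ≤
      72 * (k + 1) * (k / M) * Real.log (3 * (C * q) * (2 * (k / M) + |t| + 4) ^ 2) *
        Real.exp (-(M / 33)) := by
  obtain ⟨C, hC, hgr⟩ := LF_growth
  refine ⟨C, hC, fun q _ χ hχ k M t hM hk => ?_⟩
  have hd := LF_diff hχ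
  have hq : (1 : ℝ) ≤ q := by exact_mod_cast NeZero.one_le
  have hk0 : (0 : ℝ) < k := by nlinarith
  set σ : ℝ := k / M with hσd
  have hσ : 1 ≤ σ := by rw [hσd, le_div_iff₀ (by linarith)]; nlinarith
  have hkσ : k / σ = M := by rw [hσd]; field_simp
  have hcre : 1 < (1 + (σ : ℂ) + t * I : ℂ).re := by
    simp only [Complex.add_re, Complex.one_re, Complex.ofReal_re, Complex.mul_re, Complex.I_re,
      mul_zero, Complex.ofReal_im, Complex.I_im, mul_one, sub_self, add_zero]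
    linarith
  have hlow : 1 / 3 ≤ ‖GA.LF χ (1 + σ + t * I)‖ := by
    have h1 := LF_lower χ hcre
    have h2 : min 1 ((1 + (σ : ℂ) + t * I : ℂ).re - 1) = 1 := by
      apply min_eq_left
      simp only [Complex.add_re, Complex.one_re, Complex.ofReal_re, Complex.mul_re, Complex.I_re,
        mul_zero, Complex.ofReal_im, Complex.I_im, mul_one, sub_self, add_zero]
      linarith
    rwa [h2] at h1
  have h1 := x2_explicit hd (B₀ := C * q) (by nlinarith) (fun s hs => by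
    refine (hgr q χ hχ s hs).trans ?_
    have h2 := Complex.abs_im_le_norm s
    have h3 : |s.im| + 2 ≤ (‖s‖ + 2) ^ 2 := by nlinarith [norm_nonneg s]
    exact mul_le_mul_of_nonneg_left h3 (by positivity)) hσ hlow k
  rw [LF_deriv χ k hcre, hkσ] at h1
  obtain ⟨-, hSK⟩ := SK_eq χ (k := k) (M := M) (by positivity) t
  rw [← hσd] at hSK
  set c : ℂ := 1 + σ + t * I with hc
  set Z : ℂ := ∑ ρ ∈ zb (GA.LF χ) c (σ + 1 / 16), (mlt (GA.LF χ) ρ : ℂ) * ((σ : ℂ) / (c - ρ)) ^ (k + 1)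
    with hZ
  have h2 : ((σ ^ (k + 1) : ℝ) : ℂ) * (-((-1) ^ k * Gj χ k c) / (k.factorial : ℂ)) -
      (-1) ^ k * Z = -((-1) ^ k) * (SK χ k M t + Z) := by
    rw [hSK]
    push_cast
    ring
  rw [h2, norm_mul, norm_neg, norm_pow, norm_neg, norm_one, one_pow, one_mul] at h1
  exact h1

/-- the zeros of the ball which are bad are exactly the bad zeros -/
private theorem zc_bad {q : ℕ} [NeZero q] {χ : DirichletCharacter ℂ q} (hχ : χ ≠ 1) {c₀ σ : ℝ}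
    {D : ℕ} (hσ : 1 ≤ σ) (hD : Real.sqrt σ ≤ D)
    (hb : ∀ ρ ∈ BZ c₀ D χ, GA.LF χ ρ = 0 ∧ ρ.im = 0 ∧ 15 / 16 ≤ ρ.re ∧
      ρ.re < 1 ∧ 1 - c₀ / Real.log D < ρ.re) :
    (zb (GA.LF χ) (1 + (σ : ℂ) + ((0 : ℝ) : ℂ) * I) (σ + 1 / 16)).filter
      (fun ρ => 1 - c₀ / Real.log D < ρ.re) = BZ c₀ D χ := by
  have hd := LF_diff hχ
  have h0 : GA.LF χ 2 ≠ 0 := LF_ne_zero hχ (by norm_num)
  ext ρ
  rw [Finset.mem_filter, mem_zb hd h0]
  constructor
  · rintro ⟨⟨hz, hball⟩, hbad⟩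
    rw [mem_closedBall, dist_comm, dist_eq_norm] at hball
    have hre := z3_zero_re hχ hz
    obtain ⟨h4, h5, -⟩ := x2_term hσ hre.le hball 0
    unfold BZ
    rw [Finset.mem_filter, mem_zr hd h0]
    rw [sub_zero] at h5
    exact ⟨⟨hz, h4, hre.le, h5.trans hD⟩, hbad⟩
  · intro h
    obtain ⟨hz, him, hre, hre1, hbad⟩ := hb ρ h
    refine ⟨⟨hz, ?_⟩, hbad⟩
    rw [mem_closedBall, dist_comm, dist_eq_norm]
    have e : (1 + (σ : ℂ) + ((0 : ℝ) : ℂ) * I - ρ) = ((σ + (1 - ρ.re) : ℝ) : ℂ) := by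
      apply Complex.ext
      · simp
        ring
      · simp [him]
    rw [e, Complex.norm_real, Real.norm_of_nonneg (by linarith)]
    linarith

/-- one character, prime powers, with the bad zeros -/
private theorem zc_one : ∃ C : ℝ, 1 ≤ C ∧ ∀ (c₀ : ℝ) (q : ℕ) [NeZero q]
    (χ : DirichletCharacter ℂ q), χ ≠ 1 →
    ∀ (k : ℕ) (M : ℝ) (D : ℕ), 1 ≤ M → M ^ 2 ≤ k → Real.sqrt (k / M) ≤ D →
    (∀ ρ ∈ BZ c₀ D χ, GA.LF χ ρ = 0 ∧ ρ.im = 0 ∧ 15 / 16 ≤ ρ.re ∧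
      ρ.re < 1 ∧ 1 - c₀ / Real.log D < ρ.re) →
    ‖SK χ k M 0 + ((wg c₀ D χ k M : ℝ) : ℂ)‖ ≤
      ∑ ρ ∈ (zr (GA.LF χ) (1 / 16) D).filter (fun ρ => ρ.re ≤ 1 - c₀ / Real.log D), mlt (GA.LF χ) ρ *
        Real.exp (-(M * (1 - ρ.re) / 4)) +
      72 * (k + 1) * (k / M) * Real.log (3 * (C * q) * (2 * (k / M) + |(0 : ℝ)| + 4) ^ 2) *
        Real.exp (-(M / 33)) := by
  obtain ⟨C, hC, h⟩ := zc_SKZ
  refine ⟨C, hC, fun c₀ q _ χ hχ k M D hM hk hD hb => ?_⟩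
  have h1 := h q χ hχ k M 0 hM hk
  have hd := LF_diff hχ
  have h0 : GA.LF χ 2 ≠ 0 := LF_ne_zero hχ (by norm_num)
  have hk0 : (0 : ℝ) < k := by nlinarith
  set σ : ℝ := k / M with hσd
  have hσ : 1 ≤ σ := by rw [hσd, le_div_iff₀ (by linarith)]; nlinarith
  have hkσ : k / σ = M := by rw [hσd]; field_simp
  have hbad := zc_bad hχ hσ hD hb
  set c : ℂ := 1 + (σ : ℂ) + ((0 : ℝ) : ℂ) * I with hc
  have hwg : ∑ ρ ∈ (zb (GA.LF χ) c (σ + 1 / 16)).filter (fun ρ => 1 - c₀ / Real.log D < ρ.re),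
      (mlt (GA.LF χ) ρ : ℂ) * ((σ : ℂ) / (c - ρ)) ^ (k + 1) = ((wg c₀ D χ k M : ℝ) : ℂ) := by
    rw [hbad]
    unfold wg
    rw [Complex.ofReal_sum]
    refine Finset.sum_congr rfl fun ρ hρ => ?_
    obtain ⟨hz, him, hre, hre1, -⟩ := hb ρ hρ
    have e : c - ρ = ((σ + (1 - ρ.re) : ℝ) : ℂ) := by
      apply Complex.ext
      · simp [hc]
        ring
      · simp [hc, him]
    rw [e, hσd]
    push_cast
    rfl
  set Zn : ℂ := ∑ ρ ∈ (zb (GA.LF χ) c (σ + 1 / 16)).filter (fun ρ => ¬ 1 - c₀ / Real.log D < ρ.re),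
      (mlt (GA.LF χ) ρ : ℂ) * ((σ : ℂ) / (c - ρ)) ^ (k + 1) with hZn
  have hsplit := Finset.sum_filter_add_sum_filter_not (zb (GA.LF χ) c (σ + 1 / 16))
    (fun ρ : ℂ => 1 - c₀ / Real.log D < ρ.re)
    (fun ρ : ℂ => (mlt (GA.LF χ) ρ : ℂ) * ((σ : ℂ) / (c - ρ)) ^ (k + 1))
  rw [hwg, ← hZn] at hsplit
  rw [← hsplit] at h1
  have hm : ∀ ρ, 0 ≤ mlt (GA.LF χ) ρ := fun ρ => by unfold mlt; positivity
  have h3 : ‖Zn‖ ≤ ∑ ρ ∈ (zr (GA.LF χ) (1 / 16) D).filter (fun ρ => ρ.re ≤ 1 - c₀ / Real.log D),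
      mlt (GA.LF χ) ρ * Real.exp (-(M * (1 - ρ.re) / 4)) := by
    have hsub : ∀ ρ ∈ (zb (GA.LF χ) c (σ + 1 / 16)).filter
        (fun ρ => ¬ 1 - c₀ / Real.log D < ρ.re),
        ρ ∈ (zr (GA.LF χ) (1 / 16) D).filter (fun ρ => ρ.re ≤ 1 - c₀ / Real.log D) ∧
        ‖((σ : ℂ) / (c - ρ)) ^ (k + 1)‖ ≤ Real.exp (-(M * (1 - ρ.re) / 4)) := by
      intro ρ hρ
      obtain ⟨hρ1, hρ2⟩ := Finset.mem_filter.1 hρ
      obtain ⟨hz, hball⟩ := (mem_zb hd h0 c _ ρ).1 hρ1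
      have hre := z3_zero_re hχ hz
      rw [mem_closedBall, dist_comm, dist_eq_norm] at hball
      obtain ⟨h4, h5, h6⟩ := x2_term hσ hre.le hball k
      rw [hkσ] at h6
      refine ⟨?_, h6⟩
      rw [Finset.mem_filter, mem_zr hd h0]
      rw [sub_zero] at h5
      exact ⟨⟨hz, h4, hre.le, h5.trans hD⟩, not_lt.1 hρ2⟩
    calc ‖Zn‖ ≤ ∑ ρ ∈ (zb (GA.LF χ) c (σ + 1 / 16)).filter
          (fun ρ => ¬ 1 - c₀ / Real.log D < ρ.re), ‖(mlt (GA.LF χ) ρ : ℂ) *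
          ((σ : ℂ) / (c - ρ)) ^ (k + 1)‖ := norm_sum_le _ _
      _ ≤ ∑ ρ ∈ (zb (GA.LF χ) c (σ + 1 / 16)).filter
          (fun ρ => ¬ 1 - c₀ / Real.log D < ρ.re), mlt (GA.LF χ) ρ *
            Real.exp (-(M * (1 - ρ.re) / 4)) := by
          apply Finset.sum_le_sum
          intro ρ hρ
          rw [norm_mul, Complex.norm_real, Real.norm_of_nonneg (hm ρ)]
          exact mul_le_mul_of_nonneg_left (hsub ρ hρ).2 (hm ρ)
      _ ≤ _ := Finset.sum_le_sum_of_subset_of_nonneg (fun ρ hρ => (hsub ρ hρ).1)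
          fun ρ _ _ => mul_nonneg (hm ρ) (Real.exp_pos _).le
  have h4 : ‖SK χ k M 0 + ((wg c₀ D χ k M : ℝ) : ℂ)‖ ≤
      ‖SK χ k M 0 + (((wg c₀ D χ k M : ℝ) : ℂ) + Zn)‖ + ‖Zn‖ := by
    have h5 := norm_sub_le (SK χ k M 0 + (((wg c₀ D χ k M : ℝ) : ℂ) + Zn)) Zn
    have e : SK χ k M 0 + (((wg c₀ D χ k M : ℝ) : ℂ) + Zn) - Zn =
        SK χ k M 0 + ((wg c₀ D χ k M : ℝ) : ℂ) := by ring
    rwa [e] at h5
  linarith

/-- one function: cut the sum over the zeros which are not bad -/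
private theorem zc_cut {f : ℂ → ℂ} (hf : Differentiable ℂ f) {c0 : ℂ} (h0 : f c0 ≠ 0)
    {D L K c₀ : ℝ} (hL : 0 < L) (hK : 0 ≤ K) :
    ∑ ρ ∈ (zr f (1 / 16) D).filter (fun ρ => ρ.re ≤ 1 - c₀ / L),
      mlt f ρ * Real.exp (-(K * L * (1 - ρ.re) / 4)) ≤
      Real.exp (-(c₀ * K / 8)) * ∑ i ∈ range (⌊L / 16⌋₊ + 1),
        Real.exp (-(i * K / 8)) * nz f (min ((i + 1) / L) (1 / 16)) D := by
  have hmem := fun a ρ => mem_zr hf h0 a D ρ
  rw [Finset.mul_sum]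
  have h1 : ∀ ρ ∈ (zr f (1 / 16) D).filter (fun ρ => ρ.re ≤ 1 - c₀ / L),
      mlt f ρ * Real.exp (-(K * L * (1 - ρ.re) / 4)) ≤
      ∑ i ∈ range (⌊L / 16⌋₊ + 1), Real.exp (-(c₀ * K / 8)) * (Real.exp (-(i * K / 8)) *
        (if ρ ∈ zr f (min ((i + 1) / L) (1 / 16)) D then mlt f ρ else 0)) := by
    intro ρ hρ
    obtain ⟨hρ1, hρ2⟩ := Finset.mem_filter.1 hρ
    obtain ⟨hz, hre, hre1, him⟩ := (hmem _ ρ).1 hρ1
    set u : ℝ := 1 - ρ.re with hu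
    have hu0 : 0 ≤ u := by linarith
    have hu1 : u ≤ 1 / 16 := by linarith
    have huc : c₀ / L ≤ u := by linarith
    have huc' : c₀ ≤ u * L := by
      rwa [div_le_iff₀ hL] at huc
    set i₀ : ℕ := ⌊u * L⌋₊ with hi₀
    have hi1 : (i₀ : ℝ) ≤ u * L := Nat.floor_le (by positivity)
    have hi2 : u * L < i₀ + 1 := Nat.lt_floor_add_one _
    have hi3 : i₀ ∈ range (⌊L / 16⌋₊ + 1) := by
      rw [Finset.mem_range, Nat.lt_succ_iff]
      apply Nat.floor_le_floor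
      nlinarith
    have hin : ρ ∈ zr f (min (((i₀ : ℕ) + 1) / L) (1 / 16)) D := by
      rw [hmem]
      refine ⟨hz, ?_, hre1, him⟩
      have h2 : u ≤ min (((i₀ : ℕ) + 1) / L) (1 / 16) := by
        apply le_min _ hu1
        rw [le_div_iff₀ hL]; exact hi2.le
      linarith
    have hml : 0 ≤ mlt f ρ := by unfold mlt; positivity
    have h3 : mlt f ρ * Real.exp (-(K * L * u / 4)) ≤ Real.exp (-(c₀ * K / 8)) *
        (Real.exp (-(i₀ * K / 8)) *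
        (if ρ ∈ zr f (min (((i₀ : ℕ) + 1) / L) (1 / 16)) D then mlt f ρ else 0)) := by
      rw [if_pos hin, ← mul_assoc, ← Real.exp_add, mul_comm (mlt f ρ)]
      apply mul_le_mul_of_nonneg_right _ hml
      apply Real.exp_le_exp.2
      nlinarith [mul_le_mul_of_nonneg_right huc' hK, mul_le_mul_of_nonneg_right hi1 hK]
    refine h3.trans ?_
    exact Finset.single_le_sum (f := fun i : ℕ => Real.exp (-(c₀ * K / 8)) *
      (Real.exp (-(i * K / 8)) *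
        (if ρ ∈ zr f (min ((i + 1) / L) (1 / 16)) D then mlt f ρ else 0)))
      (fun i _ => by
        have : 0 ≤ (if ρ ∈ zr f (min ((i + 1) / L) (1 / 16)) D then mlt f ρ else 0) := by
          split_ifs
          · exact hml
          · exact le_rfl
        positivity) hi3
  refine (Finset.sum_le_sum h1).trans ?_
  rw [Finset.sum_comm]
  apply Finset.sum_le_sum
  intro i _
  rw [← Finset.mul_sum, ← Finset.mul_sum]
  apply mul_le_mul_of_nonneg_left _ (Real.exp_pos _).le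
  apply mul_le_mul_of_nonneg_left _ (Real.exp_pos _).le
  rw [← Finset.sum_filter]
  unfold nz
  apply Finset.sum_le_sum_of_subset_of_nonneg
  · intro ρ hρ
    exact (Finset.mem_filter.1 hρ).2
  · intro ρ _ _
    unfold mlt; positivity

/-- the sum over the zeros which are not bad -/
private theorem zc_zero_sum {ι : Type*} (s : Finset ι) (f : ι → ℂ → ℂ) (c0 : ι → ℂ)
    (hf : ∀ i ∈ s, Differentiable ℂ (f i)) (h0 : ∀ i ∈ s, f i (c0 i) ≠ 0) {D L K c₀ Cd : ℝ}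
    (hL : 0 < L) (hCd : 0 ≤ Cd) (hK : 8 * Cd + 8 ≤ K)
    (hden : ∀ δ : ℝ, 0 ≤ δ → δ ≤ 1 / 16 → ∑ i ∈ s, nz (f i) δ D ≤
      Real.exp (Cd * (1 + δ * L))) :
    ∑ i ∈ s, ∑ ρ ∈ (zr (f i) (1 / 16) D).filter (fun ρ => ρ.re ≤ 1 - c₀ / L),
      mlt (f i) ρ * Real.exp (-(K * L * (1 - ρ.re) / 4)) ≤
      2 * Real.exp (2 * Cd) * Real.exp (-(c₀ * K / 8)) := by
  have h1 : ∀ i ∈ s, ∑ ρ ∈ (zr (f i) (1 / 16) D).filter (fun ρ => ρ.re ≤ 1 - c₀ / L),
      mlt (f i) ρ * Real.exp (-(K * L * (1 - ρ.re) / 4)) ≤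
      Real.exp (-(c₀ * K / 8)) * ∑ j ∈ range (⌊L / 16⌋₊ + 1),
        Real.exp (-(j * K / 8)) * nz (f i) (min ((j + 1) / L) (1 / 16)) D := fun i hi =>
    zc_cut (hf i hi) (h0 i hi) hL (by linarith)
  refine (Finset.sum_le_sum h1).trans ?_
  rw [← Finset.mul_sum, Finset.sum_comm, mul_comm]
  apply mul_le_mul_of_nonneg_right _ (Real.exp_pos _).le
  have h2 : ∀ j ∈ range (⌊L / 16⌋₊ + 1), ∑ i ∈ s, Real.exp (-(j * K / 8)) *
      nz (f i) (min ((j + 1) / L) (1 / 16)) D ≤ Real.exp (2 * Cd) * (Real.exp (-1)) ^ j := by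
    intro j _
    rw [← Finset.mul_sum]
    have h3 : (0 : ℝ) ≤ min (((j : ℕ) + 1) / L) (1 / 16) := le_min (by positivity) (by norm_num)
    have h4 := hden _ h3 (min_le_right _ _)
    have h5 : Cd * (1 + min (((j : ℕ) + 1) / L) (1 / 16) * L) ≤ Cd * (2 + j) := by
      apply mul_le_mul_of_nonneg_left _ hCd
      have h6 : min (((j : ℕ) + 1) / L) (1 / 16) * L ≤ j + 1 := by
        have := mul_le_mul_of_nonneg_right (min_le_left (((j : ℕ) + 1) / L) (1 / 16)) hL.le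
        rwa [div_mul_cancel₀ _ hL.ne'] at this
      linarith
    calc Real.exp (-(j * K / 8)) * ∑ i ∈ s, nz (f i) (min ((j + 1) / L) (1 / 16)) D ≤
        Real.exp (-(j * K / 8)) * Real.exp (Cd * (2 + j)) := by
          apply mul_le_mul_of_nonneg_left _ (Real.exp_pos _).le
          exact h4.trans (Real.exp_le_exp.2 h5)
      _ ≤ Real.exp (2 * Cd) * (Real.exp (-1)) ^ j := by
          rw [← Real.exp_nat_mul, ← Real.exp_add, ← Real.exp_add]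
          apply Real.exp_le_exp.2
          have hj : (0 : ℝ) ≤ j := Nat.cast_nonneg j
          nlinarith [mul_le_mul_of_nonneg_left hK hj]
  refine (Finset.sum_le_sum h2).trans ?_
  rw [← Finset.mul_sum]
  have hex : Real.exp (-1) ≤ 1 / 2 := by
    rw [Real.exp_neg, inv_le_comm₀ (Real.exp_pos _) (by norm_num)]
    have := Real.add_one_le_exp (1 : ℝ)
    norm_num at this ⊢
    linarith
  have hgeo : ∑ j ∈ range (⌊L / 16⌋₊ + 1), (Real.exp (-1)) ^ j ≤ 2 := by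
    have h3 := Summable.sum_le_tsum (range (⌊L / 16⌋₊ + 1))
      (fun j _ => pow_nonneg (Real.exp_pos (-1)).le j)
      (summable_geometric_of_lt_one (Real.exp_pos (-1)).le (by linarith))
    rw [tsum_geometric_of_lt_one (Real.exp_pos (-1)).le (by linarith)] at h3
    refine h3.trans ?_
    rw [inv_le_comm₀ (by linarith) (by norm_num)]
    linarith
  have := mul_le_mul_of_nonneg_left hgeo (Real.exp_pos (2 * Cd)).le
  linarith

/-- the facts about the bad zeros which are used -/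
private def zc_Bad (c₀ : ℝ) (D : ℕ) : Prop := ∀ q ∈ Icc 1 D, ∀ χ ∈ Prm q, ∀ ρ ∈ BZ c₀ D χ,
  GA.LF χ ρ = 0 ∧ ρ.im = 0 ∧ 15 / 16 ≤ ρ.re ∧ ρ.re < 1 ∧ 1 - c₀ / Real.log D < ρ.re

/-- Gallagher's theorem for prime powers with the bad zeros -/
private theorem zc_SK : ∀ c₀ : ℝ, 0 < c₀ → ∃ C : ℝ, 1 ≤ C ∧ ∃ c : ℝ, 0 < c ∧ ∃ A : ℝ, 1 ≤ A ∧
    ∀ D : ℕ, 4 ≤ D → zc_Bad c₀ D → ∀ (k : ℕ) (M : ℝ), 2 ≤ M → A * Real.log D ≤ M →
    M ^ 2 ≤ k → 4 * k ≤ D ^ 2 * M →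
    ∑ q ∈ Icc 1 D, ∑ χ ∈ Prm q, ‖SK χ k M 0 + ((wg c₀ D χ k M : ℝ) : ℂ)‖ ≤
      C * Real.exp (-(c * M / Real.log D)) := by
  intro c₀ hc₀
  obtain ⟨Cd, hCd, hden⟩ := density
  obtain ⟨C₁, hC₁, hone⟩ := zc_one
  refine ⟨2 * Real.exp (2 * Cd) + 1000000 * C₁, by
      have := Real.exp_pos (2 * Cd)
      nlinarith, min (c₀ / 8) (1 / 264), by positivity,
    max (8 * Cd + 8) 1500, le_trans (by norm_num) (le_max_right _ _),
    fun D hD hbad k M hM2 hMA hk hk4 => ?_⟩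
  have hD2 : 2 ≤ D := by omega
  have hDR : (4 : ℝ) ≤ D := by exact_mod_cast hD
  set L : ℝ := Real.log D with hL
  have hL0 : 0 < L := Real.log_pos (by linarith)
  set K : ℝ := M / L with hK
  have hKL : K * L = M := by rw [hK]; field_simp
  have hM1500 : 1500 * L ≤ M := by
    have := mul_le_mul_of_nonneg_right (le_max_right (8 * Cd + 8) 1500) hL0.le
    linarith
  have hMCd : 8 * Cd + 8 ≤ K := by
    rw [hK, le_div_iff₀ hL0]
    have := mul_le_mul_of_nonneg_right (le_max_left (8 * Cd + 8) 1500) hL0.le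
    linarith
  have hk0 : (0 : ℝ) < k := by nlinarith
  have hσ1 : k / M ≤ (D / 2 : ℝ) ^ 2 := by
    rw [div_le_iff₀ (by linarith)]; nlinarith
  have hsq : Real.sqrt (k / M) ≤ D / 2 := by
    rw [Real.sqrt_le_left (by linarith)]; exact hσ1
  have hne : ∀ q ∈ Icc 1 D, NeZero q := fun q hq => ⟨by
    have := (Finset.mem_Icc.1 hq).1
    omega⟩
  -- the individual bounds
  set E : ℝ := 1000000 * C₁ * Real.exp (-(M / 132)) / (D : ℝ) ^ 2 with hE
  have hDsq : (0 : ℝ) < (D : ℝ) ^ 2 := by positivity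
  have h1 : ∀ q ∈ Icc 1 D, ∀ χ ∈ Prm q, ‖SK χ k M 0 + ((wg c₀ D χ k M : ℝ) : ℂ)‖ ≤
      ∑ ρ ∈ (zr (GA.LF χ) (1 / 16) D).filter (fun ρ => ρ.re ≤ 1 - c₀ / L),
        mlt (GA.LF χ) ρ * Real.exp (-(K * L * (1 - ρ.re) / 4)) + E := by
    intro q hq χ hχ
    have := hne q hq
    obtain ⟨-, hχ1⟩ := z3_Prm hχ
    have h2 := hone c₀ q χ hχ1 k M D (by linarith) hk (by linarith) (hbad q hq χ hχ)
    have h3 := x3_err hC₁ hD2 (t := 0) (by linarith) hM1500 hk hk4 (by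
      rw [abs_zero]
      linarith) (q := q)
      (by exact_mod_cast (Finset.mem_Icc.1 hq).1) (by exact_mod_cast (Finset.mem_Icc.1 hq).2)
    rw [hKL]
    refine h2.trans ?_
    have h4 : 72 * (k + 1) * (k / M) * Real.log (3 * (C₁ * q) *
        (2 * (k / M) + |(0 : ℝ)| + 4) ^ 2) * Real.exp (-(M / 33)) ≤ E := by
      rw [hE, le_div_iff₀ hDsq]
      linarith
    linarith
  -- the sum of the errors
  have hcard : ∑ q ∈ Icc 1 D, ∑ χ ∈ Prm q, E ≤ 1000000 * C₁ * Real.exp (-(M / 132)) := by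
    have hE0 : 0 ≤ E := by positivity
    have h2 : ∑ q ∈ Icc 1 D, ∑ _χ ∈ Prm q, E ≤ ∑ q ∈ Icc 1 D, (D : ℝ) * E := by
      apply Finset.sum_le_sum
      intro q hq
      have := hne q hq
      rw [Finset.sum_const, nsmul_eq_mul]
      apply mul_le_mul_of_nonneg_right _ hE0
      refine (x3_card (q := q)).trans ?_
      exact_mod_cast (Finset.mem_Icc.1 hq).2
    refine h2.trans ?_
    rw [Finset.sum_const, Nat.card_Icc, nsmul_eq_mul, Nat.add_sub_cancel]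
    have h3 : (D : ℝ) * (D * E) = (D : ℝ) ^ 2 * E := by ring
    rw [h3, hE, mul_div_cancel₀ _ hDsq.ne']
  -- the sum over the zeros
  have hzeros : ∑ q ∈ Icc 1 D, ∑ χ ∈ Prm q,
      ∑ ρ ∈ (zr (GA.LF χ) (1 / 16) D).filter (fun ρ => ρ.re ≤ 1 - c₀ / L),
      mlt (GA.LF χ) ρ * Real.exp (-(K * L * (1 - ρ.re) / 4)) ≤
      2 * Real.exp (2 * Cd) * Real.exp (-(c₀ * K / 8)) := by
    have h2 := zc_zero_sum ((Icc 1 D).sigma Prm) (fun i => GA.LF i.2) (fun _ => 2)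
      (D := D) (L := L) (K := K) (c₀ := c₀) (Cd := Cd) ?_ ?_ hL0 (by linarith) hMCd ?_
    · rw [Finset.sum_sigma] at h2
      exact h2
    · rintro ⟨q, χ⟩ hi
      rw [Finset.mem_sigma] at hi
      have := hne q hi.1
      exact LF_diff (z3_Prm hi.2).2
    · rintro ⟨q, χ⟩ hi
      rw [Finset.mem_sigma] at hi
      have := hne q hi.1
      exact LF_ne_zero (z3_Prm hi.2).2 (by norm_num)
    · intro δ hδ hδ1
      rw [Finset.sum_sigma]
      exact hden D hD2 δ hδ hδ1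
  calc ∑ q ∈ Icc 1 D, ∑ χ ∈ Prm q, ‖SK χ k M 0 + ((wg c₀ D χ k M : ℝ) : ℂ)‖ ≤
      ∑ q ∈ Icc 1 D, ∑ χ ∈ Prm q,
        (∑ ρ ∈ (zr (GA.LF χ) (1 / 16) D).filter (fun ρ => ρ.re ≤ 1 - c₀ / L),
        mlt (GA.LF χ) ρ * Real.exp (-(K * L * (1 - ρ.re) / 4)) + E) :=
        Finset.sum_le_sum fun q hq => Finset.sum_le_sum fun χ hχ => h1 q hq χ hχ
    _ = ∑ q ∈ Icc 1 D, ∑ χ ∈ Prm q,
        ∑ ρ ∈ (zr (GA.LF χ) (1 / 16) D).filter (fun ρ => ρ.re ≤ 1 - c₀ / L),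
        mlt (GA.LF χ) ρ * Real.exp (-(K * L * (1 - ρ.re) / 4)) +
        ∑ q ∈ Icc 1 D, ∑ χ ∈ Prm q, E := by
        rw [← Finset.sum_add_distrib]
        exact Finset.sum_congr rfl fun q _ => Finset.sum_add_distrib
    _ ≤ 2 * Real.exp (2 * Cd) * Real.exp (-(c₀ * K / 8)) +
        1000000 * C₁ * Real.exp (-(M / 132)) := by linarith
    _ ≤ 2 * Real.exp (2 * Cd) * Real.exp (-(min (c₀ / 8) (1 / 264) * M / L)) +
        1000000 * C₁ * Real.exp (-(min (c₀ / 8) (1 / 264) * M / L)) := by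
        have h5 : Real.exp (-(c₀ * K / 8)) ≤ Real.exp (-(min (c₀ / 8) (1 / 264) * M / L)) := by
          apply Real.exp_le_exp.2
          have h6 : min (c₀ / 8) (1 / 264) * M / L = min (c₀ / 8) (1 / 264) * K := by
            rw [hK]; ring
          rw [h6]
          have h7 : 0 ≤ K := by positivity
          have := mul_le_mul_of_nonneg_right (min_le_left (c₀ / 8) (1 / 264)) h7
          linarith
        have h6 : Real.exp (-(M / 132)) ≤ Real.exp (-(min (c₀ / 8) (1 / 264) * M / L)) := by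
          have h7 := x4_exp hD2 (a := 1 / 132) (c := min (c₀ / 8) (1 / 264)) (M := M)
            (by linarith) (by
              have := min_le_right (c₀ / 8) (1 / 264)
              linarith) (by positivity)
          have e : (1 / 132 : ℝ) * M = M / 132 := by ring
          rw [e] at h7
          exact h7
        gcongr
    _ = _ := by ring

/-- Gallagher's theorem for primes with the bad zeros -/
private theorem zc_SKP : ∀ c₀ : ℝ, 0 < c₀ → ∃ C : ℝ, 1 ≤ C ∧ ∃ c : ℝ, 0 < c ∧ ∃ A : ℝ, 1 ≤ A ∧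
    ∀ D : ℕ, 4 ≤ D → zc_Bad c₀ D → ∀ (k : ℕ) (M : ℝ), 2 ≤ M → A * Real.log D ≤ M →
    M ^ 2 ≤ k → 4 * k ≤ D ^ 2 * M →
    ∑ q ∈ Icc 1 D, ∑ χ ∈ Prm q, ‖SKP χ k M 0 + ((wg c₀ D χ k M : ℝ) : ℂ)‖ ≤
      C * Real.exp (-(c * M / Real.log D)) := by
  intro c₁ hc₁
  obtain ⟨C, hC, c, hc, A, hA, h⟩ := zc_SK c₁ hc₁
  obtain ⟨C₂, hC₂, hpp⟩ := x3_SK_sub_SKP
  refine ⟨C + C₂, by linarith, min c (1 / 16), by positivity, max A 32,
    hA.trans (le_max_left _ _), fun D hD hgood k M hM2 hMA hk hk4 => ?_⟩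
  have hD2 : 2 ≤ D := by omega
  have hDR : (4 : ℝ) ≤ D := by exact_mod_cast hD
  set L : ℝ := Real.log D with hL
  have hL0 : 0 < L := Real.log_pos (by linarith)
  have hMA1 : A * L ≤ M := (mul_le_mul_of_nonneg_right (le_max_left A 32) hL0.le).trans hMA
  have hMA2 : 32 * L ≤ M := (mul_le_mul_of_nonneg_right (le_max_right A 32) hL0.le).trans hMA
  have h0 := h D hD hgood k M hM2 hMA1 hk hk4
  have hk0 : (0 : ℝ) < k := by nlinarith
  have hne : ∀ q ∈ Icc 1 D, NeZero q := fun q hq => ⟨by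
    have := (Finset.mem_Icc.1 hq).1
    omega⟩
  set E : ℝ := C₂ * Real.exp (-(M / 8)) / (D : ℝ) ^ 2 with hE
  have hDsq : (0 : ℝ) < (D : ℝ) ^ 2 := by positivity
  have hEle : C₂ * (k / M / Real.sqrt k) * Real.exp (-(M / 4)) ≤ E := by
    rw [hE, le_div_iff₀ hDsq]
    have h1 : k / M / Real.sqrt k ≤ (D : ℝ) ^ 2 := by
      have h2 : k / M ≤ (D : ℝ) ^ 2 / 4 := by
        rw [div_le_iff₀ (by linarith)]; linarith
      have h3 : 1 ≤ Real.sqrt k := by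
        rw [Real.one_le_sqrt]; nlinarith
      refine (div_le_self (by positivity) h3).trans ?_
      linarith
    have h2 : (D : ℝ) ^ 4 * Real.exp (-((1 / 8) * M)) ≤ 1 :=
      x3_pow hD2 rfl (by norm_num) (by push_cast; linarith)
    have h3 : Real.exp (-(M / 4)) = Real.exp (-((1 / 8) * M)) * Real.exp (-(M / 8)) := by
      rw [← Real.exp_add]; congr 1; ring
    calc C₂ * (k / M / Real.sqrt k) * Real.exp (-(M / 4)) * (D : ℝ) ^ 2 ≤
        C₂ * (D : ℝ) ^ 2 * Real.exp (-(M / 4)) * (D : ℝ) ^ 2 := by gcongr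
      _ = C₂ * ((D : ℝ) ^ 4 * Real.exp (-((1 / 8) * M))) * Real.exp (-(M / 8)) := by
          rw [h3]; ring
      _ ≤ C₂ * 1 * Real.exp (-(M / 8)) := by gcongr
      _ = _ := by ring
  have h1 : ∀ q ∈ Icc 1 D, ∀ χ ∈ Prm q, ‖SKP χ k M 0 + ((wg c₁ D χ k M : ℝ) : ℂ)‖ ≤
      ‖SK χ k M 0 + ((wg c₁ D χ k M : ℝ) : ℂ)‖ + E := by
    intro q hq χ hχ
    have := hne q hq
    have h2 := hpp q χ k M 0 hM2 hk
    have h3 := norm_sub_le (SK χ k M 0 + ((wg c₁ D χ k M : ℝ) : ℂ)) (SK χ k M 0 - SKP χ k M 0)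
    have e : SK χ k M 0 + ((wg c₁ D χ k M : ℝ) : ℂ) - (SK χ k M 0 - SKP χ k M 0) =
        SKP χ k M 0 + ((wg c₁ D χ k M : ℝ) : ℂ) := by ring
    rw [e] at h3
    linarith
  have hcard : ∑ q ∈ Icc 1 D, ∑ χ ∈ Prm q, E ≤ C₂ * Real.exp (-(M / 8)) := by
    have hE0 : 0 ≤ E := by positivity
    have h2 : ∑ q ∈ Icc 1 D, ∑ _χ ∈ Prm q, E ≤ ∑ q ∈ Icc 1 D, (D : ℝ) * E := by
      apply Finset.sum_le_sum
      intro q hq
      have := hne q hq
      rw [Finset.sum_const, nsmul_eq_mul]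
      apply mul_le_mul_of_nonneg_right _ hE0
      refine (x3_card (q := q)).trans ?_
      exact_mod_cast (Finset.mem_Icc.1 hq).2
    refine h2.trans ?_
    rw [Finset.sum_const, Nat.card_Icc, nsmul_eq_mul, Nat.add_sub_cancel]
    have h3 : (D : ℝ) * (D * E) = (D : ℝ) ^ 2 * E := by ring
    rw [h3, hE, mul_div_cancel₀ _ hDsq.ne']
  calc ∑ q ∈ Icc 1 D, ∑ χ ∈ Prm q, ‖SKP χ k M 0 + ((wg c₁ D χ k M : ℝ) : ℂ)‖ ≤
      ∑ q ∈ Icc 1 D, ∑ χ ∈ Prm q, (‖SK χ k M 0 + ((wg c₁ D χ k M : ℝ) : ℂ)‖ + E) :=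
        Finset.sum_le_sum fun q hq => Finset.sum_le_sum fun χ hχ => h1 q hq χ hχ
    _ = ∑ q ∈ Icc 1 D, ∑ χ ∈ Prm q, ‖SK χ k M 0 + ((wg c₁ D χ k M : ℝ) : ℂ)‖ +
        ∑ q ∈ Icc 1 D, ∑ χ ∈ Prm q, E := by
        rw [← Finset.sum_add_distrib]
        exact Finset.sum_congr rfl fun q _ => Finset.sum_add_distrib
    _ ≤ C * Real.exp (-(c * M / L)) + C₂ * Real.exp (-(M / 8)) := by linarith
    _ ≤ C * Real.exp (-(min c (1 / 16) * M / L)) + C₂ * Real.exp (-(min c (1 / 16) * M / L)) := by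
        have h5 : Real.exp (-(c * M / L)) ≤ Real.exp (-(min c (1 / 16) * M / L)) := by
          apply Real.exp_le_exp.2
          have := div_le_div_of_nonneg_right (mul_le_mul_of_nonneg_right
            (min_le_left c (1 / 16)) (by linarith : (0 : ℝ) ≤ M)) hL0.le
          linarith
        have h6 : Real.exp (-(M / 8)) ≤ Real.exp (-(min c (1 / 16) * M / L)) := by
          have h7 := x4_exp hD2 (a := 1 / 8) (c := min c (1 / 16)) (M := M)
            (by linarith) (by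
              have := min_le_right c (1 / 16)
              linarith) (by positivity)
          have e : (1 / 8 : ℝ) * M = M / 8 := by ring
          rw [e] at h7
          exact h7
        gcongr
    _ = _ := by ring

end zc

open Finset Pool.Agent.Var35 Pool.Agent.Var73 Pool.Agent.PV Pool.Agent.FGP
open scoped ArithmeticFunction ArithmeticFunction.Moebius

theorem ZC_pr (c₀ : ℝ) (h1 : ZF c₀) (h2 : WZB c₀) : ZC c₀ := by
  obtain ⟨C, hC, c, hc, A, hA, h⟩ := zc_SKP c₀ h1.1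
  obtain ⟨C', -, hW⟩ := h2
  exact ⟨C, c, A, hC, hc, hA, fun D hD k M hM hMA hk hk4 =>
    h D hD (hW D (by omega)).1 k M hM hMA hk hk4⟩

end Pool.Agent.LHM
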