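import Pool.Agent.Lib_helper59.LHM.Wanted
import Pool.Agent.Lib_helper3.FGP.P03

set_option autoImplicit false

namespace Pool.Agent.LHM

open Finset Pool.Agent.Var35 Pool.Agent.Var73 Pool.Agent.PV Pool.Agent.FGP
open scoped ArithmeticFunction ArithmeticFunction.Moebius

theorem zd_exp {a b : ℝ} (ha : 0 ≤ a) (hb : 0 ≤ b) :
    |Real.exp (-a) - Real.exp (-b)| ≤ |a - b| := by
  have key : ∀ a b : ℝ, 0 ≤ a → a ≤ b → |Real.exp (-a) - Real.exp (-b)| ≤ |a - b| := by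
    intro a b ha hab
    have h1 : Real.exp (-b) ≤ Real.exp (-a) := Real.exp_le_exp.2 (by linarith)
    rw [abs_of_nonneg (by linarith), abs_sub_comm a b, abs_of_nonneg (by linarith)]
    have h2 : Real.exp (-b) = Real.exp (-a) * Real.exp (-(b - a)) := by
      rw [← Real.exp_add]
      congr 1
      ring
    have h3 := Real.add_one_le_exp (-(b - a))
    have h4 : Real.exp (-a) ≤ 1 := Real.exp_le_one_iff.2 (by linarith)
    have h5 : 0 < Real.exp (-a) := Real.exp_pos _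
    rw [h2]
    nlinarith
  rcases le_total a b with h | h
  · exact key a b ha h
  · rw [abs_sub_comm, abs_sub_comm a b]
    exact key b a hb h

/-- the Gamma window at a real zero -/
theorem zd_gam (k : ℕ) (M x : ℝ) (hM : 1 ≤ M) (hk : M ^ 2 ≤ k) (hx0 : 0 ≤ x) (hx1 : x ≤ 1) :
    |((k / M) / (k / M + x)) ^ (k + 1) - Real.exp (-(x * M))| ≤ M ^ 2 / k := by
  have hM0 : 0 < M := by linarith
  have hM2 : M ≤ M ^ 2 := by nlinarith
  have hk0 : (0 : ℝ) < k := by linarith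
  set y : ℝ := x * M / k with hy
  have hy0 : 0 ≤ y := by positivity
  have hy1 : y ≤ 1 := by
    rw [hy, div_le_one hk0]
    nlinarith
  have e1 : (k / M) / (k / M + x) = (1 + y)⁻¹ := by
    rw [hy]
    field_simp
  have e2 : ((k / M) / (k / M + x)) ^ (k + 1) = Real.exp (-((k + 1) * Real.log (1 + y))) := by
    rw [e1, Real.exp_neg, inv_pow]
    congr 1
    have : ((k : ℝ) + 1) * Real.log (1 + y) = ((k + 1 : ℕ) : ℝ) * Real.log (1 + y) := by
      push_cast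
      ring
    rw [this, Real.exp_nat_mul, Real.exp_log (by linarith)]
  have e3 : x * M = k * y := by
    rw [hy]
    field_simp
  rw [e2, e3]
  have hl0 : 0 ≤ Real.log (1 + y) := Real.log_nonneg (by linarith)
  refine (zd_exp (by positivity) (by positivity)).trans ?_
  have h1 : Real.log (1 + y) ≤ y := by
    have := Real.log_le_sub_one_of_pos (show 0 < 1 + y by linarith)
    linarith
  have h2 : y - y ^ 2 / 2 ≤ Real.log (1 + y) := by
    have h3 := Real.le_log_one_add_of_nonneg hy0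
    refine le_trans ?_ h3
    rw [le_div_iff₀ (by linarith)]
    nlinarith [sq_nonneg y, mul_nonneg hy0 (sq_nonneg y)]
  have h3 : y ≤ M ^ 2 / k := by
    rw [hy]
    gcongr
    nlinarith
  have h4 : (k : ℝ) * (y ^ 2 / 2) ≤ M ^ 2 / k := by
    have h5 : (k : ℝ) * (y ^ 2 / 2) = x ^ 2 * M ^ 2 / (2 * k) := by
      rw [hy]
      field_simp
    rw [h5, div_le_div_iff₀ (by positivity) hk0]
    have h6 : x ^ 2 ≤ 1 := by nlinarith
    have h7 : x ^ 2 * M ^ 2 ≤ 1 * M ^ 2 := by gcongr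
    nlinarith [mul_le_mul_of_nonneg_right h7 hk0.le, mul_nonneg (sq_nonneg M) hk0.le]
  rw [abs_le]
  constructor
  · have h5 : (k : ℝ) * (y - y ^ 2 / 2) ≤ (k + 1) * Real.log (1 + y) := by
      have h6 : (k : ℝ) * (y - y ^ 2 / 2) ≤ k * Real.log (1 + y) := by gcongr
      linarith
    linarith
  · have h5 : ((k : ℝ) + 1) * Real.log (1 + y) ≤ (k + 1) * y := by gcongr
    linarith

/-- a power in the window -/
theorem zd_pow {m n : ℕ} {x ε : ℝ} (hn : 0 < n) (hm : 0 < m) (hx0 : 0 ≤ x) (hx1 : x ≤ 1)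
    (hε : ε ≤ 1 / 2) (h : |(m : ℝ) - n| ≤ ε * n) :
    |(m : ℝ) ^ (-x) - (n : ℝ) ^ (-x)| ≤ 2 * ε := by
  have hn0 : (0 : ℝ) < n := by exact_mod_cast hn
  have hm0 : (0 : ℝ) < m := by exact_mod_cast hm
  have hm1 : (1 : ℝ) ≤ m := by exact_mod_cast hm
  have hn1 : (1 : ℝ) ≤ n := by exact_mod_cast hn
  have e1 : (m : ℝ) ^ (-x) = Real.exp (-(x * Real.log m)) := by
    rw [Real.rpow_def_of_pos hm0]
    congr 1
    ring
  have e2 : (n : ℝ) ^ (-x) = Real.exp (-(x * Real.log n)) := by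
    rw [Real.rpow_def_of_pos hn0]
    congr 1
    ring
  have hlm : 0 ≤ Real.log m := Real.log_nonneg hm1
  have hln : 0 ≤ Real.log n := Real.log_nonneg hn1
  rw [e1, e2]
  refine (zd_exp (by positivity) (by positivity)).trans ?_
  rw [← mul_sub, abs_mul, abs_of_nonneg hx0]
  rw [abs_le] at h
  have hmn : (n : ℝ) / 2 ≤ m := by nlinarith [h.1]
  have hε0 : 0 ≤ ε := by
    have : 0 ≤ ε * n := by linarith [h.1, h.2]
    by_contra hc
    push Not at hc
    nlinarith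
  have h1 : |Real.log m - Real.log n| ≤ 2 * ε := by
    rw [abs_le]
    constructor
    · have h2 : Real.log ((n : ℝ) / m) ≤ n / m - 1 := Real.log_le_sub_one_of_pos (by positivity)
      rw [Real.log_div hn0.ne' hm0.ne'] at h2
      have h3 : (n : ℝ) / m - 1 ≤ 2 * ε := by
        rw [sub_le_iff_le_add, div_le_iff₀ hm0]
        nlinarith [h.1]
      linarith
    · have h2 : Real.log ((m : ℝ) / n) ≤ m / n - 1 := Real.log_le_sub_one_of_pos (by positivity)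
      rw [Real.log_div hm0.ne' hn0.ne'] at h2
      have h3 : (m : ℝ) / n - 1 ≤ 2 * ε := by
        rw [sub_le_iff_le_add, div_le_iff₀ hn0]
        nlinarith [h.2]
      linarith
  calc x * |Real.log m - Real.log n| ≤ 1 * (2 * ε) := by gcongr
    _ = _ := one_mul _

/-- the correction by the bad zeros: two windows -/
theorem zd_wz {K N n : ℕ} (h : P03S K N n) (h1 : ∑ m ∈ Iw N K, vw N K m = 1)
    (h0 : ∀ m, 0 ≤ vw N K m) {q : ℕ} (c : ℝ) (D : ℕ) (χ : DirichletCharacter ℂ q) (Cz : ℝ)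
    (hz : ∀ ρ ∈ BZ c D χ, 15 / 16 ≤ ρ.re ∧ ρ.re < 1)
    (hs : ∑ ρ ∈ BZ c D χ, GA.mlt (GA.LF χ) ρ ≤ Cz) :
    |∑ m ∈ Icc 1 N, wz c D χ m * vw N K ((m : ℤ) - n) -
      wg c D χ ⌈(n * Real.log n / Hw N K) ^ 2⌉₊ (Real.log n)| ≤ Cz * (3 / (K : ℝ) ^ 4) := by
  set k := ⌈(n * Real.log n / Hw N K) ^ 2⌉₊ with hk
  have hmass := h.mass h1
  have hK := h.K0
  have hn0 := h.n0
  have hn : 0 < n := by exact_mod_cast hn0
  have hlog := h.logn
  have hL := h.hL
  have hkM := h.kM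
  rw [← hk] at hkM
  have hH := h.H0
  have hK4 : (0 : ℝ) < (K : ℝ) ^ 4 := by positivity
  have hk0 : (0 : ℝ) < k := lt_of_lt_of_le (by
    have : 0 < Real.log n := by linarith
    positivity) hkM
  have hMk : Real.log n ^ 2 / k ≤ 1 / (K : ℝ) ^ 4 := by
    have h2 := h.kk1
    rw [← hk] at h2
    rw [div_le_div_iff₀ hk0 hK4]
    have h3 : Real.log n ^ 2 * (K : ℝ) ^ 4 ≤ (n * Real.log n / Hw N K) ^ 2 := by
      have h4 : (K : ℝ) ^ 2 ≤ n / Hw N K := by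
        rw [le_div_iff₀ hH]
        have h5 := h.nH1
        have h6 : (K : ℝ) ^ 2 ≤ (K : ℝ) ^ 5 := pow_le_pow_right₀ (by linarith) (by norm_num)
        calc (K : ℝ) ^ 2 * Hw N K ≤ (K : ℝ) ^ 5 * Hw N K := by gcongr
          _ = Hw N K * (K : ℝ) ^ 5 := by ring
          _ ≤ n := h5
      calc Real.log n ^ 2 * (K : ℝ) ^ 4 = Real.log n ^ 2 * ((K : ℝ) ^ 2) ^ 2 := by ring
        _ ≤ Real.log n ^ 2 * (n / Hw N K) ^ 2 := by gcongr
        _ = _ := by ring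
    linarith
  -- one zero
  have hone : ∀ ρ ∈ BZ c D χ, |∑ m ∈ Icc 1 N, (m : ℝ) ^ (ρ.re - 1) * vw N K ((m : ℤ) - n) -
      ((k / Real.log n) / (k / Real.log n + (1 - ρ.re))) ^ (k + 1)| ≤ 3 / (K : ℝ) ^ 4 := by
    intro ρ hρ
    obtain ⟨z1, z2⟩ := hz ρ hρ
    set x : ℝ := 1 - ρ.re with hx
    have hx0 : 0 ≤ x := by linarith
    have hx1 : x ≤ 1 := by linarith
    have hex : ρ.re - 1 = -x := by rw [hx]; ring
    rw [hex]
    set g : ℝ := ((k / Real.log n) / (k / Real.log n + x)) ^ (k + 1) with hg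
    have e1 : ∑ m ∈ Icc 1 N, (m : ℝ) ^ (-x) * vw N K ((m : ℤ) - n) - g =
        ∑ m ∈ Icc 1 N, ((m : ℝ) ^ (-x) - g) * vw N K ((m : ℤ) - n) := by
      have : g = ∑ m ∈ Icc 1 N, g * vw N K ((m : ℤ) - n) := by
        rw [← mul_sum, hmass, mul_one]
      nth_rewrite 1 [this]
      rw [← sum_sub_distrib]
      exact sum_congr rfl fun m _ => by ring
    rw [e1]
    have e2 : |g - (n : ℝ) ^ (-x)| ≤ 1 / (K : ℝ) ^ 4 := by
      have h2 := zd_gam k (Real.log n) x (by linarith) hkM hx0 hx1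
      have h3 : (n : ℝ) ^ (-x) = Real.exp (-(x * Real.log n)) := by
        rw [Real.rpow_def_of_pos hn0]
        congr 1
        ring
      rw [h3]
      exact h2.trans hMk
    have e3 : ∀ m ∈ Icc 1 N, |((m : ℝ) ^ (-x) - g) * vw N K ((m : ℤ) - n)| ≤
        3 / (K : ℝ) ^ 4 * vw N K ((m : ℤ) - n) := by
      intro m hm
      rw [abs_mul, abs_of_nonneg (h0 _)]
      by_cases hw : ((m : ℤ) - n) ∈ Iw N K
      · apply mul_le_mul_of_nonneg_right _ (h0 _)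
        have h2 := p03_mem_Iw.1 hw
        have h3 : |(m : ℝ) - n| ≤ 1 / (K : ℝ) ^ 4 * n := by
          refine h2.trans ?_
          rw [one_div, inv_mul_eq_div, le_div_iff₀ hK4]
          exact h.Mn
        have h4 : 1 / (K : ℝ) ^ 4 ≤ 1 / 2 := by
          apply one_div_le_one_div_of_le (by norm_num)
          calc (2 : ℝ) ≤ K := by linarith
            _ = (K : ℝ) ^ 1 := (pow_one _).symm
            _ ≤ (K : ℝ) ^ 4 := pow_le_pow_right₀ (by linarith) (by norm_num)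
        have h5 := zd_pow hn (mem_Icc.1 hm).1 hx0 hx1 h4 h3
        have h6 : (m : ℝ) ^ (-x) - g = ((m : ℝ) ^ (-x) - (n : ℝ) ^ (-x)) -
            (g - (n : ℝ) ^ (-x)) := by ring
        rw [h6]
        refine (abs_sub _ _).trans ?_
        have h7 : 3 / (K : ℝ) ^ 4 = 2 * (1 / (K : ℝ) ^ 4) + 1 / (K : ℝ) ^ 4 := by ring
        rw [h7]
        exact add_le_add h5 e2
      · have : vw N K ((m : ℤ) - n) = 0 := by
          unfold vw
          rw [if_neg hw]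
        rw [this, mul_zero, mul_zero]
    refine (abs_sum_le_sum_abs _ _).trans ((sum_le_sum e3).trans ?_)
    rw [← mul_sum, hmass, mul_one]
  have e4 : ∑ m ∈ Icc 1 N, wz c D χ m * vw N K ((m : ℤ) - n) - wg c D χ k (Real.log n) =
      ∑ ρ ∈ BZ c D χ, GA.mlt (GA.LF χ) ρ * (∑ m ∈ Icc 1 N, (m : ℝ) ^ (ρ.re - 1) *
        vw N K ((m : ℤ) - n) - ((k / Real.log n) / (k / Real.log n + (1 - ρ.re))) ^ (k + 1)) := by
    unfold wz wg
    rw [show (∑ m ∈ Icc 1 N, (∑ ρ ∈ BZ c D χ, GA.mlt (GA.LF χ) ρ * (m : ℝ) ^ (ρ.re - 1)) *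
      vw N K ((m : ℤ) - n)) = ∑ ρ ∈ BZ c D χ, GA.mlt (GA.LF χ) ρ *
        ∑ m ∈ Icc 1 N, (m : ℝ) ^ (ρ.re - 1) * vw N K ((m : ℤ) - n) by
      simp_rw [sum_mul, mul_sum]
      rw [sum_comm]
      refine sum_congr rfl fun ρ _ => sum_congr rfl fun m _ => by ring]
    rw [← sum_sub_distrib]
    exact sum_congr rfl fun ρ _ => by ring
  rw [e4]
  refine (abs_sum_le_sum_abs _ _).trans ?_
  calc ∑ ρ ∈ BZ c D χ, |GA.mlt (GA.LF χ) ρ * (∑ m ∈ Icc 1 N, (m : ℝ) ^ (ρ.re - 1) *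
        vw N K ((m : ℤ) - n) - ((k / Real.log n) / (k / Real.log n + (1 - ρ.re))) ^ (k + 1))| ≤
      ∑ ρ ∈ BZ c D χ, GA.mlt (GA.LF χ) ρ * (3 / (K : ℝ) ^ 4) := by
        refine sum_le_sum fun ρ hρ => ?_
        rw [abs_mul, abs_of_nonneg (GA.mlt_nonneg _ _)]
        exact mul_le_mul_of_nonneg_left (hone ρ hρ) (GA.mlt_nonneg _ _)
    _ = (∑ ρ ∈ BZ c D χ, GA.mlt (GA.LF χ) ρ) * (3 / (K : ℝ) ^ 4) := by rw [sum_mul]
    _ ≤ _ := by gcongr

set_option maxHeartbeats 2000000 in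
theorem ZD_pr (c₀ : ℝ) (hzb : WZB c₀) (hzc : ZC c₀) (h1 : W01) (h2 : W02) : ZD c₀ := by
  classical
  obtain ⟨Cz, hCz, hwz⟩ := hzb
  obtain ⟨C₁, c, A, hC₁, hc, hA, hgal⟩ := hzc
  obtain ⟨C₁', hC₁', c', hc', A', hA', hgal'⟩ := Pool.Agent.GA.gal_zeta'
  obtain ⟨C₂, hC₂, K02, hw2⟩ := h2
  obtain ⟨_, _, K01, hw1⟩ := h1
  obtain ⟨C₆, hC₆, htr⟩ := Pool.Agent.GA.x6_trunc
  obtain ⟨K03, hK03, hnum⟩ := p03_num
  set C₃ : ℝ := 3 * C₂ + 1 + C₆ + 3 * Cz with hC₃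
  refine ⟨2 * C₁ ^ 2 + 2 * C₁' ^ 2 + 4 * C₃ ^ 2, min c c' / 40, max 1 (max (40 * A) (40 * A')),
    by positivity, by positivity, le_max_left _ _, max K03 (max K01 K02), ?_⟩
  intro K hK N hR hBN n hn hnN
  have hKa : K03 ≤ K := (le_max_left _ _).trans hK
  have hKb : K01 ≤ K := (le_max_left _ _).trans ((le_max_right _ _).trans hK)
  have hKc : K02 ≤ K := (le_max_right _ _).trans ((le_max_right _ _).trans hK)
  obtain ⟨q1, q2, q3, q4, q5⟩ := hnum K hKa N hR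
  have h : P03S K N n := ⟨hR, q1, q2, q3, q4, hn, hnN⟩
  have hK10 := h.K0
  have hlog := h.logn
  have hL := h.hL
  obtain ⟨w0, w1, -, -, -⟩ := hw1 K hKb N hR
  set k := ⌈(n * Real.log n / Hw N K) ^ 2⌉₊ with hk
  set M := Real.log n with hM
  have hM2 : 2 ≤ M := by linarith
  -- D
  set D : ℕ := K ^ 20 with hDdef
  have hDcast : (D : ℝ) = (K : ℝ) ^ 20 := by rw [hDdef]; push_cast; rfl
  have hD10 : (10 : ℝ) ≤ D := by
    rw [hDcast]
    calc (10 : ℝ) ≤ K := hK10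
      _ = (K : ℝ) ^ 1 := (pow_one _).symm
      _ ≤ (K : ℝ) ^ 20 := pow_le_pow_right₀ (by linarith) (by norm_num)
  have hD4 : 4 ≤ D := by
    have : (4 : ℝ) ≤ D := by linarith
    exact_mod_cast this
  have hD2 : 2 ≤ D := by omega
  have hlogD : Real.log D = 20 * Real.log K := by
    rw [hDcast, Real.log_pow]
    norm_num
  have hlD : 0 < Real.log D := Real.log_pos (by linarith)
  have hlK : 0 < Real.log K := q5
  have hBD : max 1 (max (40 * A) (40 * A')) * Real.log K ≤ Real.log N := by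
    rw [← Real.log_rpow (by linarith)]
    exact Real.log_le_log (by positivity) hBN
  have hA1 : A * Real.log D ≤ M := by
    have h3 : 40 * A * Real.log K ≤ Real.log N := le_trans (by
      gcongr
      exact (le_max_left _ _).trans (le_max_right _ _)) hBD
    rw [hlogD]
    linarith
  have hA2 : A' * Real.log D ≤ M := by
    have h3 : 40 * A' * Real.log K ≤ Real.log N := le_trans (by
      gcongr
      exact (le_max_right _ _).trans (le_max_right _ _)) hBD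
    rw [hlogD]
    linarith
  have hkM : M ^ 2 ≤ (k : ℝ) := h.kM
  have hkD : 4 * (k : ℝ) ≤ (D : ℝ) ^ 2 * M := h.kD D le_rfl
  have hg := hgal D hD4 k M hM2 hA1 hkM hkD
  have hg' := hgal' D hD4 k M hM2 hA2 hkM hkD 0 (by rw [abs_zero]; positivity)
  have hkp : (0 : ℝ) < k := lt_of_lt_of_le (by positivity) hkM
  have hone : (((k / M : ℝ) : ℂ) / (((k / M : ℝ) : ℂ) + ((0 : ℝ) : ℂ) * Complex.I)) ^ (k + 1) = 1 := by
    have h3 : (((k / M : ℝ)) : ℂ) ≠ 0 := by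
      have : (k / M : ℝ) ≠ 0 := by positivity
      exact_mod_cast this
    rw [Complex.ofReal_zero, zero_mul, add_zero, div_self h3, one_pow]
  rw [hone] at hg'
  -- exponentials
  set E : ℝ := Real.exp (-(min c c' / 40 * Real.log N / Real.log K)) with hE
  have hE0 : 0 < E := Real.exp_pos _
  have hmin0 : 0 < min c c' := lt_min hc hc'
  have hE1 : E ≤ 1 := by
    rw [hE, Real.exp_le_one_iff]
    have : 0 ≤ min c c' / 40 * Real.log N / Real.log K := by positivity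
    linarith
  have hEgen : ∀ c'' : ℝ, min c c' ≤ c'' → Real.exp (-(c'' * M / Real.log D)) ≤ E := by
    intro c'' h3
    rw [hE]
    apply Real.exp_le_exp.2
    apply neg_le_neg
    rw [hlogD, div_le_div_iff₀ hlK (by positivity)]
    have h5 : min c c' * Real.log N ≤ c'' * (2 * M) := by
      have h6 : Real.log N ≤ 2 * M := by linarith
      have h7 : 0 ≤ Real.log N := by linarith
      have h8 : 0 ≤ c'' := hmin0.le.trans h3
      gcongr
    have h6 : min c c' / 40 * Real.log N * (20 * Real.log K) =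
        min c c' * Real.log N * (Real.log K / 2) := by ring
    have h7 : c'' * M * Real.log K = c'' * (2 * M) * (Real.log K / 2) := by ring
    rw [h6, h7]
    gcongr
  have hEc := hEgen c (min_le_left _ _)
  have hEc' := hEgen c' (min_le_right _ _)
  -- comparison
  have hK4 : (0 : ℝ) < (K : ℝ) ^ 4 := by positivity
  set δ : ℝ := C₃ / (K : ℝ) ^ 4 with hδ
  have hδ0 : 0 ≤ δ := by positivity
  have hL5 : Real.log N ^ 5 / (K : ℝ) ^ 5 ≤ 1 / (K : ℝ) ^ 4 := by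
    rw [div_le_div_iff₀ (by positivity) hK4]
    have h5 := h.hL10
    have h6 : Real.log N ^ 5 ≤ K := by
      refine le_trans ?_ h5
      exact pow_le_pow_right₀ (by linarith) (by norm_num)
    calc Real.log N ^ 5 * (K : ℝ) ^ 4 ≤ K * (K : ℝ) ^ 4 := by gcongr
      _ = 1 * (K : ℝ) ^ 5 := by ring
  have hcmp : ∀ (q : ℕ) [NeZero q] (ψ : DirichletCharacter ℂ q),
      ‖TS ψ N K n - Pool.Agent.GA.SKP ψ k M 0‖ ≤ (3 * C₂ + 1 + C₆) / (K : ℝ) ^ 4 := by
    intro q _ ψ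
    have h3 : ‖TS ψ N K n - Pool.Agent.GA.SKP ψ k M 0‖ ≤
        (3 * C₂ + 1 + C₆) * (Real.log N ^ 5 / (K : ℝ) ^ 5) := by
      refine h.cmp hC₂ hC₆ (fun p hp => hw2 K hKc N hR n p hn (by omega) hp) ψ ?_
      refine (htr q ψ k M (p03_D N K n) hM2 h.D3 h.D2 h.Dk).trans ?_
      rw [mul_assoc]
      have h3 := h.tiny
      gcongr
    refine h3.trans ?_
    calc (3 * C₂ + 1 + C₆) * (Real.log N ^ 5 / (K : ℝ) ^ 5) ≤
        (3 * C₂ + 1 + C₆) * (1 / (K : ℝ) ^ 4) := by gcongr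
      _ = _ := by ring
  have hδ2 : 2 * (K : ℝ) ^ 2 * δ ^ 2 ≤ 2 * C₃ ^ 2 / K := by
    rw [hδ]
    have e : 2 * (K : ℝ) ^ 2 * (C₃ / (K : ℝ) ^ 4) ^ 2 = 2 * C₃ ^ 2 / (K : ℝ) ^ 6 := by
      field_simp
    rw [e]
    apply div_le_div_of_nonneg_left (by positivity) (by linarith)
    calc (K : ℝ) = (K : ℝ) ^ 1 := (pow_one _).symm
      _ ≤ (K : ℝ) ^ 6 := pow_le_pow_right₀ (by linarith) (by norm_num)
  -- the twisted part
  have hT : ∑ q ∈ Ioc 1 K, ∑ ψ ∈ Pr q, ‖TX c₀ ψ N K n‖ ^ 2 ≤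
      2 * C₁ ^ 2 * E + 2 * C₃ ^ 2 / K := by
    have hKD' : K ≤ D := Nat.le_self_pow (by norm_num) K
    set f : ∀ q : ℕ, DirichletCharacter ℂ q → ℝ := fun q ψ =>
      if q ∈ Ioc 1 K ∧ ψ ∈ Pr q then ‖TX c₀ ψ N K n‖ else 0 with hf
    set g : ∀ q : ℕ, DirichletCharacter ℂ q → ℝ := fun q ψ =>
      ‖Pool.Agent.GA.SKP ψ k M 0 + ((wg c₀ D ψ k M : ℝ) : ℂ)‖ with hgdef
    have hfg : ∀ q : ℕ, 1 < q → ∀ ψ : DirichletCharacter ℂ q, f q ψ ≤ g q ψ + δ := by
      intro q hq ψ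
      rw [hf]
      simp only
      split_ifs with hcond
      · have : NeZero q := ⟨by omega⟩
        have hqD : q ∈ Icc 1 D := by
          have := mem_Ioc.1 hcond.1
          rw [mem_Icc]
          omega
        have hψ : ψ ∈ GA.Prm q := p03_Prm q hq hcond.2
        have h3 := hcmp q ψ
        obtain ⟨z1, z2, -⟩ := hwz D hD2
        have hs : ∑ ρ ∈ BZ c₀ D ψ, GA.mlt (GA.LF ψ) ρ ≤ Cz := by
          refine le_trans ?_ z2
          refine le_trans ?_ (single_le_sum (f := fun q => ∑ χ ∈ GA.Prm q, ∑ ρ ∈ BZ c₀ D χ,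
            GA.mlt (GA.LF χ) ρ) (fun q _ => sum_nonneg fun χ _ => sum_nonneg fun ρ _ =>
              GA.mlt_nonneg _ _) hqD)
          exact single_le_sum (f := fun χ => ∑ ρ ∈ BZ c₀ D χ, GA.mlt (GA.LF χ) ρ)
            (fun χ _ => sum_nonneg fun ρ _ => GA.mlt_nonneg _ _) hψ
        have h4 := zd_wz h w1 (fun m => (w0 m).1) c₀ D ψ Cz
          (fun ρ hρ => ⟨(z1 q hqD ψ hψ ρ hρ).2.2.1, (z1 q hqD ψ hψ ρ hρ).2.2.2.1⟩) hs
        have e : TX c₀ ψ N K n = (Pool.Agent.GA.SKP ψ k M 0 + ((wg c₀ D ψ k M : ℝ) : ℂ)) +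
            (TS ψ N K n - Pool.Agent.GA.SKP ψ k M 0) +
            ((∑ m ∈ Icc 1 N, wz c₀ D ψ m * vw N K ((m : ℤ) - n) - wg c₀ D ψ k M : ℝ) : ℂ) := by
          unfold TX
          push_cast
          ring
        rw [e]
        refine (norm_add_le _ _).trans ?_
        refine (add_le_add (norm_add_le _ _) le_rfl).trans ?_
        rw [Complex.norm_real, Real.norm_eq_abs]
        have h5 : δ = (3 * C₂ + 1 + C₆) / (K : ℝ) ^ 4 + Cz * (3 / (K : ℝ) ^ 4) := by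
          rw [hδ, hC₃]
          ring
        rw [h5, hgdef]
        simp only
        linarith
      · have : 0 ≤ g q ψ := norm_nonneg _
        linarith
    have hf0 : ∀ q ψ, 0 ≤ f q ψ := by
      intro q ψ
      rw [hf]
      simp only
      split_ifs
      · exact norm_nonneg _
      · exact le_rfl
    have h0 := p03_absT hKD' f g hf0 (fun _ _ => norm_nonneg _) (C₁ * E) δ
      (hg.trans (mul_le_mul_of_nonneg_left hEc (by linarith))) hfg
    have h3 : ∑ q ∈ Ioc 1 K, ∑ ψ ∈ Pr q, ‖TX c₀ ψ N K n‖ ^ 2 =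
        ∑ q ∈ Ioc 1 K, ∑ ψ ∈ Pr q, f q ψ ^ 2 := by
      refine sum_congr rfl fun q hq => sum_congr rfl fun ψ hψ => ?_
      rw [hf]
      simp only
      rw [if_pos ⟨hq, hψ⟩]
    rw [h3]
    refine h0.trans ?_
    have h4 : E ^ 2 ≤ E := by
      rw [sq]
      exact mul_le_of_le_one_left hE0.le hE1
    have h5 : 2 * (C₁ * E) ^ 2 ≤ 2 * C₁ ^ 2 * E := by
      calc 2 * (C₁ * E) ^ 2 = 2 * C₁ ^ 2 * E ^ 2 := by ring
        _ ≤ 2 * C₁ ^ 2 * E := by gcongr
    linarith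
  -- the principal part
  have hP : T0 N K n ^ 2 ≤ 2 * C₁' ^ 2 * E + 2 * C₃ ^ 2 / K := by
    have h3 := p03_T0 N K n (h.mass w1)
    have h4 := hcmp 1 (1 : DirichletCharacter ℂ 1)
    have h5 : |T0 N K n| ≤ δ + C₁' * E := by
      rw [h3]
      have e : TS (1 : DirichletCharacter ℂ 1) N K n - 1 =
          (TS (1 : DirichletCharacter ℂ 1) N K n - Pool.Agent.GA.SKP (1 : DirichletCharacter ℂ 1) k M 0) +
          (Pool.Agent.GA.SKP (1 : DirichletCharacter ℂ 1) k M 0 - 1) := by ring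
      rw [e]
      have h6 : (3 * C₂ + 1 + C₆) / (K : ℝ) ^ 4 ≤ δ := by
        rw [hδ, hC₃]
        apply div_le_div_of_nonneg_right _ hK4.le
        linarith
      refine (norm_add_le _ _).trans (add_le_add (h4.trans h6) (hg'.trans ?_))
      gcongr
    have h6 : T0 N K n ^ 2 ≤ (δ + C₁' * E) ^ 2 := by
      rw [← sq_abs]
      gcongr
    have h7 : E ^ 2 ≤ E := by
      rw [sq]
      exact mul_le_of_le_one_left hE0.le hE1
    have h8 : (δ + C₁' * E) ^ 2 ≤ 2 * δ ^ 2 + 2 * (C₁' ^ 2 * E ^ 2) := by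
      have h82 := sq_nonneg (δ - C₁' * E)
      have h83 : (δ + C₁' * E) ^ 2 + (δ - C₁' * E) ^ 2 = 2 * δ ^ 2 + 2 * (C₁' ^ 2 * E ^ 2) := by
        ring
      linarith
    have h81 : C₁' ^ 2 * E ^ 2 ≤ C₁' ^ 2 * E := mul_le_mul_of_nonneg_left h7 (sq_nonneg _)
    have h9 : 2 * δ ^ 2 ≤ 2 * (K : ℝ) ^ 2 * δ ^ 2 := by
      have h10 : (1 : ℝ) ≤ (K : ℝ) ^ 2 := one_le_pow₀ (by linarith)
      have h11 : 0 ≤ δ ^ 2 := sq_nonneg _
      calc 2 * δ ^ 2 = 2 * 1 * δ ^ 2 := by ring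
        _ ≤ 2 * (K : ℝ) ^ 2 * δ ^ 2 := by gcongr
    linarith
  unfold EX
  calc _ ≤ (2 * C₁ ^ 2 * E + 2 * C₃ ^ 2 / K) + (2 * C₁' ^ 2 * E + 2 * C₃ ^ 2 / K) :=
        add_le_add hT hP
    _ = (2 * C₁ ^ 2 + 2 * C₁' ^ 2) * E + 4 * C₃ ^ 2 * (1 / K) := by ring
    _ ≤ _ := by
        have h3 : 0 ≤ C₃ ^ 2 * E := by positivity
        have h4 : 0 ≤ C₁ ^ 2 * (1 / (K : ℝ)) := by positivity
        have h5 : 0 ≤ C₁' ^ 2 * (1 / (K : ℝ)) := by positivity
        linarith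

end Pool.Agent.LHM
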