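import Pool.Agent.Lib_helper59.LHM.Wanted
import Pool.Agent.Lib_helper3.FGP.P03
import Pool.Agent.Lib_helper3.FGP.P03b

set_option autoImplicit false

namespace Pool.Agent.LHM

open Finset Pool.Agent.Var35 Pool.Agent.Var73 Pool.Agent.PV Pool.Agent.FGP
open scoped ArithmeticFunction ArithmeticFunction.Moebius

/-- crude bound for the energy of one window -/
theorem ze_crude {K N : ℕ} {c₀ Cz : ℝ} (h0 : ∀ m, 0 ≤ vw N K m) (h1 : ∑ m ∈ Iw N K, vw N K m = 1)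
    (hL : 1 ≤ Real.log N) (hK : 1 ≤ K) (hCz : 1 ≤ Cz)
    (hw : ∀ q ∈ Icc 1 (K ^ 20), ∀ χ ∈ GA.Prm q, ∀ x : ℝ, 1 ≤ x →
      0 ≤ wz c₀ (K ^ 20) χ x ∧ wz c₀ (K ^ 20) χ x ≤ Cz) (z : ℤ) :
    EX c₀ N K z ≤ ((1 + Cz) ^ 2 + 4) * (K : ℝ) ^ 2 * Real.log N ^ 2 := by
  obtain ⟨m0, m1⟩ := p03b_mass (N := N) h0 h1 z
  have hS : 0 ≤ ∑ p ∈ Icc 1 N, aS N p * vw N K ((p : ℤ) - z) ∧
      ∑ p ∈ Icc 1 N, aS N p * vw N K ((p : ℤ) - z) ≤ Real.log N := by
    constructor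
    · exact sum_nonneg fun p hp => mul_nonneg (p03b_aS N p hp).1 (h0 _)
    · calc _ ≤ ∑ p ∈ Icc 1 N, Real.log N * vw N K ((p : ℤ) - z) :=
            sum_le_sum fun p hp => mul_le_mul_of_nonneg_right (p03b_aS N p hp).2 (h0 _)
        _ = Real.log N * ∑ p ∈ Icc 1 N, vw N K ((p : ℤ) - z) := by rw [mul_sum]
        _ ≤ Real.log N * 1 := by gcongr
        _ = _ := mul_one _
  have hT : ∀ (q : ℕ) (ψ : DirichletCharacter ℂ q), ‖TS ψ N K z‖ ≤ Real.log N := by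
    intro q ψ
    unfold TS
    refine (norm_sum_le _ _).trans (le_trans (sum_le_sum fun p hp => ?_) hS.2)
    rw [norm_mul, Complex.norm_real, Real.norm_of_nonneg (mul_nonneg (p03b_aS N p hp).1 (h0 _))]
    calc _ ≤ aS N p * vw N K ((p : ℤ) - z) * 1 :=
          mul_le_mul_of_nonneg_left (DirichletCharacter.norm_le_one ψ _)
            (mul_nonneg (p03b_aS N p hp).1 (h0 _))
      _ = _ := mul_one _
  have hT0 : |T0 N K z| ≤ 2 * Real.log N := by
    unfold T0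
    rw [abs_le]
    constructor <;> linarith [hS.1, hS.2]
  have hK1 : (1 : ℝ) ≤ K := by exact_mod_cast hK
  have hTX : ∀ q ∈ Ioc 1 K, ∀ ψ ∈ Pr q, ‖TX c₀ ψ N K z‖ ≤ (1 + Cz) * Real.log N := by
    intro q hq ψ hψ
    have hq' := mem_Ioc.1 hq
    have hqD : q ∈ Icc 1 (K ^ 20) := by
      have : K ≤ K ^ 20 := Nat.le_self_pow (by norm_num) K
      rw [mem_Icc]
      omega
    have hψ' := p03_Prm q hq'.1 hψ
    unfold TX
    refine (norm_add_le _ _).trans ?_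
    rw [Complex.norm_real, Real.norm_eq_abs]
    have h3 : |∑ m ∈ Icc 1 N, wz c₀ (K ^ 20) ψ m * vw N K ((m : ℤ) - z)| ≤ Cz := by
      have hwm : ∀ m ∈ Icc 1 N, 0 ≤ wz c₀ (K ^ 20) ψ (m : ℝ) ∧ wz c₀ (K ^ 20) ψ (m : ℝ) ≤ Cz := by
        intro m hm
        have : (1 : ℝ) ≤ (m : ℝ) := by exact_mod_cast (mem_Icc.1 hm).1
        exact hw q hqD ψ hψ' (m : ℝ) this
      have h30 : 0 ≤ ∑ m ∈ Icc 1 N, wz c₀ (K ^ 20) ψ m * vw N K ((m : ℤ) - z) :=
        sum_nonneg fun m hm => mul_nonneg (hwm m hm).1 (h0 _)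
      rw [abs_of_nonneg h30]
      calc ∑ m ∈ Icc 1 N, wz c₀ (K ^ 20) ψ m * vw N K ((m : ℤ) - z) ≤
          ∑ m ∈ Icc 1 N, Cz * vw N K ((m : ℤ) - z) :=
            sum_le_sum fun m hm => mul_le_mul_of_nonneg_right (hwm m hm).2 (h0 _)
        _ = Cz * ∑ m ∈ Icc 1 N, vw N K ((m : ℤ) - z) := by rw [mul_sum]
        _ ≤ Cz * 1 := by gcongr
        _ = _ := mul_one _
    have h4 := hT q ψ
    nlinarith
  unfold EX
  have a1 : ∑ q ∈ Ioc 1 K, ∑ ψ ∈ Pr q, ‖TX c₀ ψ N K z‖ ^ 2 ≤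
      (K : ℝ) * (K * ((1 + Cz) * Real.log N) ^ 2) := by
    calc _ ≤ ∑ q ∈ Ioc 1 K, (K : ℝ) * ((1 + Cz) * Real.log N) ^ 2 := by
          refine sum_le_sum fun q hq => ?_
          have hq' := mem_Ioc.1 hq
          calc ∑ ψ ∈ Pr q, ‖TX c₀ ψ N K z‖ ^ 2 ≤ ∑ ψ ∈ Pr q, ((1 + Cz) * Real.log N) ^ 2 :=
                sum_le_sum fun ψ hψ => by
                  have := hTX q hq ψ hψ
                  gcongr
            _ = ((Pr q).card : ℝ) * ((1 + Cz) * Real.log N) ^ 2 := by rw [sum_const, nsmul_eq_mul]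
            _ ≤ _ := by
                have h5 := p03b_card_Pr q (by omega)
                have h6 : (q : ℝ) ≤ K := by exact_mod_cast hq'.2
                have h7 := h5.trans h6
                gcongr
      _ = (((K - 1 : ℕ)) : ℝ) * (K * ((1 + Cz) * Real.log N) ^ 2) := by
          rw [sum_const, Nat.card_Ioc, nsmul_eq_mul]
      _ ≤ _ := by
          have h3 : (((K - 1 : ℕ)) : ℝ) ≤ K := by exact_mod_cast Nat.sub_le _ _
          gcongr
  have a2 : T0 N K z ^ 2 ≤ 4 * Real.log N ^ 2 := by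
    have := pow_le_pow_left₀ (abs_nonneg _) hT0 2
    rw [sq_abs] at this
    nlinarith
  have a3 : 1 ≤ (K : ℝ) ^ 2 := one_le_pow₀ hK1
  have a4 : 0 ≤ Real.log N ^ 2 := by positivity
  have a5 : 4 * Real.log N ^ 2 ≤ 4 * (K : ℝ) ^ 2 * Real.log N ^ 2 := by
    calc 4 * Real.log N ^ 2 = 4 * 1 * Real.log N ^ 2 := by ring
      _ ≤ 4 * (K : ℝ) ^ 2 * Real.log N ^ 2 := by gcongr
  calc _ ≤ (K : ℝ) * (K * ((1 + Cz) * Real.log N) ^ 2) + 4 * (K : ℝ) ^ 2 * Real.log N ^ 2 := by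
        linarith
    _ = _ := by ring

theorem ze_nonneg (c₀ : ℝ) (N K : ℕ) (z : ℤ) : 0 ≤ EX c₀ N K z := by
  unfold EX
  have : 0 ≤ ∑ q ∈ Ioc 1 K, ∑ ψ ∈ Pr q, ‖TX c₀ ψ N K z‖ ^ 2 :=
    sum_nonneg fun _ _ => sum_nonneg fun _ _ => by positivity
  positivity

set_option maxHeartbeats 1000000 in
theorem ZE_pr (c₀ : ℝ) (h1 : W01) (hzb : WZB c₀) (h3 : ZD c₀) : ZE c₀ := by
  obtain ⟨C, c, B, hC, hc, hB, K0, hw⟩ := h3
  obtain ⟨Cz, hCz, hwz⟩ := hzb
  obtain ⟨_, _, K01, hw1⟩ := h1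
  obtain ⟨K03, hK03, hnum⟩ := p03b_num
  refine ⟨C + 4 * ((1 + Cz) ^ 2 + 4), c, B, by positivity, hc, hB, max K03 (max K01 K0), ?_⟩
  intro K hK N hR hBN
  have hKa : K03 ≤ K := (le_max_left _ _).trans hK
  have hKb : K01 ≤ K := (le_max_left _ _).trans ((le_max_right _ _).trans hK)
  have hKc : K0 ≤ K := (le_max_right _ _).trans ((le_max_right _ _).trans hK)
  obtain ⟨q1, q2, q3⟩ := hnum K hKa N hR
  obtain ⟨w1, w2, _, _, _⟩ := hw1 K hKb N hR
  have hK10n : 10 ≤ K := hR.hK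
  have hK10 : (10 : ℝ) ≤ K := by exact_mod_cast hK10n
  have hN1 : (K : ℝ) ^ 400 ≤ N := by exact_mod_cast hR.hN
  have hN0 : (0 : ℝ) < N := lt_of_lt_of_le (by positivity) hN1
  have hH0 : 0 < Hw N K := by unfold Hw; positivity
  have hD2 : 2 ≤ K ^ 20 := by
    calc 2 ≤ K := by omega
      _ ≤ K ^ 20 := Nat.le_self_pow (by norm_num) K
  obtain ⟨-, -, z3⟩ := hwz (K ^ 20) hD2
  have hwb : ∀ q ∈ Icc 1 (K ^ 20), ∀ χ ∈ GA.Prm q, ∀ x : ℝ, 1 ≤ x →
      0 ≤ wz c₀ (K ^ 20) χ x ∧ wz c₀ (K ^ 20) χ x ≤ Cz := by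
    intro q hq χ hχ x hx
    have := z3 q hq χ hχ x x hx le_rfl
    exact ⟨this.1, this.2.2.2⟩
  have hMle : (Mw N K : ℝ) ≤ N / (K : ℝ) ^ 7 := by
    have h4 : (Mw N K : ℝ) ≤ Hw N K * Real.log N := by
      unfold Mw
      exact Nat.floor_le (by positivity)
    refine h4.trans ?_
    unfold Hw
    rw [div_mul_eq_mul_div, div_le_div_iff₀ (by positivity) (by positivity)]
    have h5 : Real.log N ≤ K := by linarith
    calc (N : ℝ) * Real.log N * (K : ℝ) ^ 7 ≤ N * K * (K : ℝ) ^ 7 := by gcongr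
      _ = _ := by ring
  have hMN : Mw N K ≤ N := by
    have h4 : (N : ℝ) / (K : ℝ) ^ 7 ≤ N := div_le_self hN0.le (one_le_pow₀ (by linarith))
    have h5 := hMle.trans h4
    exact_mod_cast h5
  set E : ℝ := Real.exp (-(c * Real.log N / Real.log K)) with hE
  have hE0 : 0 < E := Real.exp_pos _
  set g : ℤ → Prop := fun z => (N : ℤ) ≤ z * (K : ℤ) ^ 3 ∧ z + Mw N K ≤ N with hg
  set I := Icc (1 - (Mw N K : ℤ)) ((N : ℤ) + Mw N K) with hI
  have hgood' : ∑ z ∈ I.filter g, EX c₀ N K z ≤ N * (C * (E + 1 / K)) := by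
    have h4 : ∀ z ∈ I.filter g, EX c₀ N K z ≤ C * (E + 1 / K) := by
      intro z hz
      have hz' := (mem_filter.1 hz).2
      have hz0 : 0 ≤ z := by
        by_contra h5
        push Not at h5
        have h6 : z * (K : ℤ) ^ 3 ≤ 0 := mul_nonpos_of_nonpos_of_nonneg h5.le (by positivity)
        have h7 : (0 : ℤ) < N := by exact_mod_cast hN0
        have := hz'.1
        omega
      obtain ⟨n, rfl⟩ := Int.eq_ofNat_of_zero_le hz0
      apply hw K hKc N hR hBN n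
      · have := hz'.1
        exact_mod_cast this
      · have := hz'.2
        exact_mod_cast this
    have h5 : ((I.filter g).card : ℝ) ≤ N := by
      have h6 : I.filter g ⊆ Icc 1 (N : ℤ) := by
        intro z hz
        have hz' := (mem_filter.1 hz).2
        rw [mem_Icc]
        constructor
        · by_contra h5
          push Not at h5
          have h5' : z ≤ 0 := by omega
          have h6 : z * (K : ℤ) ^ 3 ≤ 0 := mul_nonpos_of_nonpos_of_nonneg h5' (by positivity)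
          have h7 : (0 : ℤ) < N := by exact_mod_cast hN0
          have := hz'.1
          omega
        · have := hz'.2
          omega
      have h7 := card_le_card h6
      rw [Int.card_Icc] at h7
      have h8 : ((N : ℤ) + 1 - 1).toNat = N := by omega
      rw [h8] at h7
      exact_mod_cast h7
    refine (sum_le_sum h4).trans ?_
    rw [sum_const, nsmul_eq_mul]
    have h6 : 0 ≤ C * (E + 1 / (K : ℝ)) := by positivity
    gcongr
  have hbad' : ∑ z ∈ I.filter (fun z => ¬ g z), EX c₀ N K z ≤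
      (N / (K : ℝ) ^ 3 + 3 * Mw N K) * (((1 + Cz) ^ 2 + 4) * (K : ℝ) ^ 2 * Real.log N ^ 2) := by
    refine (sum_le_sum fun z _ => ze_crude (fun m => (w1 m).1) w2 q1 (by omega) hCz hwb z).trans ?_
    rw [sum_const, nsmul_eq_mul]
    have h4 := p03b_bad N K (by omega) hMN
    have h5 : 0 ≤ ((1 + Cz) ^ 2 + 4) * (K : ℝ) ^ 2 * Real.log N ^ 2 := by positivity
    exact mul_le_mul_of_nonneg_right h4 h5
  have hsplit : EEX c₀ N K = ∑ z ∈ I.filter g, EX c₀ N K z +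
      ∑ z ∈ I.filter (fun z => ¬ g z), EX c₀ N K z := by
    unfold EEX
    exact (sum_filter_add_sum_filter_not I g _).symm
  rw [hsplit]
  have hs0 : 0 < Real.sqrt K := Real.sqrt_pos.2 (by linarith)
  have hs1 : Real.log N ^ 2 ≤ Real.sqrt K := by
    apply Real.le_sqrt_of_sq_le
    calc (Real.log N ^ 2) ^ 2 = Real.log N ^ 4 := by ring
      _ ≤ (K : ℝ) := q2
  have hs2 : Real.sqrt K * Real.sqrt K = K := Real.mul_self_sqrt (by linarith)
  have b1 : (N / (K : ℝ) ^ 3 + 3 * Mw N K) * (((1 + Cz) ^ 2 + 4) * (K : ℝ) ^ 2 * Real.log N ^ 2) ≤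
      4 * ((1 + Cz) ^ 2 + 4) * N * (1 / Real.sqrt K) := by
    have h4 : (N / (K : ℝ) ^ 3 + 3 * Mw N K) ≤ 4 * (N / (K : ℝ) ^ 3) := by
      have h5 : (N : ℝ) / (K : ℝ) ^ 7 ≤ N / (K : ℝ) ^ 3 := by
        apply div_le_div_of_nonneg_left hN0.le (by positivity)
        exact pow_le_pow_right₀ (by linarith) (by norm_num)
      linarith
    calc _ ≤ 4 * (N / (K : ℝ) ^ 3) * (((1 + Cz) ^ 2 + 4) * (K : ℝ) ^ 2 * Real.sqrt K) := by gcongr
      _ = 4 * ((1 + Cz) ^ 2 + 4) * N * (Real.sqrt K / K) := by field_simp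
      _ = _ := by
          congr 1
          rw [div_eq_div_iff (by linarith) hs0.ne', hs2, one_mul]
  have b2 : 1 / (K : ℝ) ≤ 1 / Real.sqrt K := by
    apply one_div_le_one_div_of_le hs0
    rw [Real.sqrt_le_left (by linarith)]
    nlinarith
  calc _ ≤ N * (C * (E + 1 / K)) + 4 * ((1 + Cz) ^ 2 + 4) * N * (1 / Real.sqrt K) :=
        add_le_add hgood' (hbad'.trans b1)
    _ ≤ N * (C * (E + 1 / Real.sqrt K)) + 4 * ((1 + Cz) ^ 2 + 4) * N * (1 / Real.sqrt K) := by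
        gcongr
    _ ≤ _ := by
        have h4 : 0 ≤ 4 * ((1 + Cz) ^ 2 + 4) * ((N : ℝ) * E) := by positivity
        have h6 : (C + 4 * ((1 + Cz) ^ 2 + 4)) * N * (E + 1 / Real.sqrt K) =
            N * (C * (E + 1 / Real.sqrt K)) + 4 * ((1 + Cz) ^ 2 + 4) * N * (1 / Real.sqrt K) +
            4 * ((1 + Cz) ^ 2 + 4) * (N * E) := by ring
        rw [h6]
        linarith

end Pool.Agent.LHM
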