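import Pool.Agent.Lib_helper3.FGP.P01
import Pool.Agent.Lib_helper3.FGP.P02
import Pool.Agent.Lib_helper3.FGP.P06
import Pool.Agent.Lib_helper3.FGP.P09
import Pool.Agent.Lib_helper59.LHM.LA
import Pool.Agent.Lib_helper59.LHM.LB
import Pool.Agent.Lib_helper59.LHM.LC
import Pool.Agent.Lib_helper59.LHM.LD
import Pool.Agent.Lib_helper59.LHM.LE
import Pool.Agent.Lib_helper59.LHM.LF
import Pool.Agent.Lib_helper59.LHM.LFIN
import Pool.Agent.Lib_helper59.LHM.LG
import Pool.Agent.Lib_helper59.LHM.LH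
import Pool.Agent.Lib_helper59.LHM.LI
import Pool.Agent.Lib_helper59.LHM.LP
import Pool.Agent.Lib_helper59.LHM.ZA
import Pool.Agent.Lib_helper59.LHM.ZB
import Pool.Agent.Lib_helper59.LHM.ZC
import Pool.Agent.Lib_helper59.LHM.ZD
import Pool.Agent.Lib_helper59.LHM.ZE

/-!
# LHM: the lower half of the mean of the variance, for every `X` (MP_5dd4bb_nt)
-/

set_option autoImplicit false

namespace Pool.Agent.LHM

open Pool.Agent.FGP

/-- the lower half of the mean of the variance of the primes in progressions, for every `X`,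
nothing removed, exceptional zeros allowed -/
theorem lower_half : LFIN := by
  obtain ⟨c, hc⟩ := ZA_pr
  have hB := WZB_pr c hc
  have hZD := ZD_pr c hB (ZC_pr c hc hB) W01_pr W02_pr
  have hZE := ZE_pr c W01_pr hB hZD
  have hLC := LC_pr c W01_pr W06_pr W09_pr LP_pr
  have hLH := LH_pr c W01_pr hB
  have hLI := LI_pr c hB LD_pr LE_pr LF_pr hLH
  exact LFIN_pr c hZE (LJ_pr c LA_pr LB_pr hLC LG_pr hLI)

end Pool.Agent.LHM
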