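import Pool.Agent.Lib_helper59.LHM.Wanted
import Pool.Agent.Lib_helper3.FGP.P03b

/-!
# LHM, block LH: the gain (helper25)
-/

set_option autoImplicit false

namespace Pool.Agent.LHM

open Finset Pool.Agent.Var35 Pool.Agent.Var73 Pool.Agent.PV Pool.Agent.FGP
open scoped ArithmeticFunction ArithmeticFunction.Moebius

/-- the sum of the window over the centres -/
theorem lh_vw {N K : ℕ} (h1 : ∑ m ∈ Iw N K, vw N K m = 1) {p : ℕ} (hp : p ∈ Icc 1 N) :
    ∑ n ∈ Icc (1 - (Mw N K : ℤ)) ((N : ℤ) + Mw N K), vw N K ((p : ℤ) - n) = 1 := by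
  rw [← h1]
  have h2 : ∑ j ∈ Iw N K, vw N K j =
      ∑ n ∈ (Iw N K).image (fun j => (p : ℤ) - j), vw N K ((p : ℤ) - n) := by
    rw [sum_image (fun a _ b _ (hab : (p : ℤ) - a = (p : ℤ) - b) => by omega)]
    refine sum_congr rfl fun j _ => ?_
    rw [sub_sub_cancel]
  rw [h2]
  symm
  refine sum_subset ?_ ?_
  · intro n hn
    rw [mem_image] at hn
    obtain ⟨j, hj, rfl⟩ := hn
    unfold Iw at hj
    rw [mem_Icc] at hj hp ⊢
    omega
  · intro n _ hn
    have h3 : (p : ℤ) - n ∉ Iw N K := fun h => hn (mem_image.2 ⟨_, h, by ring⟩)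
    unfold vw
    rw [if_neg h3]

/-- the sum of the corrected windows -/
theorem lh_TT {c : ℝ} {q N K : ℕ} (ψ : DirichletCharacter ℂ q)
    (h1 : ∑ m ∈ Iw N K, vw N K m = 1) :
    ∑ n ∈ Icc (1 - (Mw N K : ℤ)) ((N : ℤ) + Mw N K), TX c ψ N K n =
      ∑ p ∈ Icc 1 N, (aS N p : ℂ) * ψ (p : ZMod q) +
        ((∑ m ∈ Icc 1 N, wz c (K ^ 20) ψ m : ℝ) : ℂ) := by
  unfold TX TS
  rw [sum_add_distrib, sum_comm]
  congr 1
  · refine sum_congr rfl fun p hp => ?_
    rw [← sum_mul]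
    congr 1
    rw [← Complex.ofReal_sum, ← mul_sum, lh_vw h1 hp, mul_one]
  · rw [← Complex.ofReal_sum, sum_comm]
    congr 1
    refine sum_congr rfl fun m hm => ?_
    rw [← mul_sum, lh_vw h1 hm, mul_one]

/-- Cauchy's inequality -/
theorem lh_cauchy {ι : Type} (s : Finset ι) (f : ι → ℂ) :
    ‖∑ i ∈ s, f i‖ ^ 2 ≤ (s.card : ℝ) * ∑ i ∈ s, ‖f i‖ ^ 2 := by
  have h1 : ‖∑ i ∈ s, f i‖ ≤ ∑ i ∈ s, ‖f i‖ := norm_sum_le _ _
  have h2 : (∑ i ∈ s, ‖f i‖) ^ 2 ≤ (s.card : ℝ) * ∑ i ∈ s, ‖f i‖ ^ 2 :=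
    sq_sum_le_card_mul_sum_sq
  exact (pow_le_pow_left₀ (norm_nonneg _) h1 2).trans h2

theorem lh_aS0 (N n : ℕ) (hn : 1 ≤ n) : 0 ≤ aS N n := by
  unfold aS
  split_ifs
  · exact Real.log_nonneg (by exact_mod_cast hn)
  · exact le_rfl

theorem lh_aS_le (N n : ℕ) : aS N n ≤ ArithmeticFunction.vonMangoldt n := by
  unfold aS
  split_ifs with h
  · rw [ArithmeticFunction.vonMangoldt_apply_prime h.1]
  · exact ArithmeticFunction.vonMangoldt_nonneg

/-- the difference between the von Mangoldt function and `aS` -/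
theorem lh_cheb {N : ℕ} (hN : 1 ≤ N) :
    ∑ n ∈ Icc 1 N, (ArithmeticFunction.vonMangoldt n - aS N n) ≤
      3 * (Real.sqrt N * Real.log N) := by
  classical
  have hI : Icc 1 N = Ioc 0 N := by
    ext n
    simp only [mem_Icc, mem_Ioc]
    omega
  have hlog : 0 ≤ Real.log N := Real.log_nonneg (by exact_mod_cast hN)
  have e1 : ∀ n ∈ Icc 1 N, ArithmeticFunction.vonMangoldt n - aS N n =
      (ArithmeticFunction.vonMangoldt n - if n.Prime then Real.log n else 0) +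
        if n.Prime ∧ n ≤ Nat.sqrt N then Real.log n else 0 := by
    intro n _
    unfold aS
    by_cases h1 : n.Prime
    · by_cases h2 : Nat.sqrt N < n
      · rw [if_pos ⟨h1, h2⟩, if_pos h1, if_neg (fun h => by omega)]
        ring
      · rw [if_neg (fun h => h2 h.2), if_pos h1, if_pos ⟨h1, by omega⟩]
        ring
    · rw [if_neg (fun h => h1 h.1), if_neg h1, if_neg (fun h => h1 h.1)]
      ring
  rw [sum_congr rfl e1, sum_add_distrib, sum_sub_distrib]
  have h1 : ∑ n ∈ Icc 1 N, ArithmeticFunction.vonMangoldt n -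
      (∑ n ∈ Icc 1 N, if n.Prime then Real.log n else 0) ≤ 2 * (Real.sqrt N * Real.log N) := by
    have h2 := Chebyshev.abs_psi_sub_theta_le_sqrt_mul_log (x := (N : ℝ)) (by exact_mod_cast hN)
    have h3 := (abs_le.1 h2).2
    unfold Chebyshev.psi Chebyshev.theta at h3
    rw [Nat.floor_natCast, sum_filter, ← hI] at h3
    linarith
  have h4 : (∑ n ∈ Icc 1 N, if n.Prime ∧ n ≤ Nat.sqrt N then Real.log n else 0) ≤
      Real.sqrt N * Real.log N := by
    calc (∑ n ∈ Icc 1 N, if n.Prime ∧ n ≤ Nat.sqrt N then Real.log n else 0)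
        ≤ ∑ n ∈ Icc 1 N, if n ≤ Nat.sqrt N then Real.log N else 0 := by
          refine sum_le_sum fun n hn => ?_
          rw [mem_Icc] at hn
          have h5 : Real.log n ≤ Real.log N :=
            Real.log_le_log (by exact_mod_cast hn.1) (by exact_mod_cast hn.2)
          by_cases h6 : n ≤ Nat.sqrt N
          · rw [if_pos h6]
            split_ifs
            · exact h5
            · exact hlog
          · rw [if_neg h6, if_neg (fun h => h6 h.2)]
      _ = (((Icc 1 N).filter (fun n => n ≤ Nat.sqrt N)).card : ℝ) * Real.log N := by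
          rw [← sum_filter, sum_const, nsmul_eq_mul]
      _ ≤ (Nat.sqrt N : ℝ) * Real.log N := by
          refine mul_le_mul_of_nonneg_right ?_ hlog
          have h7 : (Icc 1 N).filter (fun n => n ≤ Nat.sqrt N) ⊆ Icc 1 (Nat.sqrt N) := by
            intro n hn
            rw [mem_filter, mem_Icc] at hn
            rw [mem_Icc]
            exact ⟨hn.1.1, hn.2⟩
          have h8 := card_le_card h7
          rw [Nat.card_Icc] at h8
          exact_mod_cast h8.trans (by omega)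
      _ ≤ Real.sqrt N * Real.log N :=
          mul_le_mul_of_nonneg_right Real.nat_sqrt_le_real_sqrt hlog
  linarith

/-- the primes `> √N` which divide `Q` -/
theorem lh_div {N Q : ℕ} (hN : 1 ≤ N) (hQ : 1 ≤ Q) (hQN : Q ≤ N) :
    ∑ n ∈ (Icc 1 N).filter (fun n => ¬ Nat.Coprime n Q), aS N n ≤ Real.log N := by
  classical
  have hlog : 0 ≤ Real.log N := Real.log_nonneg (by exact_mod_cast hN)
  set S := ((Icc 1 N).filter (fun n => ¬ Nat.Coprime n Q)).filter
    (fun n => n.Prime ∧ Nat.sqrt N < n) with hS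
  have h1 : ∑ n ∈ (Icc 1 N).filter (fun n => ¬ Nat.Coprime n Q), aS N n =
      ∑ n ∈ S, Real.log n := by
    rw [hS, sum_filter (fun n => n.Prime ∧ Nat.sqrt N < n)]
    rfl
  have h2 : S.card ≤ 1 := by
    rw [card_le_one]
    intro a ha b hb
    rw [hS, mem_filter, mem_filter, mem_Icc] at ha hb
    by_contra hab
    have ha1 : a ∣ Q := by
      by_contra h
      exact ha.1.2 ((Nat.Prime.coprime_iff_not_dvd ha.2.1).2 h)
    have hb1 : b ∣ Q := by
      by_contra h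
      exact hb.1.2 ((Nat.Prime.coprime_iff_not_dvd hb.2.1).2 h)
    have hc : Nat.Coprime a b := (Nat.coprime_primes ha.2.1 hb.2.1).2 hab
    have h3 : a * b ∣ Q := Nat.Coprime.mul_dvd_of_dvd_of_dvd hc ha1 hb1
    have h4 : a * b ≤ Q := Nat.le_of_dvd (by omega) h3
    have h5 : N < (Nat.sqrt N + 1) * (Nat.sqrt N + 1) := Nat.lt_succ_sqrt N
    have h6 : (Nat.sqrt N + 1) * (Nat.sqrt N + 1) ≤ a * b :=
      Nat.mul_le_mul (by omega) (by omega)
    omega
  rw [h1]
  calc ∑ n ∈ S, Real.log n ≤ ∑ n ∈ S, Real.log N := by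
        refine sum_le_sum fun n hn => ?_
        rw [hS, mem_filter, mem_filter, mem_Icc] at hn
        exact Real.log_le_log (by exact_mod_cast hn.1.1.1) (by exact_mod_cast hn.1.1.2)
    _ = (S.card : ℝ) * Real.log N := by rw [sum_const, nsmul_eq_mul]
    _ ≤ 1 * Real.log N := mul_le_mul_of_nonneg_right (by exact_mod_cast h2) hlog
    _ = _ := one_mul _

theorem lh_err {N Q q : ℕ} (hN : 1 ≤ N) (hQ : 1 ≤ Q) (hQN : Q ≤ N)
    (ψ : DirichletCharacter ℂ q) :
    ‖∑ n ∈ (Icc 1 N).filter (fun n => Nat.Coprime n Q), (HC.Lam n : ℂ) * ψ (n : ZMod q) -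
      ∑ p ∈ Icc 1 N, (aS N p : ℂ) * ψ (p : ZMod q)‖ ≤ 4 * (Real.sqrt N * Real.log N) := by
  classical
  have hlog : 0 ≤ Real.log N := Real.log_nonneg (by exact_mod_cast hN)
  rw [sum_filter, ← sum_sub_distrib]
  have h1 : ∀ n ∈ Icc 1 N, ‖(if Nat.Coprime n Q then (HC.Lam n : ℂ) * ψ (n : ZMod q) else 0) -
      (aS N n : ℂ) * ψ (n : ZMod q)‖ ≤ (ArithmeticFunction.vonMangoldt n - aS N n) +
        if ¬ Nat.Coprime n Q then aS N n else 0 := by
    intro n hn
    rw [mem_Icc] at hn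
    have h0 := lh_aS0 N n hn.1
    have h2 := lh_aS_le N n
    have hψ := DirichletCharacter.norm_le_one ψ (n : ZMod q)
    by_cases hc : Nat.Coprime n Q
    · rw [if_pos hc, if_neg (not_not.2 hc), add_zero, ← sub_mul, norm_mul, ← Complex.ofReal_sub,
        Complex.norm_real, Real.norm_of_nonneg (by show 0 ≤ HC.Lam n - aS N n; linarith)]
      exact mul_le_of_le_one_right (by linarith) hψ
    · rw [if_neg hc, if_pos hc, zero_sub, norm_neg, norm_mul, Complex.norm_real,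
        Real.norm_of_nonneg h0]
      have h3 : aS N n * ‖ψ (n : ZMod q)‖ ≤ aS N n := mul_le_of_le_one_right h0 hψ
      linarith
  refine (norm_sum_le _ _).trans ((sum_le_sum h1).trans ?_)
  rw [sum_add_distrib, ← sum_filter]
  have h2 := lh_cheb hN
  have h3 := lh_div hN hQ hQN
  have h4 : 1 * Real.log N ≤ Real.sqrt N * Real.log N :=
    mul_le_mul_of_nonneg_right (Real.one_le_sqrt.2 (by exact_mod_cast hN)) hlog
  linarith

/-- the sum over the multiples of `q` -/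
theorem lh_harm {q Y : ℕ} (hq : 1 ≤ q) (hqY : q ≤ Y) :
    Real.log (Y / q) / q ≤
      ∑ Q ∈ (Icc 1 Y).filter (fun Q => q ∣ Q), 1 / (Nat.totient Q : ℝ) := by
  classical
  have hq0 : (0 : ℝ) < q := by exact_mod_cast hq
  have h1 : Real.log (Y / q) ≤ ∑ m ∈ Icc 1 (Y / q), (1 : ℝ) / m := by
    have h2 := log_add_one_le_harmonic (Y / q)
    rw [harmonic_eq_sum_Icc] at h2
    push_cast at h2
    have h3 : Real.log (Y / q) ≤ Real.log (((Y / q : ℕ) : ℝ) + 1) := by
      refine Real.log_le_log ?_ ?_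
      · have : (0 : ℝ) < Y := by exact_mod_cast (by omega : 0 < Y)
        positivity
      · rw [div_le_iff₀ hq0]
        have h4 : Y < (Y / q + 1) * q := by
          have := Nat.lt_div_mul_add (a := Y) (b := q) (by omega)
          rw [add_mul, one_mul]
          exact this
        exact_mod_cast h4.le
    refine h3.trans (h2.trans (le_of_eq ?_))
    refine sum_congr rfl fun m _ => ?_
    rw [one_div]
  calc Real.log (Y / q) / q ≤ (∑ m ∈ Icc 1 (Y / q), (1 : ℝ) / m) / q :=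
        div_le_div_of_nonneg_right h1 hq0.le
    _ = ∑ m ∈ Icc 1 (Y / q), 1 / ((q * m : ℕ) : ℝ) := by
        rw [sum_div]
        refine sum_congr rfl fun m _ => ?_
        push_cast
        rw [div_div, mul_comm (m : ℝ)]
    _ = ∑ Q ∈ (Icc 1 (Y / q)).image (fun m => q * m), 1 / (Q : ℝ) := by
        rw [sum_image (fun a _ b _ hab => Nat.eq_of_mul_eq_mul_left (by omega : 0 < q) hab)]
    _ ≤ ∑ Q ∈ (Icc 1 Y).filter (fun Q => q ∣ Q), 1 / (Q : ℝ) := by
        refine sum_le_sum_of_subset_of_nonneg ?_ (fun _ _ _ => by positivity)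
        intro Q hQ
        rw [mem_image] at hQ
        obtain ⟨m, hm, rfl⟩ := hQ
        rw [mem_Icc] at hm
        rw [mem_filter, mem_Icc]
        refine ⟨⟨Nat.mul_pos (by omega) (by omega), ?_⟩, dvd_mul_right q m⟩
        calc q * m ≤ q * (Y / q) := Nat.mul_le_mul_left q hm.2
          _ ≤ Y := Nat.mul_div_le Y q
    _ ≤ _ := by
        refine sum_le_sum fun Q hQ => ?_
        rw [mem_filter, mem_Icc] at hQ
        have h5 : 0 < Nat.totient Q := Nat.totient_pos.2 (by omega)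
        exact one_div_le_one_div_of_le (by exact_mod_cast h5)
          (by exact_mod_cast Nat.totient_le Q)

theorem LH_pr (c₀ : ℝ) (h1 : W01) (h2 : WZB c₀) : LH c₀ := by
  classical
  obtain ⟨C1, -, K1, hW⟩ := h1
  obtain ⟨C2, -, hZ⟩ := h2
  obtain ⟨K2, -, hnum⟩ := p03b_num
  refine ⟨96, by norm_num, max K1 K2, fun K hK N Y hR hYN q hq ψ hψ hqY hyp => ?_⟩
  obtain ⟨-, hsum, -⟩ := hW K ((le_max_left _ _).trans hK) N hR
  obtain ⟨hL1, -, hL3⟩ := hnum K ((le_max_right _ _).trans hK) N hR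
  rw [mem_Ioc] at hq
  have hK10 : 10 ≤ K := hR.hK
  have hN1 : 1 ≤ N := by
    have h3 : 0 < K ^ 400 := pow_pos (by omega) 400
    exact lt_of_lt_of_le h3 hR.hN
  have hN0 : (0 : ℝ) < N := by exact_mod_cast hN1
  have hNn : (0 : ℝ) ≤ N := hN0.le
  -- the character is not principal
  have hψP : ψ ∈ GA.Prm q := by
    rw [mem_Pr] at hψ
    unfold GA.Prm
    rw [mem_filter]
    refine ⟨mem_univ _, hψ, ?_⟩
    rintro rfl
    have h3 : (1 : DirichletCharacter ℂ q).conductor = q := hψ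
    have : NeZero q := ⟨by omega⟩
    rw [DirichletCharacter.conductor_one] at h3
    omega
  have hK20 : 2 ≤ K ^ 20 := by
    calc 2 ≤ K := by omega
      _ ≤ K ^ 20 := Nat.le_self_pow (by norm_num) K
  have hqD : q ∈ Icc 1 (K ^ 20) := by
    rw [mem_Icc]
    exact ⟨by omega, hq.2.trans (Nat.le_self_pow (by norm_num) K)⟩
  have hmono := (hZ (K ^ 20) hK20).2.2 q hqD ψ hψP
  set w : ℝ := wz c₀ (K ^ 20) ψ N with hw
  have hw0 : 0 ≤ w := (hmono N N (by exact_mod_cast hN1) le_rfl).1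
  -- the sum of the densities
  set W : ℝ := ∑ m ∈ Icc 1 N, wz c₀ (K ^ 20) ψ m with hWdef
  have hWN : N * w ≤ W := by
    calc (N : ℝ) * w = ∑ m ∈ Icc 1 N, w := by
          rw [sum_const, Nat.card_Icc, nsmul_eq_mul]
          simp
      _ ≤ W := by
          refine sum_le_sum fun m hm => ?_
          rw [mem_Icc] at hm
          exact (hmono m N (by exact_mod_cast hm.1) (by exact_mod_cast hm.2)).2.1
  set A : ℂ := ∑ p ∈ Icc 1 N, (aS N p : ℂ) * ψ (p : ZMod q) with hA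
  set T : ℂ := ∑ n ∈ Icc (1 - (Mw N K : ℤ)) ((N : ℤ) + Mw N K), TX c₀ ψ N K n with hT
  have hTT : T = A + (W : ℂ) := lh_TT ψ hsum
  -- the bound of `T`
  have hMw : (2 * Mw N K : ℝ) ≤ N := by
    have h3 : (Mw N K : ℝ) ≤ Hw N K * Real.log N := by
      unfold Mw
      refine Nat.floor_le (mul_nonneg ?_ (by linarith))
      unfold Hw
      positivity
    have hKr : (10 : ℝ) ≤ K := by exact_mod_cast hK10
    have h4 : Hw N K * Real.log N * 2 ≤ (N : ℝ) := by
      unfold Hw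
      have hK8 : (0 : ℝ) < (K : ℝ) ^ 8 := by positivity
      have h5 : (K : ℝ) ≤ (K : ℝ) ^ 8 := le_self_pow₀ (by linarith) (by norm_num)
      have h6 : Real.log N * 2 ≤ (K : ℝ) ^ 8 := by linarith
      calc (N : ℝ) / (K : ℝ) ^ 8 * Real.log N * 2 =
          (N : ℝ) * (Real.log N * 2 / (K : ℝ) ^ 8) := by ring
        _ ≤ (N : ℝ) * 1 := by
            refine mul_le_mul_of_nonneg_left ?_ hNn
            rw [div_le_one hK8]
            exact h6
        _ = (N : ℝ) := mul_one _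
    linarith
  have hVx0 : 0 ≤ Vx c₀ ψ N K := by
    unfold Vx
    exact sum_nonneg fun _ _ => by positivity
  have hTb : ‖T‖ ^ 2 ≤ 2 * N * Vx c₀ ψ N K := by
    have h3 := lh_cauchy (Icc (1 - (Mw N K : ℤ)) ((N : ℤ) + Mw N K)) (fun n => TX c₀ ψ N K n)
    have h4 : ((Icc (1 - (Mw N K : ℤ)) ((N : ℤ) + Mw N K)).card : ℝ) ≤ 2 * N := by
      rw [Int.card_Icc]
      have h5 : ((N : ℤ) + Mw N K + 1 - (1 - (Mw N K : ℤ))).toNat = N + 2 * Mw N K := by omega
      rw [h5]
      push_cast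
      linarith
    exact h3.trans (mul_le_mul_of_nonneg_right h4 hVx0)
  have hE0 : 0 ≤ Real.sqrt N * Real.log N := by positivity
  have hE2 : (Real.sqrt N * Real.log N) ^ 2 = N * Real.log N ^ 2 := by
    rw [mul_pow, Real.sq_sqrt hNn]
  -- one modulus
  have hone : ∀ Q ∈ (Icc 1 Y).filter (fun Q => q ∣ Q), (N * w) ^ 2 ≤
      6 * ‖∑ n ∈ (Icc 1 N).filter (fun n => Nat.Coprime n Q),
        (HC.Lam n : ℂ) * ψ (n : ZMod q)‖ ^ 2 := by
    intro Q hQ
    rw [mem_filter, mem_Icc] at hQ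
    set S : ℂ := ∑ n ∈ (Icc 1 N).filter (fun n => Nat.Coprime n Q),
        (HC.Lam n : ℂ) * ψ (n : ZMod q) with hS
    have he : ‖S - A‖ ≤ 4 * (Real.sqrt N * Real.log N) :=
      lh_err hN1 hQ.1.1 (hQ.1.2.trans hYN) ψ
    have h3 : (W : ℂ) = T - S + (S - A) := by rw [hTT]; ring
    have hW0 : 0 ≤ W := le_trans (by positivity) hWN
    have h4 : W ≤ ‖T‖ + ‖S‖ + 4 * (Real.sqrt N * Real.log N) := by
      calc W = ‖(W : ℂ)‖ := by rw [Complex.norm_real, Real.norm_of_nonneg hW0]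
        _ = ‖T - S + (S - A)‖ := by rw [h3]
        _ ≤ ‖T - S‖ + ‖S - A‖ := norm_add_le _ _
        _ ≤ ‖T‖ + ‖S‖ + ‖S - A‖ := by
            have := norm_sub_le T S
            linarith
        _ ≤ _ := by linarith
    have h5 : N * w ≤ ‖T‖ + ‖S‖ + 4 * (Real.sqrt N * Real.log N) := hWN.trans h4
    have h6 : (N * w) ^ 2 ≤ (‖T‖ + ‖S‖ + 4 * (Real.sqrt N * Real.log N)) ^ 2 :=
      pow_le_pow_left₀ (by positivity) h5 2
    have h7 : (‖T‖ + ‖S‖ + 4 * (Real.sqrt N * Real.log N)) ^ 2 ≤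
        3 * (‖T‖ ^ 2 + ‖S‖ ^ 2 + 16 * (Real.sqrt N * Real.log N) ^ 2) := by
      nlinarith [sq_nonneg (‖T‖ - ‖S‖), sq_nonneg (‖T‖ - 4 * (Real.sqrt N * Real.log N)),
        sq_nonneg (‖S‖ - 4 * (Real.sqrt N * Real.log N))]
    rw [hE2] at h7
    have h8 : 0 ≤ N * Vx c₀ ψ N K := by positivity
    nlinarith
  have hsumQ := lh_harm (by omega : 1 ≤ q) hqY
  have hNw : 0 ≤ (N * w) ^ 2 := by positivity
  calc (N * w) ^ 2 * (Real.log (Y / q) / q)
      ≤ (N * w) ^ 2 * ∑ Q ∈ (Icc 1 Y).filter (fun Q => q ∣ Q), 1 / (Nat.totient Q : ℝ) :=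
        mul_le_mul_of_nonneg_left hsumQ hNw
    _ = ∑ Q ∈ (Icc 1 Y).filter (fun Q => q ∣ Q), 1 / (Nat.totient Q : ℝ) * (N * w) ^ 2 := by
        rw [mul_comm, sum_mul]
    _ ≤ ∑ Q ∈ (Icc 1 Y).filter (fun Q => q ∣ Q), 1 / (Nat.totient Q : ℝ) *
        (6 * ‖∑ n ∈ (Icc 1 N).filter (fun n => Nat.Coprime n Q),
        (HC.Lam n : ℂ) * ψ (n : ZMod q)‖ ^ 2) :=
        sum_le_sum fun Q hQ => mul_le_mul_of_nonneg_left (hone Q hQ) (by positivity)
    _ = 6 * Gn ψ N Y := by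
        unfold Gn
        rw [mul_sum]
        refine sum_congr rfl fun Q _ => ?_
        ring

end Pool.Agent.LHM
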