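import Pool.Agent.Lib_helper3.FGP.Wanted
import Pool.Agent.Lib_helper59.MF.Defs

/-!
# LHM: the lower half of the mean of the variance (MP_5dd4bb_nt). Definitions

`N` natural, `K` with `K ^ 400 ≤ N`, `log ^ 100 N ≤ K` (`FGP.Rg`); zeros and characters of conductor
at most `D = K ^ 20`.
-/

set_option autoImplicit false

namespace Pool.Agent.LHM

open Finset Pool.Agent.Var35 Pool.Agent.Var73 Pool.Agent.PV Pool.Agent.FGP
open scoped ArithmeticFunction ArithmeticFunction.Moebius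

/-! ## Bad zeros -/

/-- `c` is a constant of the zero-free region: the zeros to the right of `1 - c / log D` are real -/
def ZF (c : ℝ) : Prop := 0 < c ∧ c ≤ 1 / 32 ∧ ∀ D : ℕ, 2 ≤ D → ∀ q ∈ Icc 1 D, ∀ χ ∈ GA.Prm q,
  ∀ ρ : ℂ, GA.LF χ ρ = 0 → |ρ.im| ≤ D → 1 - c / Real.log D < ρ.re → ρ.im = 0

/-- the bad zeros of `χ` -/
noncomputable def BZ {q : ℕ} (c : ℝ) (D : ℕ) (χ : DirichletCharacter ℂ q) : Finset ℂ :=
  (GA.zr (GA.LF χ) (1 / 16) D).filter (fun ρ => 1 - c / Real.log D < ρ.re)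

/-- their density `∑ m(ρ) x^(ρ - 1)` -/
noncomputable def wz {q : ℕ} (c : ℝ) (D : ℕ) (χ : DirichletCharacter ℂ q) (x : ℝ) : ℝ :=
  ∑ ρ ∈ BZ c D χ, GA.mlt (GA.LF χ) ρ * x ^ (ρ.re - 1)

/-- the same for the Gamma window of the library GA -/
noncomputable def wg {q : ℕ} (c : ℝ) (D : ℕ) (χ : DirichletCharacter ℂ q) (k : ℕ) (M : ℝ) : ℝ :=
  ∑ ρ ∈ BZ c D χ, GA.mlt (GA.LF χ) ρ * ((k / M) / (k / M + (1 - ρ.re))) ^ (k + 1)

/-! ## The energy -/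

/-- twisted sum over the primes of the window around `n`, corrected by the bad zeros -/
noncomputable def TX {q : ℕ} (c : ℝ) (ψ : DirichletCharacter ℂ q) (N K : ℕ) (n : ℤ) : ℂ :=
  TS ψ N K n + ((∑ m ∈ Icc 1 N, wz c (K ^ 20) ψ m * vw N K ((m : ℤ) - n) : ℝ) : ℂ)

/-- the energy of one window -/
noncomputable def EX (c : ℝ) (N K : ℕ) (n : ℤ) : ℝ :=
  (∑ q ∈ Ioc 1 K, ∑ ψ ∈ Pr q, ‖TX c ψ N K n‖ ^ 2) + T0 N K n ^ 2

/-- the energy of one character -/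
noncomputable def Vx {q : ℕ} (c : ℝ) (ψ : DirichletCharacter ℂ q) (N K : ℕ) : ℝ :=
  ∑ n ∈ Icc (1 - (Mw N K : ℤ)) ((N : ℤ) + Mw N K), ‖TX c ψ N K n‖ ^ 2

/-- the total energy -/
noncomputable def EEX (c : ℝ) (N K : ℕ) : ℝ :=
  ∑ n ∈ Icc (1 - (Mw N K : ℤ)) ((N : ℤ) + Mw N K), EX c N K n

/-! ## Exponential sums -/

/-- `∑ aS(n) ψ(n) e(n b)` -/
noncomputable def Sz {q : ℕ} (ψ : DirichletCharacter ℂ q) (N : ℕ) (b : ℝ) : ℂ :=
  ∑ n ∈ Icc 1 N, (aS N n : ℂ) * ψ (n : ZMod q) * e (n * b)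

/-- `∑ wz(n) e(n b)` -/
noncomputable def Jz {q : ℕ} (c : ℝ) (ψ : DirichletCharacter ℂ q) (N K : ℕ) (b : ℝ) : ℂ :=
  ∑ n ∈ Icc 1 N, (wz c (K ^ 20) ψ n : ℂ) * e (n * b)

/-- `∑_c |Ps(c/r + β) - μ(r)/φ(r) In(β)|²` -/
noncomputable def EM (N r : ℕ) (β : ℝ) : ℝ :=
  ∑ c ∈ Cd r, ‖Ps N (c / r + β) - ((mr r : ℝ) : ℂ) * In N β‖ ^ 2

/-- the defect for the primes `> √N` -/
noncomputable def DA (N Y R : ℕ) (w : ℕ → ℝ) : ℝ :=
  Y * ∑ r ∈ Icc 1 R, ∫ β in (-(w r))..(w r), HC.kk (r * Y * |β|) * EM N r β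

/-! ## Arithmetic -/

/-- the cofactors -/
def MM (q R : ℕ) : Finset ℕ := (Icc 1 (R / q)).filter (fun m => Squarefree m ∧ Nat.Coprime m q)

/-- the weight of the denominator `q m` for a character of conductor `q` -/
noncomputable def Wt2 (q m : ℕ) : ℝ := (q / Nat.totient q : ℝ) * (1 / (Nat.totient m : ℝ))

/-- the part of the bad zeros of `ψ` in the defect -/
noncomputable def JP {q : ℕ} (c : ℝ) (ψ : DirichletCharacter ℂ q) (N K Y R : ℕ) (b : ℝ) : ℝ :=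
  ∑ m ∈ MM q R, Wt2 q m * ∫ β in (-b)..b, HC.kk (q * m * Y * |β|) * ‖Jz c ψ N K β‖ ^ 2

/-- `min (1, x (1 + log (1/x)))`, roughly -/
noncomputable def gg (x : ℝ) : ℝ := if 1 ≤ x then 1 else x * (1 + Real.log (1 / x))

/-- the sum of the weights -/
noncomputable def FS (q R : ℕ) (z : ℝ) : ℝ := ∑ m ∈ MM q R, Wt2 q m * gg (z / (q * m))

/-- `G` -/
noncomputable def Gf (R : ℕ) (z : ℝ) : ℝ :=
  (1 + Real.log R) + Real.sqrt (1 + Real.log R) * (1 + Real.log (R / z))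

/-- the contribution of the characters induced by `ψ` to `∑_{Q ≤ Y} L(X, Q)` -/
noncomputable def Gn {q : ℕ} (ψ : DirichletCharacter ℂ q) (N Y : ℕ) : ℝ :=
  ∑ Q ∈ (Icc 1 Y).filter (fun Q => q ∣ Q), (1 / (Nat.totient Q : ℝ)) *
    ‖∑ n ∈ (Icc 1 N).filter (fun n => Nat.Coprime n Q), (HC.Lam n : ℂ) * ψ (n : ZMod q)‖ ^ 2

end Pool.Agent.LHM
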