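import Pool.Agent.Lib_helper59.LHM.Defs

/-!
# LHM: the blocks (MP_5dd4bb_nt)

GOAL (LFIN): for EVERY `X` and `X^(1-c) ≤ Y ≤ X / C(η)`
`∑_{Q ≤ Y} (G(X,Q) - X (log Q - C_Q)) ≥ -(C exp(-c log X / log(X/Y)) log X + η) X Y`, nothing removed from `G`,
Siegel zeros allowed. PROOF: by `MF.mean_formula` the left side is `∑ L - D + O(η X Y)`; the defect `D` is at most
`2 DA + η X Y` (LA); `DA` is split at `|β| = c₂ K^8 / N` (LB) and, near the fractions, decomposed into characters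
(LC): the energy `EEX` (all characters, corrected by their bad zeros) and the bad zeros themselves (`JP`). For every
character `ψ` of conductor `q ≤ R` with bad zeros: `JP ψ` is about `N wz(N)² F(q)`, `F(q) = min(1, z/q) × (small)`
(`z = N/Y`), while the characters induced by `ψ` add `Gn ψ ≥ c (N wz(N))² log N / q` to `∑ L`: the gain is larger (LI).

Blocks are Props; a block proves `theorem <name>_pr (hypotheses = the Props of the column uses, in this order) : <name>`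
(for instance `theorem LC_pr (c₀ : ℝ) (h0 : ZF c₀) (h1 : WZB c₀) (h2 : W01) (h3 : W06) (h4 : W09) (h5 : LP) : LC c₀`).
Landed files may be imported: Lib_helper98/GAF, Lib_helper3/FGP (P03, P03b, P06, P07a, P09 ...), Lib_helper59/MFF,
Lib_helper92/HCF, Lib_helper92/PVF, Lib_helper73/Var.
-/

set_option autoImplicit false

namespace Pool.Agent.LHM

open Finset Pool.Agent.Var35 Pool.Agent.Var73 Pool.Agent.PV Pool.Agent.FGP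
open scoped ArithmeticFunction ArithmeticFunction.Moebius

/-! ## Zeros -/

/-- ZA : a zero-free constant, from `GA.zero_free_complex`, `GA.zero_free_real` (GAF/Z3); `c = min c₂ c₃ (1/32)`. -/
def ZA : Prop := ∃ c : ℝ, ZF c

/-- ZB : properties of the bad zeros (uses `ZF c`). `z3_zero_re` (re < 1), `mem_zr` (GAF), density
`GA.density` (GAF/Den3) with `δ = c / log D ≤ 1/16` (`nz (LF χ) δ D` counts all zeros with `re ≥ 1 - δ`; `BZ` is a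
subset of `zr (LF χ) δ D`), so `∑ mlt ≤ exp (C (1 + c))`. Third part: termwise, `x^(ρ-1)`, `0 < 1 - ρ < c / log D`. -/
def WZB (c : ℝ) : Prop := ∃ C : ℝ, 1 ≤ C ∧ ∀ D : ℕ, 2 ≤ D →
  (∀ q ∈ Icc 1 D, ∀ χ ∈ GA.Prm q, ∀ ρ ∈ BZ c D χ, GA.LF χ ρ = 0 ∧ ρ.im = 0 ∧ 15 / 16 ≤ ρ.re ∧
    ρ.re < 1 ∧ 1 - c / Real.log D < ρ.re) ∧
  (∑ q ∈ Icc 1 D, ∑ χ ∈ GA.Prm q, ∑ ρ ∈ BZ c D χ, GA.mlt (GA.LF χ) ρ ≤ C) ∧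
  (∀ q ∈ Icc 1 D, ∀ χ ∈ GA.Prm q, ∀ x y : ℝ, 1 ≤ x → x ≤ y →
    0 ≤ wz c D χ y ∧ wz c D χ y ≤ wz c D χ x ∧
      wz c D χ x ≤ wz c D χ y * (y / x) ^ (c / Real.log D) ∧ wz c D χ x ≤ C)

/-- ZC : Gallagher's theorem with the bad zeros (uses `ZF c`, `WZB c`). Model: `GA.x3_one`, `GA.x2_cut`,
`GA.x2_zero_sum`, `GA.gal_SK`, `GA.gal_SKP` (GAF/X2, X3, X4). In `x3_one` (`t = 0`) the zeros of the ball `zb` are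
split: the bad ones (real, `≥ 15/16`, so they are in the ball: `σ + 1 - ρ ≤ σ + 1/16`) give exactly `wg`, the others
are in `zr (LF χ) (1/16) D` and satisfy `ρ.re ≤ 1 - c / log D`; `x2_cut` with the sum over `zr` filtered by
`ρ.re ≤ 1 - c₀ / L` instead of the hypothesis `hzf`. -/
def ZC (c₀ : ℝ) : Prop := ∃ C c A : ℝ, 1 ≤ C ∧ 0 < c ∧ 1 ≤ A ∧ ∀ D : ℕ, 4 ≤ D → ∀ (k : ℕ) (M : ℝ),
  2 ≤ M → A * Real.log D ≤ M → M ^ 2 ≤ k → 4 * k ≤ D ^ 2 * M →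
  ∑ q ∈ Icc 1 D, ∑ χ ∈ GA.Prm q, ‖GA.SKP χ k M 0 + ((wg c₀ D χ k M : ℝ) : ℂ)‖ ≤
    C * Real.exp (-(c * M / Real.log D))

/-- ZD : the energy of one window (uses `WZB c₀`, `ZC c₀`, `W01`, `W02`). Model: `W03_pr` (FGP/P03; `P03S.cmp`,
`p03_absT`). New: `wg` with `k = ⌈(n log n / H)²⌉`, `M = log n` against `∑_m wz(m) vw(m - n)`: with `x = 1 - ρ.re ≤ 1`
`|(1 + x M / k)^(-(k+1)) - n^(-x)| ≤ 4 M² / k ≤ 4 (H/n)²` and `|m^(-x) - n^(-x)| ≤ 2 |m - n| / n ≤ 2 Mw / n ≤ 2 / K^4` in the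
window; `∑ mlt ≤ C` (`WZB`). So `‖TX‖ ≤ ‖SKP + wg‖ + C / K^3`, and `2 K² (C/K³)² ≤ C / K`. -/
def ZD (c₀ : ℝ) : Prop := ∃ C c B : ℝ, 0 < C ∧ 0 < c ∧ 1 ≤ B ∧ ∃ K0 : ℕ, ∀ K ≥ K0, ∀ N : ℕ,
  Rg K N → (K : ℝ) ^ B ≤ N → ∀ n : ℕ, N ≤ n * K ^ 3 → n + Mw N K ≤ N →
  EX c₀ N K n ≤ C * (Real.exp (-(c * Real.log N / Real.log K)) + 1 / K)

/-- ZE : the total energy (uses `W01`, `WZB c₀`, `ZD c₀`). Model: `W03b_pr` (FGP/P03b). -/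
def ZE (c₀ : ℝ) : Prop := ∃ C c B : ℝ, 0 < C ∧ 0 < c ∧ 1 ≤ B ∧ ∃ K0 : ℕ, ∀ K ≥ K0, ∀ N : ℕ,
  Rg K N → (K : ℝ) ^ B ≤ N →
  EEX c₀ N K ≤ C * N * (Real.exp (-(c * Real.log N / Real.log K)) + 1 / Real.sqrt K)

/-! ## The defect -/

/-- LP : Parseval for the integral (model FGP/P07a: `p07a_mul`, and `HC.par_int`, `HC.par_parseval`, HCF/PAR). -/
def LP : Prop := ∀ (N K : ℕ) (a : ℕ → ℂ),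
  ∫ b in (-(1 / 2) : ℝ)..(1 / 2), vh N K b ^ 2 * ‖∑ p ∈ Icc 1 N, a p * e (p * b)‖ ^ 2 =
    ∑ n ∈ Icc (1 - (Mw N K : ℤ)) ((N : ℤ) + Mw N K),
      ‖∑ p ∈ Icc 1 N, a p * (vw N K ((p : ℤ) - n) : ℂ)‖ ^ 2

/-- LA : from the von Mangoldt function to the primes `> √N`. PROOF: `N = ⌊X⌋`, `S Lam = Ps + d`, `d` with coefficients
`Lam n - aS N n ∈ [0, log N]` supported on `≤ C √N` integers (prime powers, primes `≤ √N`); `Ic X β - In N β = O(1)` for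
`|β| ≤ 1/2`; `‖x + u + v‖² ≤ 2‖x‖² + 4‖u‖² + 4‖v‖²`; `Y ∑_q ∫ ∑_c ‖d(c/q+β)‖² ≤ Y ∫_0^1 ‖d‖²` (`MF.arc_le`, MFF/G4b, needs
`2 wd q R ≤ 1`) `≤ C Y √N log² N`; `Y ∑_q (1/φ(q)) 2 wd q C² ≤ C Y`. (`RR ≥ 2`, `0 ≤ kk ≤ 1`: `MF.kk_basic`, MFF/G8.) -/
def LA : Prop := ∀ η : ℝ, 0 < η → ∃ C : ℝ, ∀ (X : ℝ) (Y : ℕ), C ≤ X →
  Real.sqrt X * Real.log X ^ 12 ≤ Y → (Y : ℝ) ≤ X →
  MF.DD X Y ≤ 2 * DA ⌊X⌋₊ Y (MF.RR X Y) (MF.wd X Y) + η * X * Y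

/-- LB : the part `|β| > b = c₂ K^8 / N`. PROOF: there `kk (r Y |β|) ≤ 1 / (r Y b)`, so the tail is at most
`(1/b) ∑_r ∫_{|β| ≤ w r} EM ≤ (1/b) (2 ∑_r ∫ ∑_c ‖Ps‖² + 2 ∑_r (1/φ(r)) ∫ ‖In‖²) ≤ (N/(c₂ K^8)) (2 A2 N + 2 R N)`
(`MF.arc_le`, Parseval; `∑_c mr(r)² = μ²(r)/φ(r) ≤ 1`), `A2 N ≤ C N log N`; the part `|β| ≤ min (w r, b)` is at most the
integral over `[-b, b]` (nonnegative integrand). -/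
def LB : Prop := ∀ c₂ : ℝ, 0 < c₂ → ∃ C : ℝ, 0 < C ∧ ∃ K0 : ℕ, ∀ K ≥ K0, ∀ N Y R : ℕ, Rg K N →
  1 ≤ Y → Y ≤ N → 2 ≤ R → R ≤ K → ∀ w : ℕ → ℝ,
  (∀ r ∈ Icc 1 R, 0 ≤ w r ∧ 2 * w r * r * R ≤ 1) →
  DA N Y R w ≤ Y * (∑ r ∈ Icc 1 R, ∫ β in (-(c₂ * K ^ 8 / N))..(c₂ * K ^ 8 / N),
    HC.kk (r * Y * |β|) * EM N r β) + C * N ^ 2 / (K : ℝ) ^ 5

/-- LC : decomposition into characters (uses `W01`, `W06`, `W09`, `LP`). PROOF: `c₂` with `vh ≥ 1/2` for `|β| ≤ c₂ K^8 / N`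
(`W01`: `|1 - vh| ≤ C H nn(β)`, `H = N / K^8`). `W06` (`r ≤ K ≤ √N`) writes `EM N r β` as a sum over `q ∣ r`, `r = q m`, of
`Wt2 q m` times `∑_ψ ‖Sz ψ N β‖²` (`q > 1`) and `(1/φ(r)) ‖Ps - In‖²` (`q = 1`); `‖Sz‖² ≤ 2 ‖Sz + Jz‖² + 2 ‖Jz‖²`. In the
first part `kk ≤ 1 ≤ 4 vh²` and the integral is extended to `[-1/2, 1/2]`: `LP` gives `Vx ψ` and `∑ T0²`; the sum of the
weights is `≤ C log N` (`W09` with `wt ≥ 1`, also for `q = 1`). The second part is `2 Y ∑ ∑ JP`. -/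
def LC (c₀ : ℝ) : Prop := ∃ C c₂ : ℝ, 0 < C ∧ 0 < c₂ ∧ c₂ ≤ 1 ∧ ∃ K0 : ℕ, ∀ K ≥ K0, ∀ N Y R : ℕ,
  Rg K N → 1 ≤ Y → Y ≤ N → 2 ≤ R → R ≤ K →
  Y * (∑ r ∈ Icc 1 R, ∫ β in (-(c₂ * K ^ 8 / N))..(c₂ * K ^ 8 / N), HC.kk (r * Y * |β|) * EM N r β) ≤
    C * Y * Real.log N * EEX c₀ N K +
    2 * Y * ∑ q ∈ Ioc 1 R, ∑ ψ ∈ Pr q, JP c₀ ψ N K Y R (c₂ * K ^ 8 / N)

/-! ## The bad zeros -/

/-- LD : the exponential sum of a slowly decreasing function. PROOF: `|β| ≤ 1/N` and `β = 0`: `∑ w(m) ≤ w(N) ∑ (N/m)^κ ≤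
2 N w(N)`. Otherwise with `P = ⌊1/|β|⌋ ≤ N`: `∑_{m ≤ P} w(m) ≤ w(N) ∑_{m ≤ P} (N/m)^κ ≤ 2 P (N/P)^κ w(N)`, the rest by Abel summation
`≤ w(P) / |β|` (`|∑_{a < m ≤ b} e(m β)| ≤ 1 / (2 |β|)` for `|β| ≤ 1/2`); `(N/P)^κ ≤ 2 (N |β|)^κ`. -/
def LD : Prop := ∃ C : ℝ, 0 < C ∧ ∀ (N : ℕ) (κ A β : ℝ) (w : ℕ → ℝ), 1 ≤ N → 0 ≤ κ → κ ≤ 1 / 2 →
  1 ≤ A → |β| ≤ 1 / 2 → (N * |β|) ^ κ ≤ A → (∀ m ∈ Icc 1 N, 0 ≤ w m ∧ w m ≤ w N * (N / m : ℝ) ^ κ) →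
  (∀ m ∈ Icc 1 N, ∀ n ∈ Icc 1 N, m ≤ n → w n ≤ w m) →
  ‖∑ n ∈ Icc 1 N, (w n : ℂ) * e (n * β)‖ ≤ C * A * w N * N ∧
  ‖∑ n ∈ Icc 1 N, (w n : ℂ) * e (n * β)‖ * |β| ≤ C * A * w N

/-- LE : the integral with the kernel. PROOF: `kk (a |β|) ≤ min (1, 1/(a |β|))` (`MF.kk_basic`). If `a ≤ N`: `∫ ‖J‖² ≤ 2 A² (N + N)`.
If `a > N`: `|β| ≤ 1/a`: `≤ 2 A² N²/a`; `1/a ≤ |β| ≤ 1/N`: `≤ 2 A² (N²/a) log (a/N)`; `|β| ≥ 1/N`: `≤ A² N²/a`. -/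
def LE : Prop := ∀ (N : ℕ) (a b A : ℝ) (J : ℝ → ℂ), 1 ≤ N → 0 < a → 0 ≤ b → 0 ≤ A → Continuous J →
  (∀ β, |β| ≤ b → ‖J β‖ ≤ A * N ∧ ‖J β‖ * |β| ≤ A) →
  ∫ β in (-b)..b, HC.kk (a * |β|) * ‖J β‖ ^ 2 ≤ 8 * A ^ 2 * N * gg (N / a)

/-- LF : the sum of the weights. PROOF: `q ≤ z`: `gg ≤ 1`, and `(q/φ(q)) ∑_{m ≤ R/q, (m,q)=1} μ²(m)/φ(m) ≤ ∑_{n ≤ R} μ²(n)/φ(n)`
(write `q/φ(q) = ∑_{d ∣ q^∞} 1/d ..`, or `Lib_helper92/PVF` COP, LQA) `≤ C (1 + log R)`. `q > z`: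
`gg (z/(q m)) = (z/(q m)) (1 + log (q m / z)) ≤ (z/(q m)) (1 + log (R/z))`, `∑ 1/(m φ(m)) ≤ C`, and `q/φ(q) ≤ C √(1 + log q)`
(`q/φ(q) ≤ C (1 + log (1 + log q))` is in PVF, used in FGP/P09). -/
def LF : Prop := ∃ C : ℝ, 0 < C ∧ ∀ (q R : ℕ) (z : ℝ), 1 ≤ z → z ≤ R → 1 ≤ q → q ≤ R →
  FS q R z ≤ C * min 1 (z / q) * Gf R z

/-- LG : the characters induced by primitive characters of conductor in `(1, R]` are characters of conductor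
`≤ R ≤ (X/Q) log^8 X`, not principal, different for different `(q, ψ)`; `‖·‖²` of the others is dropped.
(`DirichletCharacter.changeLevel`, `z1_lift_coprime` in GAF/Z1, `char_le` in HCF/CHL, Var73.) -/
def LG : Prop := ∀ (X : ℝ) (Y R : ℕ), 3 ≤ X → (Y : ℝ) ≤ X → 1 ≤ Y → (R : ℝ) ≤ X / Y * Real.log X ^ 8 →
  ∑ q ∈ Ioc 1 R, ∑ ψ ∈ Pr q, Gn ψ ⌊X⌋₊ Y ≤ ∑ Q ∈ Icc 1 Y, HC.LX X Q (X / Q * Real.log X ^ 8)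

/-- LH : the gain (uses `W01`, `WZB c₀`). PROOF: `∑_n TX ψ n = ∑_p aS(p) ψ(p) + ∑_{m ≤ N} wz(m)` (sum over `n` of `vw(p - n)` is
`1` for `p ∈ [1, N]`), and `∑_{m ≤ N} wz(m) ≥ N wz(N)`; Cauchy: `|∑_n TX|² ≤ (N + 2 Mw) Vx ≤ 2 N Vx`; for `Q ≤ N`
`|∑_{(n,Q)=1} Lam(n) ψ(n) - ∑ aS(n) ψ(n)| ≤ C √N log N` (prime powers and primes `≤ √N`: `C √N log N`; primes `p ∣ Q`, `p > √N`: at
most `2 log N`). So `N wz(N) ≤ √(2 N Vx) + ‖∑_{(n,Q)=1} Lam ψ‖ + C √N log N`; square, multiply by `1/φ(Q)`, sum over the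
multiples `Q ≤ Y` of `q`: `∑ 1/φ(Q) ≥ (1/q) ∑_{m ≤ Y/q} 1/m ≥ log (Y/q) / q`. (The sum `s` of `1/φ(Q)` cancels: prove
`s (N wz)² ≤ 3 Gn + C s N (Vx + log² N)` and divide by cases, or state as below.) -/
def LH (c₀ : ℝ) : Prop := ∃ C : ℝ, 0 < C ∧ ∃ K0 : ℕ, ∀ K ≥ K0, ∀ N Y : ℕ, Rg K N → Y ≤ N →
  ∀ q ∈ Ioc 1 K, ∀ ψ ∈ Pr q, q ≤ Y →
  C * N * (Vx c₀ ψ N K + Real.log N ^ 2) ≤ (N * wz c₀ (K ^ 20) ψ N) ^ 2 →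
  (N * wz c₀ (K ^ 20) ψ N) ^ 2 * (Real.log (Y / q) / q) ≤ 6 * Gn ψ N Y

/-- LI : one character (uses `WZB c₀`, `LD`, `LE`, `LF`, `LH c₀`). PROOF: `LD` with `w = wz c₀ (K^20) ψ`, `κ = c₀ / log (K^20)`,
`A = e`: for `|β| ≤ c₂ K^8 / N`, `(N |β|)^κ ≤ exp (8 c₀ / 20)`; `LE` with `a = q m Y`: `4 Y JP ≤ C Y N wz(N)² FS q R (N/Y)`;
`LF` (`z = N/Y`). If the hypothesis of `LH` holds: `C Y N wz² (z/q) Gf = C (N wz)² Gf / q ≤ Gn` because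
`Gf ≤ κ log N ≤ log (Y/q) / (6 C)` (`Y/q ≥ N^(1/4)`). Otherwise `N wz² ≤ C (Vx + log² N)` and `4 Y JP ≤ C Y Gf (Vx + log² N)`. -/
def LI (c₀ : ℝ) : Prop := ∀ c₂ : ℝ, 0 < c₂ → c₂ ≤ 1 → ∃ C κ : ℝ, 0 < C ∧ 0 < κ ∧ κ ≤ 1 ∧ ∃ K0 : ℕ,
  ∀ K ≥ K0, ∀ N Y R : ℕ, Rg K N → Y ≤ N → N ≤ Y ^ 2 → 2 ≤ R → R ≤ K → N ≤ R * Y →
  Gf R (N / Y) ≤ κ * Real.log N → ∀ q ∈ Ioc 1 R, ∀ ψ ∈ Pr q,
  4 * Y * JP c₀ ψ N K Y R (c₂ * K ^ 8 / N) ≤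
    Gn ψ N Y + C * Y * Real.log N * (Vx c₀ ψ N K + Real.log N ^ 2)

/-! ## Assembly -/

/-- LJ : the defect is at most the gain plus the energy (uses `LA`, `LB`, `LC c₀`, `LG`, `LI c₀`) -/
def LJ (c₀ : ℝ) : Prop := ∃ C κ : ℝ, 0 < C ∧ 0 < κ ∧ ∀ η : ℝ, 0 < η → ∃ C' : ℝ, ∀ (X : ℝ) (Y K : ℕ),
  C' ≤ X → X ^ (9 / 10 : ℝ) ≤ Y → (Y : ℝ) ≤ X → Rg K ⌊X⌋₊ → X / Y * Real.log X ^ 8 ≤ K →
  Gf (MF.RR X Y) (⌊X⌋₊ / Y) ≤ κ * Real.log X →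
  MF.DD X Y ≤ ∑ Q ∈ Icc 1 Y, HC.LX X Q (X / Q * Real.log X ^ 8) +
    C * Y * Real.log X * EEX c₀ ⌊X⌋₊ K + η * X * Y

/-- LFIN : the final statement (uses `ZE c₀`, `LJ c₀`, and `MF.mean_formula`, MFF/F1b) -/
def LFIN : Prop := ∃ c C : ℝ, 0 < c ∧ 0 < C ∧ ∀ η : ℝ, 0 < η → ∃ C' : ℝ, ∀ (X : ℝ) (Y : ℕ),
  C' ≤ X → X ^ (1 - c) ≤ Y → C' * Y ≤ X →
  -((C * Real.exp (-(c * Real.log X / Real.log (X / Y))) * Real.log X + η) * X * Y) ≤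
    ∑ Q ∈ Icc 1 Y, (HC.GX X Q - X * (Real.log Q - HC.CQ Q))

end Pool.Agent.LHM
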